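import Pool.Agent.W808.KU.Stm

/-!
# The tubes touch the boxes only at their cells (slit plane; task KU-k2, helper193)
-/

set_option autoImplicit false

namespace Pool.Agent.W808.KU
open Pool.Agent.H160R2.MU (Cel csq cpos prd shf BxS Bxs EP inSq PC Bad Cc)
open Pool.Agent.W808.HU (sv du labT labC)

namespace Tk2

/-- admissible cell -/
def AC (N : ℕ) (C : Cel) : Prop := C.1 < 4 ∧ -(N : ℤ) + 6 ≤ C.2 ∧ C.2 + 7 ≤ N

theorem AC4 {N : ℕ} {s : ℕ} {x : ℤ} (h : AC N (s, x)) :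
    (s = 0 ∨ s = 1 ∨ s = 2 ∨ s = 3) ∧ -(N : ℤ) + 6 ≤ x ∧ x + 7 ≤ N := by
  obtain ⟨h1, h2, h3⟩ := h
  simp only at h1 h2 h3
  refine ⟨by omega, h2, h3⟩

/-- extent of a tube -/
theorem ext (N k i : ℕ) (hi : 2 * i < k) (hN : k + 4 ≤ N)
    (A A' : Cel) (hA : AC N A) (hA' : AC N A')
    (z : ℤ × ℤ) (hz : z ∈ TbW N k i A A') :
    -(N : ℤ) - k - 1 ≤ z.1 ∧ z.1 ≤ prd N k + N + k ∧ -(N : ℤ) - k - 1 ≤ z.2 ∧
      z.2 ≤ prd N k + N + k := by
  obtain ⟨sa, xa⟩ := A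
  obtain ⟨sa', xa'⟩ := A'
  obtain ⟨x, y⟩ := z
  obtain ⟨h1, hA⟩ := AC4 hA
  obtain ⟨h2, hA'⟩ := AC4 hA'
  simp only
  rcases h1 with rfl | rfl | rfl | rfl <;> rcases h2 with rfl | rfl | rfl | rfl <;>
    simp [TbW, ra, rb, prd] at hz ⊢ <;>
    omega

/-- near the box of the start -/
theorem box0 (N k i : ℕ) (hi : 2 * i < k) (hN : k + 4 ≤ N)
    (A A' : Cel) (hA : AC N A) (hA' : AC N A')
    (z b : ℤ × ℤ) (hz : z ∈ TbW N k i A A')
    (hb : -(N : ℤ) ≤ b.1 ∧ b.1 < N ∧ -(N : ℤ) ≤ b.2 ∧ b.2 < N)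
    (h1 : |z.1 - b.1| ≤ 1) (h2 : |z.2 - b.2| ≤ 1) : z = csq N A := by
  obtain ⟨sa, xa⟩ := A
  obtain ⟨sa', xa'⟩ := A'
  obtain ⟨x, y⟩ := z
  obtain ⟨x', y'⟩ := b
  rw [abs_le] at h1 h2
  obtain ⟨h3, hA⟩ := AC4 hA
  obtain ⟨h4, hA'⟩ := AC4 hA'
  simp only at h1 h2 hb
  rcases h3 with rfl | rfl | rfl | rfl <;> rcases h4 with rfl | rfl | rfl | rfl <;>
    simp [TbW, ra, rb, prd, csq] at hz ⊢ <;>
    omega

/-- near the box of the end -/
theorem box1 (N k i : ℕ) (hi : 2 * i < k) (hk : 2 ≤ k) (hN : k + 4 ≤ N)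
    (A A' : Cel) (hA : AC N A) (hA' : AC N A')
    (z b : ℤ × ℤ) (hz : z ∈ TbW N k i A A')
    (hb : -(N : ℤ) ≤ b.1 - prd N k ∧ b.1 - prd N k < N ∧ -(N : ℤ) ≤ b.2 - prd N k ∧
      b.2 - prd N k < N)
    (h1 : |z.1 - b.1| ≤ 1) (h2 : |z.2 - b.2| ≤ 1) :
    (z.1 - prd N k, z.2 - prd N k) = csq N A' := by
  obtain ⟨sa, xa⟩ := A
  obtain ⟨sa', xa'⟩ := A'
  obtain ⟨x, y⟩ := z
  obtain ⟨x', y'⟩ := b
  rw [abs_le] at h1 h2
  obtain ⟨h3, hA⟩ := AC4 hA
  obtain ⟨h4, hA'⟩ := AC4 hA'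
  simp only at h1 h2 hb
  rcases h3 with rfl | rfl | rfl | rfl <;> rcases h4 with rfl | rfl | rfl | rfl <;>
    simp [TbW, ra, rb, prd, csq] at hz hb ⊢ <;>
    omega

end Tk2

open Tk2

theorem t_k2 : S_k2 := by
  intro N k c hk hN hAdm L s z b hz hb h1 h2
  obtain ⟨hc, hpos, hsep⟩ := hAdm
  have hPe : ((prd N k : ℕ) : ℤ) = 4 * (N + 4 * k) := by
    unfold prd; push_cast; ring
  obtain ⟨i, s', hi, hl, hm⟩ := hz
  simp only [BxS, shf, Set.mem_ofPred_eq] at hb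
  have e1 : |(shf N k s' z).1 - (shf N k s' b).1| ≤ 1 := by
    simp only [shf]
    rw [show z.1 - s' * (prd N k : ℕ) - (b.1 - s' * (prd N k : ℕ)) = z.1 - b.1 by ring]
    exact h1
  have e2 : |(shf N k s' z).2 - (shf N k s' b).2| ≤ 1 := by
    simp only [shf]
    rw [show z.2 - s' * (prd N k : ℕ) - (b.2 - s' * (prd N k : ℕ)) = z.2 - b.2 by ring]
    exact h2
  rcases lt_trichotomy s s' with h | h | h
  · exfalso
    have hA := ext N k i hi hN _ _ (hc _) (hc _) _ hm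
    simp only [shf] at hA
    have h3 : s * (prd N k : ℕ) + (prd N k : ℕ) ≤ s' * (prd N k : ℕ) := by
      have : s + 1 ≤ s' := by omega
      nlinarith
    rw [abs_le] at h1 h2
    omega
  · subst h
    refine ⟨⟨i, by omega⟩, ?_, ?_⟩
    · rw [← hl]
      simp only [labC, labT]
      by_cases h : 2 * i + 1 = k
      · have h' : ¬ 2 * i + 1 < k := by omega
        simp [h]
      · have h' : 2 * i + 1 < k := by omega
        simp [h, h']
    · exact box0 N k i hi hN _ _ (hc _) (hc _) _ (shf N k s b) hm hb e1 e2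
  · rcases eq_or_lt_of_le (show s' + 1 ≤ s by omega) with h' | h'
    · subst h'
      refine ⟨⟨k - 1 - i, by omega⟩, ?_, ?_⟩
      · rw [← hl]
        simp only [labC, labT]
        by_cases h : 2 * i + 1 = k
        · have h3 : k - 1 - i = i := by omega
          rw [h3]
          simp [h]
        · have h3 : ¬ 2 * (k - 1 - i) + 1 < k := by omega
          have h4 : ¬ 2 * (k - 1 - i) + 1 = k := by omega
          have h5 : k - 1 - (k - 1 - i) = i := by omega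
          simp [h, h3, h4, h5]
      · have := box1 N k i hi hk hN _ _ (hc _) (hc _) _ (shf N k s' b) hm (by
          simp only [shf]
          refine ⟨?_, ?_, ?_, ?_⟩ <;> linarith [hb.1, hb.2.1, hb.2.2.1, hb.2.2.2]) e1 e2
        rw [← this]
        simp only [shf]
        ext
        · simp only; ring
        · simp only; ring
    · exfalso
      have hA := ext N k i hi hN _ _ (hc _) (hc _) _ hm
      simp only [shf] at hA
      have h3 : s' * (prd N k : ℕ) + 2 * (prd N k : ℕ) ≤ s * (prd N k : ℕ) := by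
        have : s' + 2 ≤ s := by omega
        nlinarith
      rw [abs_le] at h1 h2
      omega

end Pool.Agent.W808.KU
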