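import Pool.Agent.W808.KU.Stm
import Pool.Agent.H160R2.MU.T_g3

/-! k3 (helper45): the tubes are connected and contain their cells. -/

set_option autoImplicit false

namespace Pool.Agent.W808.KU

open H974 H906.Cyl
open H12S (Dir hbE segD rimE H4 Crs Nr sqE)
open Pool.Agent.H160R2.ML (nm)
open Pool.Agent.H160R2.MU (Cel csq cpos prd shf BxS Bxs EP inSq PC Bad Cc)
open Pool.Agent.W808.HU (sv du labT labC)

namespace Tk3

open Pool.Agent.H160R2.MU.Tg3 (K Kh Kv shf_bk bk_shf lift mem_sq full close top left bottom right)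

/-- the conditions on one cell -/
def Ok1 (N : ℕ) (C : Cel) : Prop := C.1 < 4 ∧ -(N : ℤ) + 6 ≤ C.2 ∧ C.2 + 7 ≤ N

lemma prd_eq (N k : ℕ) : (prd N k : ℤ) = 4 * (N + 4 * k) := by unfold prd; push_cast; ring

/-- translation by one period -/
def up (N k : ℕ) (z : ℤ × ℤ) : ℤ × ℤ := (z.1 + prd N k, z.2 + prd N k)

lemma piece {N k i : ℕ} {C C' : Cel} (hk : 2 ≤ k) (hi : 2 * i < k) (hC : Ok1 N C)
    (hC' : Ok1 N C') :
    (∀ z ∈ TbW N k i C C', K (TbW N k i C C') z (csq N C)) ∧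
      csq N C ∈ TbW N k i C C' ∧ up N k (csq N C') ∈ TbW N k i C C' := by
  obtain ⟨c1, c2⟩ := C
  obtain ⟨d1, d2⟩ := C'
  obtain ⟨hc1, hc2, hc3⟩ := hC
  obtain ⟨hd1, hd2, hd3⟩ := hC'
  simp only at hc1 hc2 hc3 hd1 hd2 hd3
  have hprd := prd_eq N k
  have hkk : (2 : ℤ) ≤ k := by exact_mod_cast hk
  have hik : (2 : ℤ) * i < k := by exact_mod_cast hi
  have hi0 : (0 : ℤ) ≤ i := by positivity
  have hN0 : (0 : ℤ) ≤ N := by positivity
  obtain ⟨P, hP⟩ : ∃ P : ℤ, P = (prd N k : ℤ) := ⟨_, rfl⟩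
  rw [← hP] at hprd
  obtain ⟨ρ, hρ⟩ : ∃ ρ : ℤ, ρ = ra N i := ⟨_, rfl⟩
  obtain ⟨τ, hτ⟩ : ∃ τ : ℤ, τ = rb N k i := ⟨_, rfl⟩
  have hρ' : ρ = N + 1 + 2 * i := hρ
  have hτ' : τ = N + 1 + 2 * ((k : ℤ) - i) := hτ
  obtain ⟨x0, hx0⟩ : ∃ x0 : ℤ, x0 = if c1 = 1 then (N : ℤ) else if c1 = 3 then -ρ - 1 else c2 :=
    ⟨_, rfl⟩
  obtain ⟨y0, hy0⟩ : ∃ y0 : ℤ, y0 = if c1 = 0 then τ else if c1 = 1 then c2 else -ρ - 1 :=
    ⟨_, rfl⟩
  obtain ⟨x1, hx1⟩ : ∃ x1 : ℤ, x1 = if d1 = 3 then P - τ - 1 else if d1 = 2 then P + d2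
    else P + ρ := ⟨_, rfl⟩
  obtain ⟨y1, hy1⟩ : ∃ y1 : ℤ, y1 = if d1 = 0 then P + ρ else if d1 = 2 then P - N - 1
    else P + d2 := ⟨_, rfl⟩
  obtain ⟨T, hT⟩ : ∃ T : Set (ℤ × ℤ), T = TbW N k i (c1, c2) (d1, d2) := ⟨_, rfl⟩
  have hmem : ∀ z : ℤ × ℤ, z ∈ T ↔
      (c1 = 0 ∧ z.1 = c2 ∧ N ≤ z.2 ∧ z.2 ≤ y0) ∨
      (c1 = 2 ∧ z.1 = c2 ∧ y0 ≤ z.2 ∧ z.2 ≤ -N - 1) ∨
      (c1 = 3 ∧ z.2 = c2 ∧ x0 ≤ z.1 ∧ z.1 ≤ -N - 1) ∨
      (c1 = 3 ∧ z.1 = x0 ∧ y0 ≤ z.2 ∧ z.2 ≤ c2) ∨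
      (z.2 = y0 ∧ x0 ≤ z.1 ∧ z.1 ≤ x1) ∨
      (z.1 = x1 ∧ y0 ≤ z.2 ∧ z.2 ≤ y1) ∨
      (d1 = 1 ∧ z.2 = y1 ∧ P + N ≤ z.1 ∧ z.1 ≤ x1) ∨
      (d1 = 3 ∧ z.2 = y1 ∧ x1 ≤ z.1 ∧ z.1 ≤ P - N - 1) ∨
      (d1 = 0 ∧ z.2 = y1 ∧ P + d2 ≤ z.1 ∧ z.1 ≤ x1) ∨
      (d1 = 0 ∧ z.1 = P + d2 ∧ P + N ≤ z.2 ∧ z.2 ≤ y1) := by
    intro z
    rw [hT, hy0, hx0, hx1, hy1, hρ, hτ, hP]
    exact Iff.rfl
  rw [← hT]
  have hx01 : x0 ≤ x1 := by
    rw [hx0, hx1]
    split_ifs <;> omega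
  have hy01 : y0 ≤ y1 := by
    rw [hy0, hy1]
    split_ifs <;> omega
  -- members
  have m1 : c1 = 0 → ∀ t : ℤ, (N : ℤ) ≤ t → t ≤ y0 → ((c2, t) : ℤ × ℤ) ∈ T :=
    fun h t h2 h3 => (hmem _).2 (Or.inl ⟨h, rfl, h2, h3⟩)
  have m2 : c1 = 2 → ∀ t, y0 ≤ t → t ≤ -N - 1 → ((c2, t) : ℤ × ℤ) ∈ T :=
    fun h t h2 h3 => (hmem _).2 (Or.inr (Or.inl ⟨h, rfl, h2, h3⟩))
  have m3 : c1 = 3 → ∀ t, x0 ≤ t → t ≤ -N - 1 → ((t, c2) : ℤ × ℤ) ∈ T :=
    fun h t h2 h3 => (hmem _).2 (Or.inr (Or.inr (Or.inl ⟨h, rfl, h2, h3⟩)))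
  have m4 : c1 = 3 → ∀ t, y0 ≤ t → t ≤ c2 → ((x0, t) : ℤ × ℤ) ∈ T :=
    fun h t h2 h3 => (hmem _).2 (Or.inr (Or.inr (Or.inr (Or.inl ⟨h, rfl, h2, h3⟩))))
  have m5 : ∀ t, x0 ≤ t → t ≤ x1 → ((t, y0) : ℤ × ℤ) ∈ T :=
    fun t h2 h3 => (hmem _).2 (Or.inr (Or.inr (Or.inr (Or.inr (Or.inl ⟨rfl, h2, h3⟩)))))
  have m6 : ∀ t, y0 ≤ t → t ≤ y1 → ((x1, t) : ℤ × ℤ) ∈ T :=
    fun t h2 h3 => (hmem _).2 (Or.inr (Or.inr (Or.inr (Or.inr (Or.inr (Or.inl ⟨rfl, h2, h3⟩))))))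
  have m7 : d1 = 1 → ∀ t, P + N ≤ t → t ≤ x1 → ((t, y1) : ℤ × ℤ) ∈ T :=
    fun h t h2 h3 => (hmem _).2
      (Or.inr (Or.inr (Or.inr (Or.inr (Or.inr (Or.inr (Or.inl ⟨h, rfl, h2, h3⟩)))))))
  have m8 : d1 = 3 → ∀ t, x1 ≤ t → t ≤ P - N - 1 → ((t, y1) : ℤ × ℤ) ∈ T :=
    fun h t h2 h3 => (hmem _).2
      (Or.inr (Or.inr (Or.inr (Or.inr (Or.inr (Or.inr (Or.inr (Or.inl ⟨h, rfl, h2, h3⟩))))))))
  have m9 : d1 = 0 → ∀ t, P + d2 ≤ t → t ≤ x1 → ((t, y1) : ℤ × ℤ) ∈ T :=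
    fun h t h2 h3 => (hmem _).2
      (Or.inr (Or.inr (Or.inr (Or.inr (Or.inr (Or.inr (Or.inr (Or.inr
        (Or.inl ⟨h, rfl, h2, h3⟩)))))))))
  have m10 : d1 = 0 → ∀ t, P + N ≤ t → t ≤ y1 → ((P + d2, t) : ℤ × ℤ) ∈ T :=
    fun h t h2 h3 => (hmem _).2
      (Or.inr (Or.inr (Or.inr (Or.inr (Or.inr (Or.inr (Or.inr (Or.inr
        (Or.inr ⟨h, rfl, h2, h3⟩)))))))))
  -- the first cell
  have e0 : K T (x0, y0) (csq N (c1, c2)) ∧ csq N (c1, c2) ∈ T := by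
    have hc : c1 = 0 ∨ c1 = 1 ∨ c1 = 2 ∨ c1 = 3 := by omega
    rcases hc with h | h | h | h
    · subst h
      have hq : csq N (0, c2) = (c2, (N : ℤ)) := rfl
      have h1 : x0 = c2 := hx0
      have h2 : y0 = τ := hy0
      rw [hq, h1]
      exact ⟨(Kv (by omega) fun t h3 h4 => m1 rfl t h3 h4).symm, m1 rfl _ le_rfl (by omega)⟩
    · subst h
      have hq : csq N (1, c2) = ((N : ℤ), c2) := rfl
      have h1 : x0 = N := hx0
      have h2 : y0 = c2 := hy0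
      rw [hq, ← h1, ← h2]
      exact ⟨K.refl _ _, m5 _ le_rfl hx01⟩
    · subst h
      have hq : csq N (2, c2) = (c2, -(N : ℤ) - 1) := rfl
      have h1 : x0 = c2 := hx0
      have h2 : y0 = -ρ - 1 := hy0
      rw [hq, h1]
      exact ⟨Kv (by omega) fun t h3 h4 => m2 rfl t h3 h4, m2 rfl _ (by omega) le_rfl⟩
    · subst h
      have hq : csq N (3, c2) = (-(N : ℤ) - 1, c2) := rfl
      have h1 : x0 = -ρ - 1 := hx0
      have h2 : y0 = -ρ - 1 := hy0
      rw [hq]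
      exact ⟨(Kv (by omega) fun t h3 h4 => m4 rfl t h3 h4).trans
        (Kh (by omega) fun t h3 h4 => m3 rfl t h3 h4), m3 rfl _ (by omega) le_rfl⟩
  -- chains
  have e5 : ∀ t, x0 ≤ t → t ≤ x1 → K T (t, y0) (csq N (c1, c2)) :=
    fun t h2 h3 => ((Kh h2 fun t' h4 h5 => m5 t' h4 (h5.trans h3)).symm).trans e0.1
  have e6 : ∀ t, y0 ≤ t → t ≤ y1 → K T (x1, t) (csq N (c1, c2)) :=
    fun t h2 h3 => ((Kv h2 fun t' h4 h5 => m6 t' h4 (h5.trans h3)).symm).trans (e5 _ hx01 le_rfl)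
  have e9 : d1 = 0 → ∀ t, P + d2 ≤ t → t ≤ x1 → K T (t, y1) (csq N (c1, c2)) :=
    fun h t h2 h3 => (Kh h3 fun t' h4 h5 => m9 h t' (h2.trans h4) h5).trans (e6 _ hy01 le_rfl)
  refine ⟨?_, e0.2, ?_⟩
  · rintro ⟨x, y⟩ hz
    rcases (hmem _).1 hz with ⟨g0, g1, g2, g3⟩ | ⟨g0, g1, g2, g3⟩ | ⟨g0, g1, g2, g3⟩ |
      ⟨g0, g1, g2, g3⟩ | ⟨g1, g2, g3⟩ | ⟨g1, g2, g3⟩ | ⟨g0, g1, g2, g3⟩ | ⟨g0, g1, g2, g3⟩ |
      ⟨g0, g1, g2, g3⟩ | ⟨g0, g1, g2, g3⟩ <;> simp only at g1 g2 g3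
    · rw [g1]
      have h1 : x0 = c2 := by rw [hx0, if_neg (by omega), if_neg (by omega)]
      refine (Kv g3 fun t' h4 h5 => m1 g0 t' (g2.trans h4) h5).trans ?_
      have e0' := e0.1
      rw [h1] at e0'
      exact e0'
    · rw [g1]
      have h1 : x0 = c2 := by rw [hx0, if_neg (by omega), if_neg (by omega)]
      refine (Kv g2 fun t' h4 h5 => m2 g0 t' h4 (h5.trans g3)).symm.trans ?_
      have e0' := e0.1
      rw [h1] at e0'
      exact e0'
    · rw [g1]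
      subst g0
      exact Kh g3 fun t' h4 h5 => m3 rfl t' (g2.trans h4) h5
    · rw [g1]
      exact (Kv g2 fun t' h4 h5 => m4 g0 t' h4 (h5.trans g3)).symm.trans e0.1
    · rw [g1]
      exact e5 _ g2 g3
    · rw [g1]
      exact e6 _ g2 g3
    · rw [g1]
      exact (Kh g3 fun t' h4 h5 => m7 g0 t' (g2.trans h4) h5).trans (e6 _ hy01 le_rfl)
    · rw [g1]
      exact (Kh g2 fun t' h4 h5 => m8 g0 t' h4 (h5.trans g3)).symm.trans (e6 _ hy01 le_rfl)
    · rw [g1]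
      exact e9 g0 _ g2 g3
    · rw [g1]
      have h1 : x1 = P + ρ := by rw [hx1, if_neg (by omega), if_neg (by omega)]
      exact (Kv g3 fun t' h4 h5 => m10 g0 t' (g2.trans h4) h5).trans
        (e9 g0 _ le_rfl (by omega))
  · have hd : d1 = 0 ∨ d1 = 1 ∨ d1 = 2 ∨ d1 = 3 := by omega
    rcases hd with h | h | h | h
    · subst h
      have hq : up N k (csq N (0, d2)) = (P + d2, P + N) := by
        rw [hP]
        unfold up csq
        simp only [if_true]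
        rw [add_comm d2, add_comm (N : ℤ)]
      rw [hq]
      refine m10 rfl _ le_rfl ?_
      have h1 : y1 = P + ρ := hy1
      omega
    · subst h
      have h1 : y1 = P + d2 := hy1
      have h2 : x1 = P + ρ := hx1
      have hq : up N k (csq N (1, d2)) = (P + N, y1) := by
        rw [h1, hP]
        unfold up csq
        simp only [if_true, one_ne_zero, if_false]
        rw [add_comm d2, add_comm (N : ℤ)]
      rw [hq]
      exact m7 rfl _ le_rfl (by omega)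
    · subst h
      have h1 : y1 = P - N - 1 := hy1
      have h2 : x1 = P + d2 := hx1
      have hq : up N k (csq N (2, d2)) = (x1, y1) := by
        rw [h1, h2, hP]
        have : csq N (2, d2) = (d2, -(N : ℤ) - 1) := rfl
        rw [this]
        unfold up
        simp only
        rw [Prod.mk.injEq]
        constructor <;> ring
      rw [hq]
      exact m6 _ hy01 le_rfl
    · subst h
      have h1 : y1 = P + d2 := hy1
      have h2 : x1 = P - τ - 1 := hx1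
      have hq : up N k (csq N (3, d2)) = (P - N - 1, y1) := by
        rw [h1, hP]
        have : csq N (3, d2) = (-(N : ℤ) - 1, d2) := rfl
        rw [this]
        unfold up
        simp only
        rw [Prod.mk.injEq]
        constructor <;> ring
      rw [hq]
      exact m8 rfl _ (by omega) le_rfl

lemma bk_up (N k : ℕ) (s : ℤ) (z : ℤ × ℤ) : Pool.Agent.H160R2.MU.Tg3.bk N k s (up N k z) =
    Pool.Agent.H160R2.MU.Tg3.bk N k (s + 1) z := by
  unfold Pool.Agent.H160R2.MU.Tg3.bk up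
  ext
  · show z.1 + (prd N k : ℤ) + s * prd N k = z.1 + (s + 1) * prd N k
    ring
  · show z.2 + (prd N k : ℤ) + s * prd N k = z.2 + (s + 1) * prd N k
    ring

/-- the first cell of the piece `i` of the box `s` -/
def En (N k : ℕ) (c : Fin k → Cel) (a : Fin k) (s : ℤ) : ℤ × ℤ :=
  Pool.Agent.H160R2.MU.Tg3.bk N k s (csq N (c a))

lemma piece_tube {N k : ℕ} {c : Fin k → Cel} (hk : 2 ≤ k) (hA : AdmS N k c) {L : ℕ × ℤ} {i : ℕ}
    {s : ℤ} (h : 2 * i < k) (hL : labT k i s = L) :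
    (∀ z, shf N k s z ∈ TbW N k i (c ⟨i, by omega⟩) (c ⟨k - 1 - i, by omega⟩) →
      K (TubeS N k c L) z (En N k c ⟨i, by omega⟩ s)) ∧
    En N k c ⟨i, by omega⟩ s ∈ TubeS N k c L ∧
    En N k c ⟨k - 1 - i, by omega⟩ (s + 1) ∈ TubeS N k c L ∧
    K (TubeS N k c L) (En N k c ⟨k - 1 - i, by omega⟩ (s + 1)) (En N k c ⟨i, by omega⟩ s) := by
  have hsub : ∀ w ∈ TbW N k i (c ⟨i, by omega⟩) (c ⟨k - 1 - i, by omega⟩),
      Pool.Agent.H160R2.MU.Tg3.bk N k s w ∈ TubeS N k c L :=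
    fun w hw => ⟨i, s, h, hL, by rw [shf_bk]; exact hw⟩
  obtain ⟨h1, h2, h3⟩ := piece hk h (hA.1 ⟨i, by omega⟩) (hA.1 ⟨k - 1 - i, by omega⟩)
  have h4 := hsub _ h3
  have h5 := lift hsub (h1 _ h3)
  rw [bk_up] at h4 h5
  refine ⟨fun z hz => ?_, hsub _ h2, h4, h5⟩
  have h6 := lift hsub (h1 _ hz)
  rwa [bk_shf] at h6

/-- a tube is a chain -/
lemma tube {N k : ℕ} {c : Fin k → Cel} (hk : 2 ≤ k) (hA : AdmS N k c) (L : ℕ × ℤ) :
    ∃ E : ℤ × ℤ, ∀ z ∈ TubeS N k c L, K (TubeS N k c L) z E := by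
  obtain ⟨i, s0⟩ := L
  rcases lt_trichotomy (2 * i + 1) k with h | h | h
  · have hlab : labT k i s0 = (i, s0) := by unfold labT; rw [if_neg (by omega)]
    refine ⟨En N k c ⟨i, by omega⟩ s0, ?_⟩
    rintro z ⟨j, s, hj, hL, hz⟩
    have hL' := hL
    unfold labT at hL
    have h5 : j = i := by
      split_ifs at hL
      · exact congrArg Prod.fst hL
      · exact congrArg Prod.fst hL
    subst h5
    have h6 : s = s0 := by
      rw [if_neg (by omega)] at hL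
      exact congrArg Prod.snd hL
    subst h6
    exact (piece_tube hk hA hj hL').1 z hz
  · have hki : k - 1 - i = i := by omega
    have hi : 2 * i < k := by omega
    have hfin : (⟨k - 1 - i, by omega⟩ : Fin k) = ⟨i, by omega⟩ := Fin.ext hki
    have hall : s0 = 0 → ∀ s : ℤ, K (TubeS N k c (i, s0)) (En N k c ⟨i, by omega⟩ (s + 1))
        (En N k c ⟨i, by omega⟩ s) := by
      intro h0 s
      have hlab : labT k i s = (i, s0) := by unfold labT; rw [if_pos h, h0]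
      have := (piece_tube (N := N) (c := c) hk hA (i := i) (s := s) hi hlab).2.2.2
      rwa [hfin] at this
    have hall2 : s0 = 0 → ∀ s : ℤ, K (TubeS N k c (i, s0)) (En N k c ⟨i, by omega⟩ s)
        (En N k c ⟨i, by omega⟩ 0) := by
      intro h0 s
      induction s using Int.induction_on with
      | zero => exact K.refl _ _
      | succ n ih => exact (hall h0 n).trans ih
      | pred n ih =>
        have := hall h0 (-(n : ℤ) - 1)
        rw [sub_add_cancel] at this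
        exact this.symm.trans ih
    refine ⟨En N k c ⟨i, by omega⟩ 0, ?_⟩
    rintro z ⟨j, s, hj, hL, hz⟩
    have hL' := hL
    unfold labT at hL
    have h5 : j = i := by
      split_ifs at hL
      · exact congrArg Prod.fst hL
      · exact congrArg Prod.fst hL
    subst h5
    have h6 : (0 : ℤ) = s0 := by
      rw [if_pos h] at hL
      exact congrArg Prod.snd hL
    exact ((piece_tube hk hA hj hL').1 z hz).trans (hall2 h6.symm s)
  · refine ⟨0, ?_⟩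
    rintro z ⟨j, s, hj, hL, hz⟩
    exfalso
    have h5 : j = i := by
      unfold labT at hL
      split_ifs at hL
      · exact congrArg Prod.fst hL
      · exact congrArg Prod.fst hL
    omega

/-- the squares of a tube are connected inside -/
lemma inner (h2 : S_k2) {N k : ℕ} {c : Fin k → Cel} (hk : 2 ≤ k) (hN : k + 4 ≤ N)
    (hA : AdmS N k c) {r : ℕ} (hr : 1 ≤ r) {L : ℕ × ℤ} {z : ℤ × ℤ} (hz : z ∈ TubeS N k c L)
    {u v : Vtx} (hu : inSq r z u) (hv : inSq r z v) :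
    Reach (EP r (TubeS N k c L) \ EP r (Bxs N k)) u v := by
  have hg2 := h2 N k c hk hN hA
  by_cases hb : ∃ (s : ℤ) (b : ℤ × ℤ), b ∈ BxS N k s ∧ |z.1 - b.1| ≤ 1 ∧ |z.2 - b.2| ≤ 1
  · obtain ⟨s, b, hbs, hb1, hb2⟩ := hb
    obtain ⟨a, -, hac⟩ := hg2 L s z b hz hbs hb1 hb2
    have hprd := prd_eq N k
    have hcs : ∀ d : Fin k, -(N : ℤ) - 1 ≤ (csq N (c d)).1 ∧ (csq N (c d)).1 ≤ N := by
      intro d
      obtain ⟨e1, e2, e3⟩ := hA.1 d
      unfold csq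
      split_ifs <;> simp only <;> constructor <;> omega
    -- boxes near `z` are the box `s`
    have huniq : ∀ (s' : ℤ) (b' : ℤ × ℤ), b' ∈ BxS N k s' → |z.1 - b'.1| ≤ 1 → |z.2 - b'.2| ≤ 1 →
        s' = s := by
      intro s' b' hb' h3 h4
      obtain ⟨a', -, hac'⟩ := hg2 L s' z b' hz hb' h3 h4
      have k1 : z.1 - s * prd N k = (csq N (c a)).1 := congrArg Prod.fst hac
      have k2 : z.1 - s' * prd N k = (csq N (c a')).1 := congrArg Prod.fst hac'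
      have k3 := hcs a
      have k4 := hcs a'
      have k5 : (s' - s) * (prd N k : ℤ) = (csq N (c a)).1 - (csq N (c a')).1 := by
        rw [← k1, ← k2]; ring
      have hkk : (2 : ℤ) ≤ k := by exact_mod_cast hk
      have hN0 : (0 : ℤ) ≤ N := by positivity
      by_contra hne
      rcases lt_or_gt_of_ne hne with h5 | h5
      · have h6 : s' - s ≤ -1 := by omega
        have h7 : (s' - s) * (prd N k : ℤ) ≤ (-1) * (prd N k : ℤ) :=
          mul_le_mul_of_nonneg_right h6 (by rw [hprd]; positivity)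
        rw [hprd] at h7 k5
        omega
      · have h6 : 1 ≤ s' - s := by omega
        have h7 : 1 * (prd N k : ℤ) ≤ (s' - s) * (prd N k : ℤ) :=
          mul_le_mul_of_nonneg_right h6 (by rw [hprd]; positivity)
        rw [hprd] at h7 k5
        omega
    have hbox : ∀ e ∈ sqE r z, e ∈ EP r (Bxs N k) → ∃ b' : ℤ × ℤ, b' ∈ BxS N k s ∧
        inSq r b' (src e) ∧ inSq r b' (tgt e) := by
      rintro e he ⟨b', ⟨s', hb's⟩, heb⟩
      have q1 := mem_sq he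
      have q2 := mem_sq heb
      have q3 := close hr q1.1 q2.1
      have := huniq s' b' hb's q3.1 q3.2
      subst this
      exact ⟨b', hb's, q2.1, q2.2⟩
    have hr' : (1 : ℤ) ≤ r := by exact_mod_cast hr
    obtain ⟨e1, e2, e3⟩ := hA.1 a
    have k1 : z.1 - s * prd N k = (csq N (c a)).1 := congrArg Prod.fst hac
    have k2 : z.2 - s * prd N k = (csq N (c a)).2 := congrArg Prod.snd hac
    have key : ∀ e ∈ sqE r z, e ∉ EP r (Bxs N k) → e ∈ EP r (TubeS N k c L) \ EP r (Bxs N k) :=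
      fun e he hn => ⟨⟨z, hz, he⟩, hn⟩
    unfold csq at k1 k2
    split_ifs at k1 k2 with g0 g1 g2
    · refine bottom hr (fun e he hne => key e he fun hB => hne ?_) hu hv
      obtain ⟨b', hb', p1, p2⟩ := hbox e he hB
      obtain ⟨q1, q2⟩ := mem_sq he
      have w1 : b'.2 - s * prd N k < N := hb'.2.2.2
      have w2 : b'.2 + 1 ≤ z.2 := by simp only at k2; omega
      have w3 : (r : ℤ) * (b'.2 + 1) ≤ r * z.2 := mul_le_mul_of_nonneg_left w2 (by omega)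
      have w4 : (r : ℤ) * (b'.2 + 1) = r * b'.2 + r := by ring
      have := p1.2.2.2
      have := p2.2.2.2
      have := q1.2.2.1
      have := q2.2.2.1
      constructor <;> omega
    · refine left hr (fun e he hne => key e he fun hB => hne ?_) hu hv
      obtain ⟨b', hb', p1, p2⟩ := hbox e he hB
      obtain ⟨q1, q2⟩ := mem_sq he
      have w1 : b'.1 - s * prd N k < N := hb'.2.1
      have w2 : b'.1 + 1 ≤ z.1 := by simp only at k1; omega
      have w3 : (r : ℤ) * (b'.1 + 1) ≤ r * z.1 := mul_le_mul_of_nonneg_left w2 (by omega)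
      have w4 : (r : ℤ) * (b'.1 + 1) = r * b'.1 + r := by ring
      have := p1.2.1
      have := p2.2.1
      have := q1.1
      have := q2.1
      constructor <;> omega
    · refine top hr (fun e he hne => key e he fun hB => hne ?_) hu hv
      obtain ⟨b', hb', p1, p2⟩ := hbox e he hB
      obtain ⟨q1, q2⟩ := mem_sq he
      have w1 : -(N : ℤ) ≤ b'.2 - s * prd N k := hb'.2.2.1
      have w2 : z.2 + 1 ≤ b'.2 := by simp only at k2; omega
      have w3 : (r : ℤ) * (z.2 + 1) ≤ r * b'.2 := mul_le_mul_of_nonneg_left w2 (by omega)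
      have w4 : (r : ℤ) * (z.2 + 1) = r * z.2 + r := by ring
      have := p1.2.2.1
      have := p2.2.2.1
      have := q1.2.2.2
      have := q2.2.2.2
      constructor <;> omega
    · refine right hr (fun e he hne => key e he fun hB => hne ?_) hu hv
      obtain ⟨b', hb', p1, p2⟩ := hbox e he hB
      obtain ⟨q1, q2⟩ := mem_sq he
      have w1 : -(N : ℤ) ≤ b'.1 - s * prd N k := hb'.1
      have w2 : z.1 + 1 ≤ b'.1 := by simp only at k1; omega
      have w3 : (r : ℤ) * (z.1 + 1) ≤ r * b'.1 := mul_le_mul_of_nonneg_left w2 (by omega)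
      have w4 : (r : ℤ) * (z.1 + 1) = r * z.1 + r := by ring
      have := p1.1
      have := p2.1
      have := q1.2.1
      have := q2.2.1
      constructor <;> omega
  · refine full (F := EP r (TubeS N k c L) \ EP r (Bxs N k)) (fun e he => ⟨⟨z, hz, he⟩, ?_⟩) hu hv
    rintro ⟨b, ⟨s, hbs⟩, heb⟩
    have q3 := close hr (mem_sq he).1 (mem_sq heb).1
    exact hb ⟨s, b, hbs, q3.1, q3.2⟩

lemma bk_of_shf {N k : ℕ} {s : ℤ} {z w : ℤ × ℤ} (h : shf N k s z = w) :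
    z = Pool.Agent.H160R2.MU.Tg3.bk N k s w := by
  rw [← h, bk_shf]

end Tk3

/-- the tubes are connected and contain their cells -/
theorem t_k3 (h2 : S_k2) : S_k3 := by
  intro N k c hk hN hA
  refine ⟨?_, ?_⟩
  · intro r L z z' u v hr hz hz' hu hv
    obtain ⟨E, hE⟩ := Tk3.tube hk hA L
    exact Pool.Agent.H160R2.MU.Tg3.K.reach
      (fun w hw x y hx hy => Tk3.inner h2 hk hN hA hr hw hx hy)
      ((hE z hz).trans (hE z' hz').symm) hz u v hu hv
  · intro a s z hz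
    obtain ⟨a, ha⟩ := a
    rw [Tk3.bk_of_shf hz]
    change _ ∈ TubeS N k c (labC k a s)
    unfold labC
    rcases lt_trichotomy (2 * a + 1) k with h | h | h
    · rw [if_pos h]
      have hlab : labT k a s = (a, s) := by unfold labT; rw [if_neg (by omega)]
      exact (Tk3.piece_tube hk hA (by omega) hlab).2.1
    · rw [if_neg (by omega), if_pos h]
      have hlab : labT k a s = (a, 0) := by unfold labT; rw [if_pos h]
      exact (Tk3.piece_tube hk hA (by omega) hlab).2.1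
    · rw [if_neg (by omega), if_neg (by omega)]
      have hlab : labT k (k - 1 - a) (s - 1) = (k - 1 - a, s - 1) := by
        unfold labT; rw [if_neg (by omega)]
      have h3 := (Tk3.piece_tube (c := c) hk hA (by omega) hlab).2.2.1
      have h4 : (⟨k - 1 - (k - 1 - a), by omega⟩ : Fin k) = ⟨a, ha⟩ :=
        Fin.ext (by show k - 1 - (k - 1 - a) = a; omega)
      rw [h4, sub_add_cancel] at h3
      exact h3

end Pool.Agent.W808.KU
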