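import Pool.Agent.W808.KU.Stm

/-!
# The tubes are far from the slits
-/

set_option autoImplicit false

namespace Pool.Agent.W808.KU
open H974 H906.Cyl
open H12S (Dir hbE segD rimE H4 Crs Nr sqE)
open Pool.Agent.H160R2.ML (nm)
open Pool.Agent.H160R2.MU (Cel csq cpos prd shf BxS Bxs EP inSq PC Bad Cc)
open Pool.Agent.W808.HU (sv du labT labC Secc PTr)

namespace Tk5

lemma aux (N k i : ℕ) (C C' : Cel) (v1 v2 P D : ℤ) (hP : P = 4 * (N + 4 * k)) (hk : 2 ≤ k)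
    (hN : k + 4 ≤ N) (hi : 2 * i < k) (hC1 : C.1 < 4) (hC2 : -(N : ℤ) + 6 ≤ C.2)
    (hC3 : C.2 + 7 ≤ N) (hC1' : C'.1 < 4) (hC2' : -(N : ℤ) + 6 ≤ C'.2) (hC3' : C'.2 + 7 ≤ N)
    (x0 y0 x1 y1 : ℤ)
    (hx0 : x0 = if C.1 = 1 then (N : ℤ) else if C.1 = 3 then -ra N i - 1 else C.2)
    (hy0 : y0 = if C.1 = 0 then rb N k i else if C.1 = 1 then C.2 else -ra N i - 1)
    (hx1 : x1 = if C'.1 = 3 then P - rb N k i - 1 else if C'.1 = 2 then P + C'.2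
      else P + ra N i)
    (hy1 : y1 = if C'.1 = 0 then P + ra N i else if C'.1 = 2 then P - N - 1
      else P + C'.2)
    (hv : (C.1 = 0 ∧ v1 = C.2 ∧ N ≤ v2 ∧ v2 ≤ y0) ∨
      (C.1 = 2 ∧ v1 = C.2 ∧ y0 ≤ v2 ∧ v2 ≤ -N - 1) ∨
      (C.1 = 3 ∧ v2 = C.2 ∧ x0 ≤ v1 ∧ v1 ≤ -N - 1) ∨
      (C.1 = 3 ∧ v1 = x0 ∧ y0 ≤ v2 ∧ v2 ≤ C.2) ∨
      (v2 = y0 ∧ x0 ≤ v1 ∧ v1 ≤ x1) ∨
      (v1 = x1 ∧ y0 ≤ v2 ∧ v2 ≤ y1) ∨
      (C'.1 = 1 ∧ v2 = y1 ∧ P + N ≤ v1 ∧ v1 ≤ x1) ∨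
      (C'.1 = 3 ∧ v2 = y1 ∧ x1 ≤ v1 ∧ v1 ≤ P - N - 1) ∨
      (C'.1 = 0 ∧ v2 = y1 ∧ P + C'.2 ≤ v1 ∧ v1 ≤ x1) ∨
      (C'.1 = 0 ∧ v1 = P + C'.2 ∧ P + N ≤ v2 ∧ v2 ≤ y1))
    (hD : D = 0 ∨ D = -P ∨ P ≤ D ∨ D ≤ -2 * P) :
    (N : ℤ) ≤ (v1 + D) - (v2 + D) ∨ (v1 + D) + (v2 + D) ≤ -6 ∨ 5 ≤ (v1 + D) + (v2 + D) := by
  have hra : ra N i = N + 1 + 2 * i := rfl
  have hrb : rb N k i = N + 1 + 2 * ((k : ℤ) - i) := rfl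
  generalize ra N i = r1 at *
  generalize rb N k i = r2 at *
  obtain ⟨a, b⟩ := C
  obtain ⟨a', b'⟩ := C'
  simp only at *
  have ha : a = 0 ∨ a = 1 ∨ a = 2 ∨ a = 3 := by omega
  have ha' : a' = 0 ∨ a' = 1 ∨ a' = 2 ∨ a' = 3 := by omega
  rcases ha with rfl | rfl | rfl | rfl <;> rcases ha' with rfl | rfl | rfl | rfl <;>
    norm_num at hx0 hy0 hx1 hy1 hv <;> subst hx0 hy0 hx1 hy1 <;> omega

end Tk5

theorem t_k5 : S_k5 := by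
  intro N k c hk hN hA z hz s
  obtain ⟨L, i, s', h, hL, hT⟩ := hz
  have hC := hA.1 ⟨i, by omega⟩
  have hC' := hA.1 ⟨k - 1 - i, by omega⟩
  have hP : (prd N k : ℤ) = 4 * (N + 4 * k) := by unfold prd; push_cast; ring
  have hP0 : (0 : ℤ) ≤ prd N k := Int.natCast_nonneg _
  have hD : (s' - s) * (prd N k : ℤ) = 0 ∨ (s' - s) * (prd N k : ℤ) = -(prd N k : ℤ) ∨
      (prd N k : ℤ) ≤ (s' - s) * (prd N k : ℤ) ∨ (s' - s) * (prd N k : ℤ) ≤ -2 * (prd N k : ℤ) := by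
    have h1 : s' - s = 0 ∨ s' - s = -1 ∨ 1 ≤ s' - s ∨ s' - s ≤ -2 := by omega
    rcases h1 with h1 | h1 | h1 | h1
    · left; rw [h1]; ring
    · right; left; rw [h1]; ring
    · right; right; left
      calc (prd N k : ℤ) = 1 * (prd N k : ℤ) := by ring
        _ ≤ _ := mul_le_mul_of_nonneg_right h1 hP0
    · right; right; right
      exact mul_le_mul_of_nonneg_right h1 hP0
  have e1 : (shf N k s z).1 = (shf N k s' z).1 + (s' - s) * (prd N k : ℤ) := by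
    simp only [shf]; ring
  have e2 : (shf N k s z).2 = (shf N k s' z).2 + (s' - s) * (prd N k : ℤ) := by
    simp only [shf]; ring
  rw [e1, e2]
  exact Tk5.aux N k i _ _ _ _ _ _ hP hk hN h hC.1 hC.2.1 hC.2.2 hC'.1 hC'.2.1 hC'.2.2 _ _ _ _
    rfl rfl rfl rfl hT hD

end Pool.Agent.W808.KU
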