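import Pool.Agent.W808.KU.Stm
import Pool.Agent.H160R2.MU.T_DET

/-!
Task DET of project KU: open tubes separate the clusters of the tip vertices (slit plane).
-/

set_option autoImplicit false

namespace Pool.Agent.W808.KU
open H974 H906.Cyl
open H12S (Dir hbE segD rimE H4 Crs Nr sqE)
open Pool.Agent.H160R2.ML (nm)
open Pool.Agent.H160R2.MU (Cel csq cpos prd shf BxS Bxs EP inSq PC Bad Cc)
open Pool.Agent.W808.HU (sv du labT labC)
open Pool.Agent.H160R2.MU.TDET (she shv dco_she src_she tgt_she red_she red_eq red_of_mem csq_out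
  nm_le box_sq sq_near inSq_shift sqE_inSq sqE_shift shf_shf Bxs_shift EP_shift EP_shift_iff box_EP
  shv_sub)

namespace TDET

/-! ### geometry of the tubes -/

theorem Crr_shift {N k : ℕ} {c : Fin k → Cel} {z : ℤ × ℤ} (s : ℤ) (h : z ∈ CrrS N k c) :
    shf N k s z ∈ CrrS N k c := by
  obtain ⟨L, i, t, hi, -, h⟩ := h
  refine ⟨_, i, t - s, hi, rfl, ?_⟩
  rw [shf_shf]; simpa using h

/-! ### the invariant -/

/-- the data -/
structure D (N r k : ℕ) (c : Fin k → Cel) (n M : ℕ) (F : Finset Edg) (G : Set Edg) : Prop where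
  h1 : S_k1
  h2 : S_k2
  h3 : S_k3
  h4 : S_k4
  h5 : S_k5
  hk : 2 ≤ k
  hN : k + 4 ≤ N
  hr : 2 ≤ r
  hkr : k ≤ r
  hc : AdmS N k c
  hn : n = prd N k * r
  hM : M = 4 * n
  hF : F ⊆ CE n M
  hG : G = per n F
  sep : ∀ a b, a ≠ b → ∀ u v : Vtx, inSq r (csq N (c a)) u → nm u = (N * r : ℕ) →
    inSq r (csq N (c b)) v → nm v = (N * r : ℕ) → ¬ Reach (G ∩ sbx k (N * r : ℕ)) u v

variable {N r k : ℕ} {c : Fin k → Cel} {n M : ℕ} {F : Finset Edg} {G : Set Edg}

theorem D.hnr (d : D N r k c n M F G) : (n : ℤ) = 4 * (N * r) + 16 * (k * r) := by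
  rw [d.hn]; unfold prd; push_cast; ring

theorem D.n0 (d : D N r k c n M F G) : 0 < n := by
  have h1 := d.hr
  have h2 := d.hk
  rw [d.hn]; unfold prd
  exact Nat.mul_pos (by omega) (by omega)

theorem D.Nr0 (d : D N r k c n M F G) : (k : ℤ) + 4 ≤ ((N * r : ℕ) : ℤ) := by
  have h1 := d.hr
  have h2 := d.hN
  have : N * 1 ≤ N * r := Nat.mul_le_mul_left _ (by omega)
  have h3 : ((N * 1 : ℕ) : ℤ) ≤ ((N * r : ℕ) : ℤ) := by exact_mod_cast this
  push_cast at h3 ⊢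
  omega

theorem D.n4 (d : D N r k c n M F G) : 4 * ((N * r : ℕ) : ℤ) + 8 * k ≤ n := by
  rw [d.hnr]
  have h1 := d.hr
  have : k * 1 ≤ k * r := Nat.mul_le_mul_left _ (by omega)
  have h3 : ((k * 1 : ℕ) : ℤ) ≤ ((k * r : ℕ) : ℤ) := by exact_mod_cast this
  push_cast at h3 ⊢
  nlinarith

/-- the slits in the box -/
theorem D.Es_box (d : D N r k c n M F G) {e : Edg} (s : ℤ) (h1 : nm (src e) ≤ (N * r : ℕ)) :
    she n s e ∈ Es n k ↔ (0 ≤ dco e ∨ e.1 + e.2.1 + 1 < 0 ∨ (2 * k : ℤ) ≤ e.1 + e.2.1 + 1) := by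
  have h4 := d.n4
  have h5 := d.Nr0
  have h0 := d.n0
  rw [nm_le] at h1
  show 0 ≤ dco (she n s e) ∨ (2 * k : ℤ) ≤ ((she n s e).1 + (she n s e).2.1 + 1) % (2 * n : ℕ) ↔ _
  rw [dco_she]
  obtain ⟨⟨a1, a2⟩, a3, a4⟩ := h1
  have a1' : -((N * r : ℕ) : ℤ) ≤ e.1 := a1
  have a2' : e.1 ≤ ((N * r : ℕ) : ℤ) := a2
  have a3' : -((N * r : ℕ) : ℤ) ≤ e.2.1 := a3
  have a4' : e.2.1 ≤ ((N * r : ℕ) : ℤ) := a4
  have hc : ((she n s e).1 + (she n s e).2.1 + 1) % ((2 * n : ℕ) : ℤ) =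
      (e.1 + e.2.1 + 1) % ((2 * n : ℕ) : ℤ) := by
    have : (she n s e).1 + (she n s e).2.1 + 1 = (e.1 + e.2.1 + 1) + ((2 * n : ℕ) : ℤ) * s := by
      simp only [she]; push_cast; ring
    rw [this, Int.add_mul_emod_self_left]
  rw [hc]
  have b1 : -(2 * ((N * r : ℕ) : ℤ)) ≤ e.1 + e.2.1 + 1 := by omega
  have b2 : e.1 + e.2.1 + 1 ≤ 2 * ((N * r : ℕ) : ℤ) + 1 := by omega
  generalize e.1 + e.2.1 + 1 = x at b1 b2 ⊢
  have key : (2 * k : ℤ) ≤ x % ((2 * n : ℕ) : ℤ) ↔ (x < 0 ∨ (2 * k : ℤ) ≤ x) := by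
    rcases lt_or_ge x 0 with hx | hx
    · have hx2 : x % ((2 * n : ℕ) : ℤ) = x + ((2 * n : ℕ) : ℤ) := by
        rw [← Int.add_emod_right]
        exact Int.emod_eq_of_lt (by push_cast; omega) (by omega)
      rw [hx2]
      push_cast
      constructor
      · intro _; exact Or.inl hx
      · intro _; omega
    · have hx2 : x % ((2 * n : ℕ) : ℤ) = x := Int.emod_eq_of_lt hx (by push_cast; omega)
      rw [hx2]
      constructor
      · intro h; exact Or.inr h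
      · rintro (h | h)
        · omega
        · exact h
  rw [key]

/-- boxes are disjoint -/
theorem D.box_uniq (d : D N r k c n M F G) {v : Vtx} {s s' : ℤ}
    (h : nm (v.1 - s * n, v.2 - s * n) ≤ (N * r : ℕ))
    (h' : nm (v.1 - s' * n, v.2 - s' * n) ≤ (N * r : ℕ)) : s = s' := by
  rw [nm_le] at h h'
  simp only at h h'
  have h4 := d.n4
  have h5 := d.Nr0
  have h6 := d.hk
  by_contra hne
  rcases lt_or_gt_of_ne hne with h7 | h7
  · have h8 : (s' - s) * (n : ℤ) ≥ n := by nlinarith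
    rw [sub_mul] at h8
    omega
  · have h8 : (s - s') * (n : ℤ) ≥ n := by nlinarith
    rw [sub_mul] at h8
    omega

/-- a vertex of a tube in a box is in a cell -/
theorem D.cell (d : D N r k c n M F G) {L : ℕ × ℤ} {z : ℤ × ℤ} {v : Vtx} {s : ℤ}
    (hz : z ∈ TubeS N k c L) (hv : inSq r z v) (h : nm (v.1 - s * n, v.2 - s * n) ≤ (N * r : ℕ)) :
    ∃ a : Fin k, labC k a s = L ∧ inSq r (csq N (c a)) (v.1 - s * n, v.2 - s * n) ∧
      nm (v.1 - s * n, v.2 - s * n) = (N * r : ℕ) := by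
  have hN := d.hN
  have hr := d.hr
  obtain ⟨b, hb, hbv⟩ := box_sq (by omega) (by omega) h
  have hb' : b = shf N k s (shf N k (-s) b) := by rw [shf_shf]; simp [shf]
  have hbv' : inSq r (shf N k (-s) b) v := by
    rw [← inSq_shift d.hn _ _ s, ← hb']; exact hbv
  obtain ⟨h1, h2⟩ := sq_near (by omega) hv hbv'
  have hbs : shf N k (-s) b ∈ BxS N k s := by
    show _ ∧ _
    rw [← hb']
    exact hb
  obtain ⟨a, ha, haz⟩ := d.h2 N k c d.hk d.hN d.hc L s z _ hz hbs h1 h2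
  have h3 : inSq r (csq N (c a)) (v.1 - s * n, v.2 - s * n) := by
    rw [← haz, inSq_shift d.hn]; exact hv
  exact ⟨a, ha, h3, le_antisymm h (csq_out h3)⟩

/-- vertices attached to the tube `L` -/
def TT (N r k : ℕ) (c : Fin k → Cel) (n : ℕ) (G : Set Edg) (L : ℕ × ℤ) (w : Vtx) : Prop :=
  (∃ z ∈ TubeS N k c L, inSq r z w) ∨
  (∃ (s : ℤ) (a : Fin k) (u : Vtx), labC k a s = L ∧ inSq r (csq N (c a)) u ∧
    nm u = (N * r : ℕ) ∧ nm (w.1 - s * n, w.2 - s * n) ≤ (N * r : ℕ) ∧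
    Reach (G ∩ sbx k (N * r : ℕ)) (w.1 - s * n, w.2 - s * n) u)

/-- every member in a box is attached through a cell -/
theorem D.inner (d : D N r k c n M F G) {L : ℕ × ℤ} {w : Vtx} {s : ℤ}
    (h : TT N r k c n G L w) (hs : nm (w.1 - s * n, w.2 - s * n) ≤ (N * r : ℕ)) :
    ∃ (a : Fin k) (u : Vtx), labC k a s = L ∧ inSq r (csq N (c a)) u ∧
      nm u = (N * r : ℕ) ∧ Reach (G ∩ sbx k (N * r : ℕ)) (w.1 - s * n, w.2 - s * n) u := by
  rcases h with ⟨z, hz, hv⟩ | ⟨s', a, u, h1, h2, h3, h4, h5⟩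
  · obtain ⟨a, ha, h1, h2⟩ := d.cell hz hv hs
    exact ⟨a, _, ha, h1, h2, Relation.ReflTransGen.refl⟩
  · have := d.box_uniq hs h4
    subst this
    exact ⟨a, u, h1, h2, h3, h5⟩

/-- members in a closed square of a tube -/
theorem D.tube_lab (d : D N r k c n M F G) {L L' : ℕ × ℤ} {w : Vtx} {z : ℤ × ℤ}
    (h : TT N r k c n G L w) (hz : z ∈ TubeS N k c L') (hv : inSq r z w) : L = L' := by
  have hr := d.hr
  have hN := d.hN
  rcases h with ⟨z', hz', hv'⟩ | ⟨s, a, u, h1, h2, h3, h4, h5⟩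
  · obtain ⟨e1, e2⟩ := sq_near (by omega) hv' hv
    exact d.h1 N k c d.hk d.hN d.hc L L' z' z hz' hz e1 e2
  · obtain ⟨b, hb, e1, e2⟩ := d.cell hz hv h4
    by_cases hab : a = b
    · rw [← h1, ← hb, hab]
    · exfalso
      exact d.sep a b hab u _ h2 h3 e1 e2 (Reach.symm h5)

/-- one direction of the invariance along edges -/
theorem D.step (d : D N r k c n M F G) {L : ℕ × ℤ} {e : Edg} {v w : Vtx} (h0 : e ∈ Es n k)
    (he : (e ∈ EP r (Bxs N k) ∧ e ∈ G) ∨ (e ∉ EP r (Bxs N k) ∧ e ∈ EP r (CrrS N k c)))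
    (hvw : (v = src e ∧ w = tgt e) ∨ (v = tgt e ∧ w = src e))
    (h : TT N r k c n G L v) : TT N r k c n G L w := by
  rcases he with ⟨⟨z, ⟨s, hz⟩, hez⟩, heG⟩ | ⟨_, z, ⟨L', hz⟩, hez⟩
  · obtain ⟨h1, h2⟩ := sqE_inSq hez
    have hbox : ∀ u : Vtx, inSq r z u → nm (u.1 - s * n, u.2 - s * n) ≤ (N * r : ℕ) := by
      intro u hu
      rw [← inSq_shift d.hn z u s] at hu
      have hz' : -(N : ℤ) ≤ (shf N k s z).1 ∧ (shf N k s z).1 < N ∧
        -(N : ℤ) ≤ (shf N k s z).2 ∧ (shf N k s z).2 < N := hz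
      generalize shf N k s z = b at hu hz'
      obtain ⟨a1, a2, a3, a4⟩ := hu
      rw [nm_le]
      have hr' : (0 : ℤ) < r := by have := d.hr; omega
      push_cast
      simp only at a1 a2 a3 a4 ⊢
      refine ⟨⟨?_, ?_⟩, ?_, ?_⟩ <;> nlinarith
    have hv : inSq r z v := by rcases hvw with ⟨h, -⟩ | ⟨h, -⟩ <;> rw [h] <;> assumption
    have hw : inSq r z w := by rcases hvw with ⟨-, h⟩ | ⟨-, h⟩ <;> rw [h] <;> assumption
    obtain ⟨a, u, g1, g2, g3, g4⟩ := d.inner h (hbox v hv)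
    refine Or.inr ⟨s, a, u, g1, g2, g3, hbox w hw, ?_⟩
    have heG' : she n (-s) e ∈ G := by
      rw [d.hG] at heG ⊢
      show red n _ ∈ F
      rw [red_she d.n0]
      exact heG
    have hsrc : src (she n (-s) e) = ((src e).1 - s * n, (src e).2 - s * n) := by
      rw [src_she]; simp only [shv, Prod.mk.injEq]; constructor <;> ring
    have htgt : tgt (she n (-s) e) = ((tgt e).1 - s * n, (tgt e).2 - s * n) := by
      rw [tgt_she]; simp only [shv, Prod.mk.injEq]; constructor <;> ring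
    have hmem : she n (-s) e ∈ G ∩ sbx k (N * r : ℕ) := by
      refine ⟨heG', ?_, ?_, ?_⟩
      · rw [← d.Es_box s (by rw [hsrc]; exact hbox _ h1)]
        have : she n s (she n (-s) e) = e := by
          obtain ⟨x, y, b⟩ := e
          simp only [she, Prod.mk.injEq, and_true]
          constructor <;> ring
        rw [this]; exact h0
      · rw [hsrc]; exact hbox _ h1
      · rw [htgt]; exact hbox _ h2
    have hl : Reach (G ∩ sbx k (N * r : ℕ)) (w.1 - s * n, w.2 - s * n) (v.1 - s * n, v.2 - s * n) := by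
      refine Relation.ReflTransGen.single ⟨she n (-s) e, hmem, ?_⟩
      rw [hsrc, htgt]
      rcases hvw with ⟨ha, hb⟩ | ⟨ha, hb⟩
      · right; rw [ha, hb]; exact ⟨rfl, rfl⟩
      · left; rw [ha, hb]; exact ⟨rfl, rfl⟩
    exact hl.trans g4
  · obtain ⟨h1, h2⟩ := sqE_inSq hez
    have hv : inSq r z v := by rcases hvw with ⟨h, -⟩ | ⟨h, -⟩ <;> rw [h] <;> assumption
    have hw : inSq r z w := by rcases hvw with ⟨-, h⟩ | ⟨-, h⟩ <;> rw [h] <;> assumption
    have := d.tube_lab h hz hv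
    subst this
    exact Or.inl ⟨z, hz, hw⟩

theorem D.Bper : ∀ z ∈ Bxs N k, ∀ s, shf N k s z ∈ Bxs N k := fun _ h s => Bxs_shift s h
theorem D.Cper : ∀ z ∈ CrrS N k c, ∀ s, shf N k s z ∈ CrrS N k c := fun _ h s => Crr_shift s h

theorem mem_FA {e : Edg} : e ∈ FA N r k c n M F ↔ e ∈ CE n M ∧
    ((e ∈ EP r (Bxs N k) ∧ e ∈ F) ∨ (e ∉ EP r (Bxs N k) ∧ e ∈ EP r (CrrS N k c))) := by
  classical
  unfold FA
  simp only [Finset.mem_filter]

/-- the edges of the periodic configuration -/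
theorem D.mem (d : D N r k c n M F G) {e : Edg} : e ∈ per n (FA N r k c n M F) ↔
    red n e ∈ CE n M ∧ ((e ∈ EP r (Bxs N k) ∧ e ∈ G) ∨
      (e ∉ EP r (Bxs N k) ∧ e ∈ EP r (CrrS N k c))) := by
  show red n e ∈ FA N r k c n M F ↔ _
  rw [mem_FA]
  have h3 := red_eq n e
  set q := -((e.1 + e.2.1) / (2 * (n : ℤ)))
  have h4 : e ∈ G ↔ red n e ∈ F := by rw [d.hG]; rfl
  rw [h4]
  rw [show (red n e ∈ EP r (Bxs N k) ↔ e ∈ EP r (Bxs N k)) by
    rw [h3, EP_shift_iff d.hn D.Bper], show (red n e ∈ EP r (CrrS N k c) ↔ e ∈ EP r (CrrS N k c)) by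
    rw [h3, EP_shift_iff d.hn D.Cper]]

/-- the invariant is invariant -/
theorem D.inv (d : D N r k c n M F G) (L : ℕ × ℤ) {x y : Vtx}
    (h : Reach (per n (FA N r k c n M F) ∩ Es n k) x y) :
    TT N r k c n G L x → TT N r k c n G L y := by
  intro hx
  induction h with
  | refl => exact hx
  | tail _ hs ih =>
    obtain ⟨e, ⟨he, h0⟩, hvw⟩ := hs
    refine d.step (e := e) h0 ((d.mem.1 he).2) ?_ ih
    rcases hvw with ⟨h1, h2⟩ | ⟨h1, h2⟩
    · left; exact ⟨h1.symm, h2.symm⟩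
    · right; exact ⟨h2.symm, h1.symm⟩

/-! ### building connections -/

/-- connections of the box lift -/
theorem D.box_R (d : D N r k c n M F G) (s : ℤ) {w w' : Vtx}
    (h : Reach (G ∩ sbx k (N * r : ℕ)) w w') :
    Reach (per n (FA N r k c n M F) ∩ Es n k) (shv n s w) (shv n s w') := by
  induction h with
  | refl => exact Relation.ReflTransGen.refl
  | tail _ hs ih =>
    refine ih.tail ?_
    obtain ⟨e, ⟨he, h0, h1, h2⟩, hvw⟩ := hs
    refine ⟨she n s e, ⟨?_, ?_⟩, ?_⟩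
    · rw [d.mem]
      refine ⟨?_, Or.inl ⟨?_, ?_⟩⟩
      · rw [red_she d.n0]
        have h4 := d.n4
        have h5 := d.hM
        have h6 := d.Nr0
        rw [nm_le] at h1
        clear h0
        obtain ⟨x, y, _ | _⟩ := e
        · simp only [src_mk] at h1
          exact red_mem d.n0 (by simp only [dco, Bool.false_eq_true, if_false]; omega)
            (by simp only [dco, Bool.false_eq_true, if_false]; omega)
        · simp only [src_mk] at h1
          exact red_mem d.n0 (by simp only [dco, if_true]; omega)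
            (by simp only [dco, if_true]; omega)
      · rw [EP_shift_iff d.hn D.Bper]
        have h7 := d.hN
        have h8 := d.hr
        exact box_EP (by omega) (by omega) h1 h2
      · rw [d.hG] at he ⊢
        show red n _ ∈ F
        rw [red_she d.n0]
        exact he
    · exact (d.Es_box s h1).2 h0
    · rw [src_she, tgt_she]
      rcases hvw with ⟨h1, h2⟩ | ⟨h1, h2⟩
      · left; rw [h1, h2]; exact ⟨rfl, rfl⟩
      · right; rw [h1, h2]; exact ⟨rfl, rfl⟩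

/-- extent of the tubes -/
theorem D.ext (d : D N r k c n M F G) {z : ℤ × ℤ} {e : Edg} (hz : z ∈ CrrS N k c)
    (hez : e ∈ sqE r z) : -(M : ℤ) ≤ dco e ∧ dco e < M := by
  have hx := (d.h4 N k c d.hk d.hN d.hc _ rfl).2.2.2 z (Or.inr hz)
  rw [abs_le] at hx
  obtain ⟨x1, x2⟩ := hx
  obtain ⟨h1, h2⟩ := sqE_inSq hez
  have hr' : (2 : ℤ) ≤ r := by exact_mod_cast d.hr
  have hp : (n : ℤ) = prd N k * r := by rw [d.hn]; push_cast; ring
  have hN' := d.hnr
  have b2 : (r : ℤ) * z.1 - r * z.2 ≤ n + 4 * (N * r) := by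
    rw [hp]; nlinarith
  have b1 : -((n : ℤ) + 4 * (N * r)) ≤ (r : ℤ) * z.1 - r * z.2 := by
    rw [hp]; nlinarith
  have hk' : (0 : ℤ) ≤ k * r := by positivity
  have hN4 : (4 : ℤ) ≤ N := by have := d.hN; omega
  have b3 : (4 : ℤ) * r ≤ N * r := by nlinarith
  have hM := d.hM
  obtain ⟨a1, a2, a3, a4⟩ := h1
  obtain ⟨x, y, _ | _⟩ := e
  · simp only [src_mk, dco, Bool.false_eq_true, if_false] at *; omega
  · simp only [src_mk, dco, if_true] at *; omega

/-- the tubes avoid the slits -/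
theorem D.tube_Es (d : D N r k c n M F G) {z : ℤ × ℤ} {e : Edg} (hz : z ∈ CrrS N k c)
    (hez : e ∈ sqE r z) : e ∈ Es n k := by
  have h0 := d.n0
  set s : ℤ := (e.1 + e.2.1 + 1) / ((2 * n : ℕ) : ℤ) with hs
  have m1 := Int.emod_nonneg (e.1 + e.2.1 + 1) (show ((2 * n : ℕ) : ℤ) ≠ 0 by omega)
  have m2 := Int.mul_ediv_add_emod (e.1 + e.2.1 + 1) ((2 * n : ℕ) : ℤ)
  rw [← hs] at m2
  have hr' : (2 : ℤ) ≤ r := by exact_mod_cast d.hr
  have hkr : (k : ℤ) ≤ r := by exact_mod_cast d.hkr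
  have hN4 : (4 : ℤ) ≤ N := by have := d.hN; omega
  obtain ⟨g1, -⟩ := sqE_inSq hez
  rw [← inSq_shift d.hn z _ s] at g1
  have hx := d.h5 N k c d.hk d.hN d.hc z hz s
  generalize shf N k s z = w at g1 hx
  obtain ⟨a1, a2, a3, a4⟩ := g1
  have a1' : (r : ℤ) * w.1 ≤ e.1 - s * n := a1
  have a2' : e.1 - s * n ≤ (r : ℤ) * w.1 + r := a2
  have a3' : (r : ℤ) * w.2 ≤ e.2.1 - s * n := a3
  have a4' : e.2.1 - s * n ≤ (r : ℤ) * w.2 + r := a4
  have m3 : ((2 * n : ℕ) : ℤ) * s = 2 * (s * n) := by push_cast; ring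
  rcases hx with hx | hx | hx
  · left
    have : (r : ℤ) * 4 ≤ r * w.1 - r * w.2 := by nlinarith
    obtain ⟨x, y, _ | _⟩ := e
    · simp only [dco, Bool.false_eq_true, if_false] at *; omega
    · simp only [dco, if_true] at *; omega
  · exfalso
    have : (r : ℤ) * w.1 + r * w.2 ≤ -(6 * r) := by nlinarith
    omega
  · right
    have : (5 : ℤ) * r ≤ (r : ℤ) * w.1 + r * w.2 := by nlinarith
    show (2 * k : ℤ) ≤ (e.1 + e.2.1 + 1) % ((2 * n : ℕ) : ℤ)
    omega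

/-- connections of a tube -/
theorem D.tube_R (d : D N r k c n M F G) {L : ℕ × ℤ} {u v : Vtx}
    (h : Reach (EP r (TubeS N k c L) \ EP r (Bxs N k)) u v) :
    Reach (per n (FA N r k c n M F) ∩ Es n k) u v := by
  induction h with
  | refl => exact Relation.ReflTransGen.refl
  | tail _ hs ih =>
    refine ih.tail ?_
    obtain ⟨e, ⟨⟨z, hz, hez⟩, heB⟩, he⟩ := hs
    have hzC : z ∈ CrrS N k c := ⟨L, hz⟩
    have hdc := d.ext hzC hez
    refine ⟨e, ⟨?_, d.tube_Es hzC hez⟩, he⟩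
    rw [d.mem]
    exact ⟨red_mem d.n0 hdc.1 hdc.2, Or.inr ⟨heB, z, hzC, hez⟩⟩

theorem sv_shv (n : ℕ) (s : ℤ) (i : ℕ) : sv n s i = shv n s (sv 0 0 i) := by
  simp only [sv, shv, Prod.mk.injEq]
  constructor <;> ring

theorem sv_nm {k i : ℕ} (hi : i < k) : nm (sv 0 0 i) < k := by
  unfold sv nm
  simp only [max_self]
  rw [abs_of_nonneg (by positivity)]
  omega

theorem lab_inj {k : ℕ} {a b : Fin k} {s : ℤ} (h : labC k a s = labC k b s) : a = b := by
  have ha := a.2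
  have hb := b.2
  unfold labC at h
  apply Fin.ext
  split_ifs at h <;> simp only [Prod.mk.injEq] at h <;> omega

theorem partner {k : ℕ} (a : Fin k) : ∃ s : ℤ, s ≠ 0 ∧ ∃ b : Fin k, labC k b s = labC k a 0 := by
  have ha := a.2
  unfold labC
  rcases lt_trichotomy (2 * a.1 + 1) k with h | h | h
  · refine ⟨1, by omega, ⟨k - 1 - a, by omega⟩, ?_⟩
    simp only
    rw [if_neg (by omega), if_neg (by omega), if_pos h]
    simp only [Prod.mk.injEq]
    omega
  · refine ⟨1, by omega, a, ?_⟩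
    rw [if_neg (by omega), if_pos h, if_neg (by omega), if_pos h]
  · refine ⟨-1, by omega, ⟨k - 1 - a, by omega⟩, ?_⟩
    simp only
    rw [if_pos (by omega), if_neg (by omega), if_neg (by omega)]
    simp

end TDET

open TDET

theorem t_DET : S_k1 → S_k2 → S_k3 → S_k4 → S_k5 → S_DET := by
  intro g1 g2 g3 g4 g5 N r k c hk hN hr hkr hc n M hn hM F hF hL
  obtain ⟨⟨π, hinj, hπ⟩, hsep⟩ := hL
  have d : D N r k c n M F (per n F) :=
    { h1 := g1, h2 := g2, h3 := g3, h4 := g4, h5 := g5, hk := hk, hN := hN, hr := hr, hkr := hkr,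
      hc := hc, hn := hn, hM := hM,
      hF := hF, hG := rfl, sep := hsep }
  have h4 := d.n4
  have h5 := d.Nr0
  have hsur : ∀ i, i < k → ∃ a, π a = i := by
    intro i hi
    let f : Fin k → Fin k := fun a => ⟨π a, (hπ a).1⟩
    have hf : Function.Injective f := by
      intro a b hab
      exact hinj (congrArg Fin.val hab)
    obtain ⟨a, ha⟩ := (Finite.injective_iff_surjective.1 hf) ⟨i, hi⟩
    exact ⟨a, congrArg Fin.val ha⟩
  have hsn : ∀ (s : ℤ) (i : ℕ), i < k →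
      nm ((sv n s i).1 - s * n, (sv n s i).2 - s * n) ≤ (N * r : ℕ) := by
    intro s i hi
    rw [sv_shv, shv_sub]
    have := sv_nm hi
    omega
  have hSL : ∀ (a : Fin k) (s : ℤ), TT N r k c n (per n F) (labC k a s) (sv n s (π a)) := by
    intro a s
    obtain ⟨h1, v, h6, h7, h8⟩ := hπ a
    refine Or.inr ⟨s, a, v, rfl, h6, h7, hsn s _ h1, ?_⟩
    rw [sv_shv, shv_sub]
    exact h8
  have hdis : ∀ (a b : Fin k) (s : ℤ),
      TT N r k c n (per n F) (labC k a s) (sv n s (π b)) → a = b := by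
    intro a b s h
    obtain ⟨h1, v, h6, h7, h8⟩ := hπ b
    obtain ⟨a', u, g1', g2', g3', g4'⟩ := d.inner (s := s) h (hsn s _ h1)
    have := lab_inj g1'
    subst this
    by_contra hab
    refine hsep a' b hab u v g2' g3' h6 h7 ?_
    rw [sv_shv, shv_sub] at g4'
    exact (Reach.symm g4').trans h8
  constructor
  · intro i j hi hj hij hR
    obtain ⟨a, rfl⟩ := hsur i hi
    obtain ⟨b, rfl⟩ := hsur j hj
    have := d.inv (labC k a 0) hR (hSL a 0)
    exact hij (congrArg π (hdis a b 0 this))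
  · intro i hi
    obtain ⟨a, rfl⟩ := hsur i hi
    obtain ⟨s, hs, b, hab⟩ := partner a
    refine ⟨s, hs, π b, (hπ b).1, ?_⟩
    obtain ⟨h1, v, h6, h7, h8⟩ := hπ a
    obtain ⟨k1, w, k6, k7, k8⟩ := hπ b
    rw [sv_shv n 0, sv_shv n s]
    refine (d.box_R 0 h8).trans ?_
    refine Relation.ReflTransGen.trans ?_ (Reach.symm (d.box_R s k8))
    have hz1 : shf N k 0 (shf N k 0 (csq N (c a))) = csq N (c a) := by
      rw [shf_shf]; simp [shf]
    have hz2 : shf N k s (shf N k (-s) (csq N (c b))) = csq N (c b) := by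
      rw [shf_shf]; simp [shf]
    obtain ⟨g31, g32⟩ := g3 N k c hk hN hc
    have t1 := g32 a 0 _ hz1
    have t2 := g32 b s _ hz2
    rw [hab] at t2
    refine d.tube_R (g31 r (labC k a 0) _ _ _ _ (by omega) t1 t2 ?_ ?_)
    · rw [← inSq_shift hn _ _ 0, hz1, shv_sub]; exact h6
    · rw [← inSq_shift hn _ _ s, hz2, shv_sub]; exact k6

end Pool.Agent.W808.KU
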