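import Pool.Agent.W808.KU.T_MON
import Pool.Agent.W808.KS.T_Bc

/-!
# CMP: comparison of the leg event of the slit plane with the arm event of the box of the slit plane
-/

set_option autoImplicit false

namespace Pool.Agent.W808.KU
open H974 H906.Cyl
open Pool.Agent.H160R2.ML (nm)
open Pool.Agent.H160R2.MU.TMON (nm_le_iff nm_tgt_le nm_src_le mem_box box_mono)
open Pool.Agent.W808.HU (sv du)
open Pool.Agent.W808.KS (BS SArm coinsZ)
open MeasureTheory

namespace TCMP

/-- the square of the edge `e` -/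
def sq (e : Edg) : ℤ × ℤ := (e.1 + e.2.1 + 1, dco e)

/-- the open edges -/
def GO (ω : ℤ × ℤ → Bool) : Set Edg := {e | ω (sq e) = !e.2.2}

/-- the point of a vertex -/
def pt (v : Vtx) : ℤ × ℤ := (v.1 + v.2 + 1, v.1 - v.2)

theorem edge_BS {k R R' : ℕ} (hR : 2 * R' + 1 ≤ R) {ω : ℤ × ℤ → Bool} {e : Edg}
    (he : e ∈ GO ω ∩ sbx k (R' : ℤ)) :
    BS (2 * k) R ω (pt (src e)) (pt (tgt e)) ∨ BS (2 * k) R ω (pt (tgt e)) (pt (src e)) := by
  obtain ⟨h1, h2, h3, h4⟩ := he
  rw [nm_le_iff] at h3 h4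
  have hR' : (2 * R' + 1 : ℤ) ≤ R := by exact_mod_cast hR
  obtain ⟨x, y, b⟩ := e
  cases b
  · right
    have e1 : pt (tgt (x, y, false)) = ((x + y + 1) + 1, (x - y - 1)) := by
      simp only [pt, tgt_false, Prod.mk.injEq]
      omega
    have h2' : 0 ≤ x - y - 1 ∨ x + y + 1 < 0 ∨ (2 * k : ℤ) ≤ x + y + 1 := h2
    have e2 : pt (src (x, y, false)) = ((x + y + 1), (x - y - 1) + 1) := by
      simp only [pt, src_mk, Prod.mk.injEq, true_and]
      omega
    rw [e1, e2]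
    simp only [src_mk, tgt_false] at h3 h4
    exact BS.fall _ _ (by push_cast; exact h2') h1 (by omega) (by omega) (by omega) (by omega)
  · left
    have h2' : 0 ≤ x - y ∨ x + y + 1 < 0 ∨ (2 * k : ℤ) ≤ x + y + 1 := h2
    have e1 : pt (src (x, y, true)) = ((x + y + 1), (x - y)) := rfl
    have e2 : pt (tgt (x, y, true)) = ((x + y + 1) + 1, (x - y) + 1) := by
      simp only [pt, tgt_true, Prod.mk.injEq]
      omega
    rw [e1, e2]
    simp only [src_mk, tgt_true] at h3 h4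
    exact BS.rise _ _ (by push_cast; exact h2') h1 (by omega) (by omega) (by omega) (by omega)

theorem reach_BS {k R R' : ℕ} (hR : 2 * R' + 1 ≤ R) {ω : ℤ × ℤ → Bool} {u v : Vtx}
    (h : Reach (GO ω ∩ sbx k (R' : ℤ)) u v) :
    Relation.EqvGen (BS (2 * k) R ω) (pt u) (pt v) := by
  induction h with
  | refl => exact Relation.EqvGen.refl _
  | tail _ hs ih =>
    refine Relation.EqvGen.trans _ _ _ ih ?_
    obtain ⟨e, he, h1⟩ := hs
    have h2 : Relation.EqvGen (BS (2 * k) R ω) (pt (src e)) (pt (tgt e)) := by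
      rcases edge_BS (k := k) hR he with h | h
      · exact Relation.EqvGen.rel _ _ h
      · exact Relation.EqvGen.symm _ _ (Relation.EqvGen.rel _ _ h)
    rcases h1 with ⟨rfl, rfl⟩ | ⟨rfl, rfl⟩
    · exact h2
    · exact Relation.EqvGen.symm _ _ h2

theorem pt_sv (i : ℕ) : pt (sv 0 0 i) = (((2 * i + 1 : ℕ) : ℤ), 0) := by
  rw [TMON.sv0]
  simp only [pt, Prod.mk.injEq]
  push_cast
  constructor
  · ring
  · omega

/-- odd points are points of vertices; a `BS` link between odd points is an open edge -/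
theorem BS_edge {k R : ℕ} {ω : ℤ × ℤ → Bool} {a b : ℤ × ℤ} (h : BS (2 * k) R ω a b) :
    ((∃ u : Vtx, pt u = a) ↔ (∃ u : Vtx, pt u = b)) ∧
    ∀ u v : Vtx, pt u = a → pt v = b → Adj (GO ω ∩ TMON.Hz k) u v := by
  cases h with
  | rise j t h0 h1 _ _ _ _ =>
    refine ⟨⟨?_, ?_⟩, ?_⟩
    · rintro ⟨⟨x, y⟩, h⟩
      simp only [pt, Prod.mk.injEq] at h
      refine ⟨(x + 1, y), ?_⟩
      simp only [pt, Prod.mk.injEq]
      omega
    · rintro ⟨⟨x, y⟩, h⟩
      simp only [pt, Prod.mk.injEq] at h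
      refine ⟨(x - 1, y), ?_⟩
      simp only [pt, Prod.mk.injEq]
      omega
    · rintro ⟨x, y⟩ ⟨x', y'⟩ h2 h3
      simp only [pt, Prod.mk.injEq] at h2 h3
      refine ⟨(x, y, true), ⟨?_, ?_⟩, Or.inl ⟨rfl, ?_⟩⟩
      · have : sq (x, y, true) = (j, t) := by
          simp only [sq, dco, if_true, Prod.mk.injEq]
          omega
        show ω (sq (x, y, true)) = !true
        rw [this, h1]
        rfl
      · show 0 ≤ dco (x, y, true) ∨ x + y + 1 < 0 ∨ (2 * k : ℤ) ≤ x + y + 1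
        simp only [dco, if_true]
        push_cast at h0
        omega
      · simp only [tgt_true, Prod.mk.injEq]
        omega
  | fall j t h0 h1 _ _ _ _ =>
    refine ⟨⟨?_, ?_⟩, ?_⟩
    · rintro ⟨⟨x, y⟩, h⟩
      simp only [pt, Prod.mk.injEq] at h
      refine ⟨(x, y - 1), ?_⟩
      simp only [pt, Prod.mk.injEq]
      omega
    · rintro ⟨⟨x, y⟩, h⟩
      simp only [pt, Prod.mk.injEq] at h
      refine ⟨(x, y + 1), ?_⟩
      simp only [pt, Prod.mk.injEq]
      omega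
    · rintro ⟨x, y⟩ ⟨x', y'⟩ h2 h3
      simp only [pt, Prod.mk.injEq] at h2 h3
      refine ⟨(x', y', false), ⟨?_, ?_⟩, Or.inr ⟨rfl, ?_⟩⟩
      · have : sq (x', y', false) = (j, t) := by
          simp only [sq, dco, Bool.false_eq_true, if_false, Prod.mk.injEq]
          omega
        show ω (sq (x', y', false)) = !false
        rw [this, h1]
        rfl
      · show 0 ≤ dco (x', y', false) ∨ x' + y' + 1 < 0 ∨ (2 * k : ℤ) ≤ x' + y' + 1
        simp only [dco, Bool.false_eq_true, if_false]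
        push_cast at h0
        omega
      · simp only [tgt_false, Prod.mk.injEq]
        omega
  | wallL i _ =>
    refine ⟨⟨?_, ?_⟩, ?_⟩
    · rintro ⟨⟨x, y⟩, h⟩
      simp only [pt, Prod.mk.injEq] at h
      omega
    · rintro ⟨⟨x, y⟩, h⟩
      simp only [pt, Prod.mk.injEq] at h
      omega
    · rintro ⟨x, y⟩ ⟨x', y'⟩ h2 h3
      simp only [pt, Prod.mk.injEq] at h2 h3
      omega
  | wallR i _ =>
    refine ⟨⟨?_, ?_⟩, ?_⟩
    · rintro ⟨⟨x, y⟩, h⟩
      simp only [pt, Prod.mk.injEq] at h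
      push_cast at h
      omega
    · rintro ⟨⟨x, y⟩, h⟩
      simp only [pt, Prod.mk.injEq] at h
      push_cast at h
      omega
    · rintro ⟨x, y⟩ ⟨x', y'⟩ h2 h3
      simp only [pt, Prod.mk.injEq] at h2 h3
      push_cast at h2 h3
      omega

/-- a path from a vertex of the tip to the boundary of the large box leaves the small box -/
theorem arm {k i R R' : ℕ} (hi : i < k) (hk : k ≤ R') (hR : 2 * R' + 1 ≤ R)
    {ω : ℤ × ℤ → Bool} {y : ℤ × ℤ} (hy : |y.1| = R ∨ |y.2| = R)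
    (h : Relation.EqvGen (BS (2 * k) R ω) (((2 * i + 1 : ℕ) : ℤ), 0) y) :
    ∃ z : Vtx, nm z = R' ∧ Reach (GO ω ∩ sbx k (R' : ℤ)) (sv 0 0 i) z := by
  by_contra h0
  have h1 : ∀ z : Vtx, nm z = R' → ¬ Reach (GO ω ∩ sbx k (R' : ℤ)) (sv 0 0 i) z :=
    fun z hz hc => h0 ⟨z, hz, hc⟩
  have hsub : (GO ω ∩ TMON.Hz k) ∩ sbx k (R' : ℤ) ⊆ GO ω ∩ sbx k (R' : ℤ) :=
    fun e he => ⟨he.1.1, he.2⟩
  set Q : ℤ × ℤ → Prop := fun a => ∃ u : Vtx, pt u = a ∧ nm u < R' ∧
    Reach (GO ω ∩ sbx k (R' : ℤ)) (sv 0 0 i) u with hQ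
  have step : ∀ u v : Vtx, nm u < R' → Reach (GO ω ∩ sbx k (R' : ℤ)) (sv 0 0 i) u →
      Adj (GO ω ∩ TMON.Hz k) u v → nm v < R' ∧ Reach (GO ω ∩ sbx k (R' : ℤ)) (sv 0 0 i) v := by
    intro u v hu hr ha
    obtain ⟨h3, h4⟩ := TMON.adj_sbx (G := GO ω ∩ TMON.Hz k) (fun e he => he.2) ha hu
    have h5 : Reach (GO ω ∩ sbx k (R' : ℤ)) (sv 0 0 i) v := hr.trans (Reach.mono hsub h3.reach)
    exact ⟨lt_of_le_of_ne h4 fun h6 => h1 v h6 h5, h5⟩
  have key : ∀ a b, Relation.EqvGen (BS (2 * k) R ω) a b → (Q a ↔ Q b) := by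
    intro a b hab
    induction hab with
    | rel a b hab =>
      obtain ⟨h2, h3⟩ := BS_edge hab
      constructor
      · rintro ⟨u, hu2, hu3, hu4⟩
        obtain ⟨v, hv2⟩ := h2.1 ⟨u, hu2⟩
        obtain ⟨h5, h6⟩ := step u v hu3 hu4 (h3 u v hu2 hv2)
        exact ⟨v, hv2, h5, h6⟩
      · rintro ⟨v, hv2, hv3, hv4⟩
        obtain ⟨u, hu2⟩ := h2.2 ⟨v, hv2⟩
        obtain ⟨h5, h6⟩ := step v u hv3 hv4 (h3 u v hu2 hv2).symm
        exact ⟨u, hu2, h5, h6⟩
    | refl a => exact Iff.rfl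
    | symm a b _ ih => exact ih.symm
    | trans a b c _ _ ih1 ih2 => exact ih1.trans ih2
  have h2 : Q (((2 * i + 1 : ℕ) : ℤ), 0) := by
    refine ⟨sv 0 0 i, pt_sv i, ?_, Reach.refl _ _⟩
    have := TMON.sv_nm hi
    have hk' : (k : ℤ) ≤ R' := by exact_mod_cast hk
    omega
  obtain ⟨⟨x, z⟩, hu2, hu3, -⟩ := (key _ _ h).1 h2
  have h3 : nm (x, z) ≤ (R' : ℤ) - 1 := by omega
  rw [nm_le_iff] at h3
  have hR' : (2 * R' + 1 : ℤ) ≤ R := by exact_mod_cast hR
  rw [← hu2] at hy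
  simp only [pt] at hy h3
  rcases hy with hy | hy
  · rcases abs_eq (show (0 : ℤ) ≤ R by omega) |>.1 hy with h5 | h5 <;> omega
  · rcases abs_eq (show (0 : ℤ) ≤ R by omega) |>.1 hy with h5 | h5 <;> omega

theorem event {k R R' : ℕ} (hk : k ≤ R') (hR : 2 * R' + 1 ≤ R) {ω : ℤ × ℤ → Bool}
    (h : SArm (2 * k) R ω) : SEs k (R' : ℤ) (GO ω) := by
  refine ⟨fun i j hi hj hij hc => ?_, fun i hi => ?_⟩
  · have h1 := reach_BS (k := k) hR hc
    rw [pt_sv, pt_sv] at h1
    exact h.1 (2 * i + 1) (2 * j + 1) (by omega) (by omega) (by omega) (by omega) h1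
  · obtain ⟨y, hy, hc⟩ := h.2 (2 * i + 1) (by omega) (by omega)
    exact arm hi hk hR hy hc

theorem sq_inj : Function.Injective sq := by
  rintro ⟨x, y, b⟩ ⟨x', y', b'⟩ h
  cases b <;> cases b' <;>
    simp only [sq, dco, Bool.false_eq_true, if_false, if_true, Prod.mk.injEq, and_true, and_false,
      reduceCtorEq] at h ⊢ <;> omega

open Classical in
/-- the law of the open edges -/
theorem law (S : Finset Edg) (A : Finset Edg → Prop) :
    coinsZ.real {ω | A (S.filter fun e => e ∈ GO ω)} = Pr (fun _ => (1 / 2 : ℝ)) S A := by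
  have hc : Function.Injective (fun e : {x // x ∈ S} => sq e.1) := fun e e' h =>
    Subtype.ext (sq_inj h)
  set P : ({x // x ∈ S} → Bool) → Prop := fun v =>
    A (S.filter fun e => ∃ h : e ∈ S, v ⟨e, h⟩ = !e.2.2) with hP
  have e1 : {ω : ℤ × ℤ → Bool | A (S.filter fun e => e ∈ GO ω)} =
      {ω | P (fun e => ω (sq e.1))} := by
    ext ω
    simp only [Set.mem_ofPred_eq, hP]
    have : (S.filter fun e => e ∈ GO ω) =
        S.filter fun e => ∃ _h : e ∈ S, ω (sq e) = !e.2.2 := by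
      refine Finset.filter_congr fun e he => ?_
      exact ⟨fun h => ⟨he, h⟩, fun h => h.2⟩
    rw [this]
  rw [e1, KS.TBc.split _ hc P, Pr_half, Fintype.card_coe, Finset.mul_sum]
  symm
  refine Finset.sum_bij' (i := fun (F : Finset Edg) _ => fun e : {x // x ∈ S} =>
      (if e.1 ∈ F then !e.1.2.2 else e.1.2.2))
    (j := fun (v : {x // x ∈ S} → Bool) _ => S.filter fun e => ∃ h : e ∈ S, v ⟨e, h⟩ = !e.2.2)
    ?_ ?_ ?_ ?_ ?_
  · intro F _
    exact @Finset.mem_univ _ (_) _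
  · intro v _
    exact Finset.mem_powerset.2 (Finset.filter_subset _ _)
  · intro F hF
    have hF' := Finset.mem_powerset.1 hF
    ext e
    simp only [Finset.mem_filter]
    constructor
    · rintro ⟨he, _, h⟩
      by_contra h2
      rw [if_neg h2] at h
      cases hb : e.2.2 <;> rw [hb] at h <;> simp at h
    · intro he
      exact ⟨hF' he, hF' he, by rw [if_pos he]⟩
  · intro v _
    funext e
    simp only [Finset.mem_filter]
    by_cases h : v e = !e.1.2.2
    · rw [if_pos ⟨e.2, e.2, h⟩, h]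
    · rw [if_neg (fun h2 => h h2.2.2)]
      cases hb : e.1.2.2 <;> rw [hb] at h <;> cases hv : v e <;> rw [hv] at h <;> simp at h ⊢
  · intro F hF
    have hF' := Finset.mem_powerset.1 hF
    have : (S.filter fun e => ∃ h : e ∈ S,
        (fun e : {x // x ∈ S} => (if e.1 ∈ F then !e.1.2.2 else e.1.2.2)) ⟨e, h⟩ = !e.2.2) = F := by
      ext e
      simp only [Finset.mem_filter]
      constructor
      · rintro ⟨he, _, h⟩
        by_contra h2
        rw [if_neg h2] at h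
        cases hb : e.2.2 <;> rw [hb] at h <;> simp at h
      · intro he
        exact ⟨hF' he, hF' he, by rw [if_pos he]⟩
    simp only [hP, this]
    unfold ind
    split_ifs <;> simp

end TCMP

open TCMP in
theorem t_CMP : S_CMP := by
  classical
  intro k R R' hk hkR hR
  unfold sPs
  rw [← law]
  have : IsProbabilityMeasure coinsZ := KS.TBc.coinsZ_prob
  refine measureReal_mono (fun ω hω => ?_) (measure_ne_top _ _)
  have h1 : SEs k (R' : ℤ) (GO ω) := event hkR hR hω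
  refine (TMON.ses_congr fun e he => ?_).1 h1
  rw [Finset.mem_coe, Finset.mem_filter]
  exact ⟨fun h => ⟨TMON.sbx_sub_box he, h⟩, fun h => h.2⟩

end Pool.Agent.W808.KU
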