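import Pool.Agent.W808.KU.Stm
import Pool.Agent.W808.HU.T_DEC

/-!
# DEC: the leg event implies the arm event in a smaller box (slit plane)
-/

set_option autoImplicit false

namespace Pool.Agent.W808.KU
open H974 H906.Cyl
open Pool.Agent.H160R2.ML (nm)
open Pool.Agent.H160R2.MU.TMON (nm_le_iff nm_tgt_le nm_src_le mem_box)
open Pool.Agent.W808.HU (sv)

namespace TDEC

/-- in a small box the slits of the cylinder are the slit of the plane -/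
theorem mem_Es_iff {n k R : ℕ} (hk : 1 ≤ k) (hkR : k ≤ R) (hn : 4 * R ≤ n) {e : Edg}
    (h1 : nm (src e) ≤ (R : ℤ)) :
    e ∈ Es n k ↔ (0 ≤ dco e ∨ e.1 + e.2.1 + 1 < 0 ∨ (2 * k : ℤ) ≤ e.1 + e.2.1 + 1) := by
  have h2 := (nm_le_iff _ _).1 h1
  have h3 : -(R : ℤ) ≤ e.1 ∧ e.1 ≤ R := h2.1
  have h4 : -(R : ℤ) ≤ e.2.1 ∧ e.2.1 ≤ R := h2.2
  obtain ⟨c, hc⟩ : ∃ c : ℤ, c = e.1 + e.2.1 + 1 := ⟨_, rfl⟩
  have h5 : e ∈ Es n k ↔ (0 ≤ dco e ∨ (2 * k : ℤ) ≤ c % (2 * n : ℕ)) := by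
    rw [hc]; rfl
  rw [h5, ← hc]
  refine or_congr Iff.rfl ?_
  have hn' : (4 * R : ℤ) ≤ n := by exact_mod_cast hn
  have hk' : (k : ℤ) ≤ R := by exact_mod_cast hkR
  have hk1 : (1 : ℤ) ≤ k := by exact_mod_cast hk
  rcases lt_or_ge c 0 with h | h
  · have e1 : c % ((2 * n : ℕ) : ℤ) = c + (2 * n : ℕ) := by
      rw [← Int.add_emod_right, Int.emod_eq_of_lt]
      · push_cast; omega
      · push_cast; omega
    rw [e1]
    push_cast
    constructor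
    · intro _; exact Or.inl h
    · intro _; omega
  · have e1 : c % ((2 * n : ℕ) : ℤ) = c := by
      rw [Int.emod_eq_of_lt h]
      push_cast; omega
    rw [e1]
    constructor
    · intro h'; exact Or.inr h'
    · rintro (h' | h')
      · omega
      · exact h'

theorem sbx_sub_box {k R : ℕ} {e : Edg} (he : e ∈ sbx k (R : ℤ)) : e ∈ boxE R :=
  mem_box he.2.1 he.2.2

theorem sbx_sub_Es {n k R : ℕ} (hk : 1 ≤ k) (hkR : k ≤ R) (hn : 4 * R ≤ n) {e : Edg}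
    (he : e ∈ sbx k (R : ℤ)) : e ∈ Es n k := (mem_Es_iff hk hkR hn he.2.1).2 he.1

theorem adj_sbx {n k R : ℕ} (hk : 1 ≤ k) (hkR : k ≤ R) (hn : 4 * R ≤ n) {G : Set Edg}
    (hG : G ⊆ Es n k) {b c : Vtx} (h : Adj G b c) (hb : nm b < (R : ℤ)) :
    Adj (G ∩ sbx k (R : ℤ)) b c ∧ nm c ≤ (R : ℤ) := by
  obtain ⟨e, he, h1⟩ := h
  have h3 := nm_tgt_le e
  have h4 := nm_src_le e
  rcases h1 with ⟨rfl, rfl⟩ | ⟨rfl, rfl⟩
  · exact ⟨⟨e, ⟨he, (mem_Es_iff hk hkR hn (by omega)).1 (hG he), by omega, by omega⟩,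
      Or.inl ⟨rfl, rfl⟩⟩, by omega⟩
  · exact ⟨⟨e, ⟨he, (mem_Es_iff hk hkR hn (by omega)).1 (hG he), by omega, by omega⟩,
      Or.inr ⟨rfl, rfl⟩⟩, by omega⟩

/-- first passage at distance `R` -/
theorem pass {n k R : ℕ} (hk : 1 ≤ k) (hkR : k ≤ R) (hn : 4 * R ≤ n) {G : Set Edg}
    (hG : G ⊆ Es n k) {x y : Vtx} (hx : nm x ≤ (R : ℤ))
    (h : Reach G x y) (hy : (R : ℤ) ≤ nm y) :
    ∃ z : Vtx, nm z = (R : ℤ) ∧ Reach (G ∩ sbx k (R : ℤ)) x z := by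
  have key : (nm y < (R : ℤ) ∧ Reach (G ∩ sbx k (R : ℤ)) x y) ∨
      ∃ z : Vtx, nm z = (R : ℤ) ∧ Reach (G ∩ sbx k (R : ℤ)) x z := by
    clear hy
    induction h with
    | refl =>
      rcases hx.lt_or_eq with h1 | h1
      · exact Or.inl ⟨h1, Reach.refl _ _⟩
      · exact Or.inr ⟨x, h1, Reach.refl _ _⟩
    | tail _ hs ih =>
      rcases ih with ⟨h1, h2⟩ | h1
      · obtain ⟨h3, h4⟩ := adj_sbx hk hkR hn hG hs h1
        have h5 := Reach.trans h2 h3.reach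
        rcases h4.lt_or_eq with h6 | h6
        · exact Or.inl ⟨h6, h5⟩
        · exact Or.inr ⟨_, h6, h5⟩
      · exact Or.inr h1
  rcases key with ⟨h1, _⟩ | h1
  · omega
  · exact h1

end TDEC

open TDEC in
theorem t_DEC : S_DEC := by
  intro n M k R hk hkR hn hM B F hB hF hBF hP
  have h1 : ∀ e ∈ sbx k (R : ℤ), (e ∈ per n B ↔ e ∈ per n F) := fun e he => hBF e (sbx_sub_box he)
  refine ⟨fun i j hi hj hij hc => ?_, fun i hi => ?_⟩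
  · refine hP.1 i j hi hj hij ?_
    rw [HU.TDEC.svn n i, HU.TDEC.svn n j]
    have h2 : per n F ∩ sbx k (R : ℤ) ⊆ per n B ∩ Es n k :=
      fun e he => ⟨(h1 e he.2).2 he.1, sbx_sub_Es hk hkR hn he.2⟩
    exact Reach.mono h2 hc
  · obtain ⟨s, hs, j, hj, hr⟩ := hP.2 i hi
    rw [HU.TDEC.svn] at hr
    have h2 := HU.TMON.sv_nm hi
    obtain ⟨z, hz1, hz2⟩ := pass hk hkR hn (G := per n B ∩ Es n k) (fun e he => he.2) (by omega) hr
      (HU.TDEC.nm_far hkR hn hj hs)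
    have h3 : (per n B ∩ Es n k) ∩ sbx k (R : ℤ) ⊆ per n F ∩ sbx k (R : ℤ) :=
      fun e he => ⟨(h1 e he.2).1 he.1.1, he.2⟩
    exact ⟨z, hz1, Reach.mono h3 hz2⟩

end Pool.Agent.W808.KU
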