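import Pool.Agent.W808.KU.Stm
import Pool.Agent.H160R2.MU.T_DETP

/-!
# Task DETP: transport of the landing event to the cylinder (slit plane version)
-/

set_option autoImplicit false

namespace Pool.Agent.W808.KU
open H974 H906.Cyl
open H12S (Dir hbE segD rimE H4 Crs Nr sqE)
open Pool.Agent.H160R2.ML (nm)
open Pool.Agent.H160R2.MU (Cel csq cpos prd shf BxS Bxs EP inSq PC Bad Cc)
open Pool.Agent.W808.HU (sv du labT labC)
open Pool.Agent.H863R2.Cyl

namespace TDETP

theorem inter_congr {k : ℕ} {R : ℤ} {G G' : Set Edg}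
    (h : ∀ e, nm (src e) ≤ R → nm (tgt e) ≤ R → (e ∈ G ↔ e ∈ G')) : G ∩ sbx k R = G' ∩ sbx k R := by
  ext e
  constructor
  · rintro ⟨h1, h2⟩
    exact ⟨(h e h2.2.1 h2.2.2).1 h1, h2⟩
  · rintro ⟨h1, h2⟩
    exact ⟨(h e h2.2.1 h2.2.2).2 h1, h2⟩

theorem LandS_congr {N r k : ℕ} {c : Fin k → Cel} {G G' : Set Edg}
    (h : ∀ e, nm (src e) ≤ (N * r : ℕ) → nm (tgt e) ≤ (N * r : ℕ) → (e ∈ G ↔ e ∈ G')) :
    LandS N r k c G ↔ LandS N r k c G' := by
  unfold LandS
  rw [inter_congr h]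

end TDETP

theorem t_DETP : S_DET → S_DETP := by
  intro hD N r k c hk hN hr hkr hc n M hn hM
  have hNr : N * r ≤ (N + 4 * k) * r := Nat.mul_le_mul_right r (by omega)
  have hpos : 0 < N * r := Nat.mul_pos (by omega) (by omega)
  have hn' : n = 4 * ((N + 4 * k) * r) := by rw [hn, prd]; ring
  have hR := Pr_red (n := n) (q := 1/2) (S := CE n M) (B := boxE (N * r))
    (by unfold boxE; exact red_inj_x (by omega))
    (by unfold boxE; exact image_red_sub (by omega) (by omega) (by omega))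
    (fun F => LandS N r k c (↑F : Set Edg))
  rw [← hR]
  unfold PC
  apply Pr_mono (okq (q := 1/2) (by norm_num) (by norm_num))
  intro F hF hL
  apply hD N r k c hk hN hr hkr hc n M hn hM F hF
  refine (TDETP.LandS_congr ?_).1 hL
  intro e h1 h2
  rw [Finset.mem_coe, Finset.mem_filter]
  exact ⟨fun h => h.2, fun h => ⟨Pool.Agent.H160R2.MU.TDETP.mem_box h1 h2, h⟩⟩

end Pool.Agent.W808.KU
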