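import Pool.Agent.W808.KU.T_D0
import Pool.Agent.W808.KS.T_Bc

/-!
# KU, task FIN: from the band to the infinite cylinder with slits
-/

set_option autoImplicit false

namespace Pool.Agent.W808.KU
open H974 H906.Cyl
open Pool.Agent.H160R2.MU (PC)
open Pool.Agent.H863R2.Cyl
open Pool.Agent.H988R2.Perc (Word)
open Pool.Agent.W808.HU (sv Secc)
open Pool.Agent.W808.KS (HS LegS coinsZ lowH AltS Ls Gs)
open MeasureTheory

namespace TFIN
open TD0

/-- the configuration given by the coins -/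
def Go (n : ℕ) (ω : ℤ × ℤ → Bool) : Set Edg :=
  {e | ω ((e.1 + e.2.1 + 1) % ((2 * n : ℕ) : ℤ), dco e) = !e.2.2}

theorem Mz_Go (n k : ℕ) (ω : ℤ × ℤ → Bool) : Mz n k ω (Go n ω) := fun _ _ => Iff.rfl

theorem red_col (n : ℕ) (e : Edg) : ((red n e).1 + (red n e).2.1 + 1) % ((2 * n : ℕ) : ℤ) =
    (e.1 + e.2.1 + 1) % ((2 * n : ℕ) : ℤ) := by
  have : (red n e).1 + (red n e).2.1 + 1 =
      (e.1 + e.2.1 + 1) + ((2 * n : ℕ) : ℤ) * (-((e.1 + e.2.1) / (2 * n))) := by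
    show e.1 - n * ((e.1 + e.2.1) / (2 * n)) + (e.2.1 - n * ((e.1 + e.2.1) / (2 * n))) + 1 = _
    push_cast
    ring
  rw [this, Int.add_mul_emod_self_left]

theorem Go_red {n : ℕ} {ω : ℤ × ℤ → Bool} (e : Edg) : red n e ∈ Go n ω ↔ e ∈ Go n ω := by
  show ω (((red n e).1 + (red n e).2.1 + 1) % ((2 * n : ℕ) : ℤ), dco (red n e)) =
    !(red n e).2.2 ↔ ω ((e.1 + e.2.1 + 1) % ((2 * n : ℕ) : ℤ), dco e) = !e.2.2
  rw [dco_red, red_col]
  rfl

open Classical in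
/-- the open edges of the band -/
noncomputable def Fo (n M : ℕ) (ω : ℤ × ℤ → Bool) : Finset Edg :=
  (CE n M).filter (fun e => e ∈ Go n ω)

theorem mem_Fo {n M : ℕ} {ω : ℤ × ℤ → Bool} {e : Edg} :
    e ∈ Fo n M ω ↔ e ∈ CE n M ∧ e ∈ Go n ω := by
  classical
  unfold Fo
  rw [Finset.mem_filter]

theorem per_Fo_sub {n M : ℕ} {ω : ℤ × ℤ → Bool} : per n (Fo n M ω) ⊆ Go n ω := by
  intro e he
  have := (mem_Fo.1 (show red n e ∈ Fo n M ω from he)).2
  rwa [Go_red] at this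

theorem mem_per_Fo {n M : ℕ} (hn : 0 < n) {ω : ℤ × ℤ → Bool} {e : Edg} (h : e ∈ Go n ω)
    (h0 : -(M : ℤ) ≤ dco e) (h1 : dco e < M) : e ∈ per n (Fo n M ω) := by
  show red n e ∈ Fo n M ω
  rw [mem_Fo]
  exact ⟨red_mem hn h0 h1, by rwa [Go_red]⟩

/-- the clusters of the tips are the same -/
theorem clu {n M k : ℕ} (hn : 0 < n) {ω : ℤ × ℤ → Bool} (hS : Shl n k M (per n (Fo n M ω)))
    {i : ℕ} (hi : i < k) {u : Vtx} (h : Reach (Go n ω ∩ Es n k) (sv n 0 i) u) :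
    Reach (per n (Fo n M ω) ∩ Es n k) (sv n 0 i) u := by
  induction h with
  | refl => exact Reach.refl _ _
  | tail _ hs ih =>
    have h1 := hS i _ hi ih
    refine Relation.ReflTransGen.tail ih ?_
    obtain ⟨e, ⟨he, h0⟩, hst⟩ := hs
    have h2 : -(M : ℤ) ≤ dco e ∧ dco e < M := by
      rw [abs_lt] at h1
      obtain ⟨x, y, b⟩ := e
      cases b
      · rcases hst with ⟨rfl, -⟩ | ⟨-, rfl⟩
        · simp only [src_mk] at h1
          simp only [dco, Bool.false_eq_true, if_false]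
          omega
        · simp only [tgt_false] at h1
          simp only [dco, Bool.false_eq_true, if_false]
          omega
      · rcases hst with ⟨rfl, -⟩ | ⟨-, rfl⟩
        · simp only [src_mk] at h1
          simp only [dco, if_true]
          omega
        · simp only [tgt_true] at h1
          simp only [dco, if_true]
          omega
    exact ⟨e, ⟨mem_per_Fo hn he h2.1 h2.2, h0⟩, hst⟩

theorem P0_Go {n M k : ℕ} (hn : 0 < n) {ω : ℤ × ℤ → Bool} (hP : P0 n k (per n (Fo n M ω)))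
    (hS : Shl n k M (per n (Fo n M ω))) : P0 n k (Go n ω) := by
  refine ⟨fun i j hi hj hij h => hP.1 i j hi hj hij (clu hn hS hi h), fun i hi => ?_⟩
  obtain ⟨s, hs, j, hj, hr⟩ := hP.2 i hi
  exact ⟨s, hs, j, hj, hr.mono (Set.inter_subset_inter_left _ per_Fo_sub)⟩

/-- **deterministic part** -/
theorem det (hWC : S_WCs) (hWG : KS.S_WGs) (hSF : KS.S_SFs) (hSI : KS.S_SIs) (hGL : KS.S_GLs)
    {n M k K L s t : ℕ} (hk : 2 ≤ k) (hkn : k < n)
    {ω : ℤ × ℤ → Bool} (hs : s < K) (hA : AltS (2 * k) (n - k) ω (-(2 * s : ℤ) - 1)) (ht : t < L)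
    (hAlt : HB.Alt (2 * n) (lowH ω) t) (hP : P0 n k (per n (Fo n M ω)))
    (hS : Shl n k M (per n (Fo n M ω))) : LegS (2 * n) (2 * k) ω := by
  have hn : 0 < n := by omega
  have h1 := P0_Go hn hP hS
  rw [P0_iff (Mz_Go n k ω)] at h1
  obtain ⟨n', hn'⟩ : ∃ n', n' + 1 = 2 * n := ⟨2 * n - 1, by omega⟩
  rw [Secc_iff hWC hSF hSI hGL hk hkn hs hA ht hAlt n' hn' (base n') 1 (by norm_num)] at h1
  have hw := (hSF (2 * k) (n - k) K ω (by omega)).1
  rw [Pool.Agent.H988R2.Perc.mem_LP] at hw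
  obtain ⟨hwl, hwd⟩ := hw
  obtain ⟨u, hu⟩ : ∃ u : Word, u = (rows n' (HB.crow (n' + 1) L (lowH ω)) L (base n')).1 :=
    ⟨_, rfl⟩
  have hl : u.length = n' + 1 := by
    rw [hu]
    exact (rows n' (HB.crow (n' + 1) L (lowH ω)) L (base n')).2.1
  have hok : Pool.Agent.H863R2.Cyl.Ok u := by
    rw [hu]
    exact (rows n' (HB.crow (n' + 1) L (lowH ω)) L (base n')).2.2
  rw [← hu, hWG (2 * k) (n - k) u _ hok hwd (by omega) hwl (by omega), hl] at h1
  unfold LegS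
  have e : (fun a b : ℤ => Relation.EqvGen (HS (2 * n) (2 * k) ω) (a, 0) (b, 0)) =
      Relation.EqvGen (Ls (n' + 1) (2 * k) u
        (KC.XW (2 * (n - k)) (KS.cT (2 * k) K ω) (KC.w0 (n - k)) K)) := by
    funext a b
    rw [← hn'] at hAlt ⊢
    rw [hu]
    exact propext (HS_Ls hSF hSI hGL (m := 2 * k) (M := n - k) (by omega) (by omega) (by omega)
      hs hA ht hAlt (base n') a b)
  rw [e, ← hn']
  exact h1

/-! ## probability -/

/-- the coin of an edge -/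
def cn (n M : ℕ) (x : {e // e ∈ CE n M}) : ℤ × ℤ :=
  ((x.1.1 + x.1.2.1 + 1) % ((2 * n : ℕ) : ℤ), dco x.1)

theorem cn_inj (n M : ℕ) : Function.Injective (cn n M) := by
  rintro ⟨e, he⟩ ⟨e', he'⟩ h
  have h1 : (e.1 + e.2.1 + 1) % ((2 * n : ℕ) : ℤ) = (e'.1 + e'.2.1 + 1) % ((2 * n : ℕ) : ℤ) :=
    congrArg Prod.fst h
  have h3 : dco e = dco e' := congrArg Prod.snd h
  rw [mem_CE] at he he'
  obtain ⟨⟨h5, h6⟩, -⟩ := he
  obtain ⟨⟨h7, h8⟩, -⟩ := he'
  have h4 : e.1 + e.2.1 = e'.1 + e'.2.1 := by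
    have hd : ((2 * n : ℕ) : ℤ) ∣ (e.1 + e.2.1) - (e'.1 + e'.2.1) := by
      have := Int.ModEq.dvd (show (e'.1 + e'.2.1 + 1) ≡ (e.1 + e.2.1 + 1) [ZMOD ((2 * n : ℕ) : ℤ)]
        from h1.symm)
      have e1 : (e.1 + e.2.1) - (e'.1 + e'.2.1) = e.1 + e.2.1 + 1 - (e'.1 + e'.2.1 + 1) := by ring
      rw [e1]
      exact this
    have := Int.eq_zero_of_abs_lt_dvd hd (by
      rw [abs_lt]
      push_cast
      constructor <;> linarith)
    linarith
  apply Subtype.ext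
  obtain ⟨x, y, b⟩ := e
  obtain ⟨x', y', b'⟩ := e'
  simp only at h4
  cases b <;> cases b' <;> simp only [dco, if_true, Bool.false_eq_true, if_false] at h3 <;>
    simp only [Prod.mk.injEq, Bool.true_eq_false, Bool.false_eq_true, and_false, and_true] <;>
    omega

/-- the configuration of a family of coins -/
def Fv (n M : ℕ) (v : {e // e ∈ CE n M} → Bool) : Finset Edg :=
  (Finset.univ.filter (fun x : {e // e ∈ CE n M} => v x = !x.1.2.2)).map
    (Function.Embedding.subtype _)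

theorem mem_Fv {n M : ℕ} {v : {e // e ∈ CE n M} → Bool} {e : Edg} :
    e ∈ Fv n M v ↔ ∃ h : e ∈ CE n M, v ⟨e, h⟩ = !e.2.2 := by
  unfold Fv
  simp only [Finset.mem_map, Finset.mem_filter, Finset.mem_univ, true_and,
    Function.Embedding.coe_subtype, Subtype.exists, exists_and_right, exists_eq_right]

theorem Fv_Fo (n M : ℕ) (ω : ℤ × ℤ → Bool) : Fv n M (fun x => ω (cn n M x)) = Fo n M ω := by
  ext e
  rw [mem_Fv, mem_Fo]
  constructor
  · rintro ⟨h1, h2⟩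
    exact ⟨h1, h2⟩
  · rintro ⟨h1, h2⟩
    exact ⟨h1, h2⟩

theorem prob (n M : ℕ) (A : Finset Edg → Prop) :
    coinsZ.real {ω | A (Fo n M ω)} = PC n M A := by
  classical
  have h1 := KS.TBc.split (cn n M) (cn_inj n M) (fun v => A (Fv n M v))
  have h2 : {ω : ℤ × ℤ → Bool | A (Fv n M fun x => ω (cn n M x))} = {ω | A (Fo n M ω)} := by
    ext ω
    show A (Fv n M fun x => ω (cn n M x)) ↔ A (Fo n M ω)
    rw [Fv_Fo]
  rw [h2] at h1
  rw [h1]
  unfold PC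
  rw [H906.Cyl.Pr_half, Finset.mul_sum]
  refine Finset.sum_bij (fun v _ => Fv n M v) ?_ ?_ ?_ ?_
  · intro v _
    rw [Finset.mem_powerset]
    intro e he
    exact (mem_Fv.1 he).1
  · intro v _ v' _ h
    funext x
    have h3 : x.1 ∈ Fv n M v ↔ x.1 ∈ Fv n M v' := by rw [h]
    rw [mem_Fv, mem_Fv] at h3
    have h4 : v x = !x.1.2.2 ↔ v' x = !x.1.2.2 :=
      ⟨fun h5 => (h3.1 ⟨x.2, h5⟩).2, fun h5 => (h3.2 ⟨x.2, h5⟩).2⟩
    revert h4
    cases v x <;> cases v' x <;> cases x.1.2.2 <;> simp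
  · intro F hF
    refine ⟨fun x => if x.1 ∈ F then !x.1.2.2 else x.1.2.2, by simp, ?_⟩
    ext e
    rw [mem_Fv]
    constructor
    · rintro ⟨h3, h4⟩
      by_contra h5
      rw [if_neg h5] at h4
      revert h4
      cases e.2.2 <;> simp
    · intro h3
      exact ⟨Finset.mem_powerset.1 hF h3, by rw [if_pos h3]⟩
  · intro v _
    rw [Fintype.card_coe]
    by_cases h3 : A (Fv n M v)
    · rw [if_pos h3, ind_of h3, mul_one]
    · rw [if_neg h3, ind_not_of h3, mul_zero]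

end TFIN

open TFIN in
theorem t_FIN (hWC : S_WCs) (hWG : KS.S_WGs) (hSF : KS.S_SFs) (hSI : KS.S_SIs) (hGL : KS.S_GLs)
    (hY3 : KS.S_Y3) : S_FIN := by
  intro n M k hk hkn hM
  rw [← prob n M (fun F => P0 n k (per n F) ∧ Shl n k M (per n F))]
  refine le_of_forall_pos_le_add fun ε hε => ?_
  obtain ⟨L, hL⟩ := hY3 (2 * k) (n - k) (2 * n) ε hε
  have hK := hL L le_rfl
  have hsub : {ω | P0 n k (per n (Fo n M ω)) ∧ Shl n k M (per n (Fo n M ω))} ⊆
      {ω | LegS (2 * n) (2 * k) ω} ∪ {ω | ¬ ((∃ t < L, HB.Alt (2 * n) (lowH ω) t) ∧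
        ∃ s < L, AltS (2 * k) (n - k) ω (-(2 * s : ℤ) - 1))} := by
    rintro ω ⟨hP, hS⟩
    by_cases hb : (∃ t < L, HB.Alt (2 * n) (lowH ω) t) ∧
        ∃ s < L, AltS (2 * k) (n - k) ω (-(2 * s : ℤ) - 1)
    · left
      obtain ⟨⟨t, ht, hAlt⟩, s, hs, hA⟩ := hb
      exact det hWC hWG hSF hSI hGL hk hkn hs hA ht hAlt hP hS
    · right
      exact hb
  have hprob : IsProbabilityMeasure coinsZ := KS.TBc.coinsZ_prob
  have h1 := (measureReal_mono (μ := coinsZ) hsub).trans (measureReal_union_le _ _)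
  linarith

end Pool.Agent.W808.KU
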