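import Pool.Agent.W808.KU.Stm
import Pool.Agent.W808.KS.T_Y1
import Pool.Agent.W808.HU.T_HG

/-!
# KU, task HG: one class is enough (configurations of the slit plane)
primal vertex `(x, y)` = point `(x + y + 1, x - y)`, face `(x, y)` = point `(x + y + 2, x - y)`
-/

set_option autoImplicit false

namespace Pool.Agent.W808.KU
open H974 H906.Cyl
open Pool.Agent.H863R2.Cyl
open Pool.Agent.H988R2.Perc (Word Dyck LP)
open Pool.Agent.W808.HU (sv du Secc)
open Pool.Agent.W808.KS (Ls Gs HS SI SF AltS lowH cT)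

namespace THG

/-- point of a vertex -/
def pv (v : Vtx) : ℤ × ℤ := (v.1 + v.2 + 1, v.1 - v.2)

/-- vertex of an odd point -/
def vp (p : ℤ × ℤ) : Vtx := ((p.1 + p.2 - 1) / 2, (p.1 - p.2 - 1) / 2)

/-- point of a face -/
def pf (v : Vtx) : ℤ × ℤ := (v.1 + v.2 + 2, v.1 - v.2)

/-- face of an even point -/
def fp (p : ℤ × ℤ) : Vtx := ((p.1 + p.2 - 2) / 2, (p.1 - p.2 - 2) / 2)

/-- the coins `ω` describe the configuration `G` (circumference `N`) -/
def Mt (N : ℕ) (ω : ℤ × ℤ → Bool) (G : Set Edg) : Prop :=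
  ∀ e : Edg, (e ∈ G ↔ ω ((e.1 + e.2.1 + 1) % N, dco e) = !e.2.2)

theorem pair_eq {a a' b b' : ℤ} (h1 : a = a') (h2 : b = b') : ((a, b) : ℤ × ℤ) = (a', b') := by
  rw [h1, h2]

theorem vtx_eq {a a' b b' : ℤ} (h1 : a = a') (h2 : b = b') : ((a, b) : Vtx) = (a', b') := by
  rw [h1, h2]

/-- open edges are diagonals -/
theorem edge_HS {n k : ℕ} {ω : ℤ × ℤ → Bool} {G : Set Edg} (h : Mt (2 * n) ω G) {e : Edg}
    (he : e ∈ G) (h0 : e ∈ Es n k) :
    HS (2 * n) (2 * k) ω (pv (src e)) (pv (tgt e)) ∨ HS (2 * n) (2 * k) ω (pv (tgt e)) (pv (src e)) := by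
  have h1 := (h e).1 he
  obtain ⟨x, y, b⟩ := e
  unfold Es at h0
  simp only [Set.mem_ofPred_eq] at h0
  cases b
  · right
    simp only [dco, Bool.false_eq_true, if_false, Bool.not_false] at h0 h1
    simp only [src_mk, tgt_false, pv]
    have := HS.fall (N := 2 * n) (m := 2 * k) (ω := ω) (x + y + 1) (x - y - 1)
      (by push_cast at h0 ⊢; exact h0) h1
    have e1 : (((x, y + 1) : Vtx).1 + ((x, y + 1) : Vtx).2 + 1,
        ((x, y + 1) : Vtx).1 - ((x, y + 1) : Vtx).2) = (x + y + 1 + 1, x - y - 1) := by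
      apply pair_eq
      · show x + (y + 1) + 1 = _
        ring
      · show x - (y + 1) = _
        ring
    have e2 : (((x, y) : Vtx).1 + ((x, y) : Vtx).2 + 1,
        ((x, y) : Vtx).1 - ((x, y) : Vtx).2) = (x + y + 1, x - y - 1 + 1) := by
      apply pair_eq rfl
      show x - y = _
      omega
    rw [e1, e2]
    exact this
  · left
    simp only [dco, if_true, Bool.not_true] at h0 h1
    simp only [src_mk, tgt_true, pv]
    have := HS.rise (N := 2 * n) (m := 2 * k) (ω := ω) (x + y + 1) (x - y)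
      (by push_cast at h0 ⊢; exact h0) h1
    have e1 : (((x + 1, y) : Vtx).1 + ((x + 1, y) : Vtx).2 + 1,
        ((x + 1, y) : Vtx).1 - ((x + 1, y) : Vtx).2) =
          (x + y + 1 + 1, x - y + 1) := by
      apply pair_eq
      · show x + 1 + y + 1 = _
        ring
      · show x + 1 - y = _
        omega
    rw [e1]
    exact this

theorem reach_HS {n k : ℕ} {ω : ℤ × ℤ → Bool} {G : Set Edg} (h : Mt (2 * n) ω G) {u v : Vtx}
    (hr : Reach (G ∩ Es n k) u v) :
    Relation.EqvGen (HS (2 * n) (2 * k) ω) (pv u) (pv v) := by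
  induction hr with
  | refl => exact Relation.EqvGen.refl _
  | tail _ hs ih =>
    refine Relation.EqvGen.trans _ _ _ ih ?_
    obtain ⟨e, ⟨he, h0⟩, ⟨rfl, rfl⟩ | ⟨rfl, rfl⟩⟩ := hs
    · rcases edge_HS h he h0 with h1 | h1
      · exact Relation.EqvGen.rel _ _ h1
      · exact Relation.EqvGen.symm _ _ (Relation.EqvGen.rel _ _ h1)
    · rcases edge_HS h he h0 with h1 | h1
      · exact Relation.EqvGen.symm _ _ (Relation.EqvGen.rel _ _ h1)
      · exact Relation.EqvGen.rel _ _ h1

theorem HS_reach {n k : ℕ} {ω : ℤ × ℤ → Bool} {G : Set Edg} (h : Mt (2 * n) ω G) {p q : ℤ × ℤ}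
    (hr : Relation.EqvGen (HS (2 * n) (2 * k) ω) p q) :
    (p.1 + p.2) % 2 = (q.1 + q.2) % 2 ∧
    ((p.1 + p.2) % 2 = 1 → Reach (G ∩ Es n k) (vp p) (vp q)) := by
  induction hr with
  | rel p q hpq =>
    cases hpq with
    | rise j t hE hω =>
      refine ⟨by simp only; omega, ?_⟩
      intro hp
      simp only at hp
      have h1 := h (((j + t - 1) / 2, (j - t - 1) / 2, true) : Edg)
      simp only [dco, if_true, Bool.not_true] at h1
      have e1 : (j + t - 1) / 2 + (j - t - 1) / 2 + 1 = j := by omega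
      have e2 : (j + t - 1) / 2 - (j - t - 1) / 2 = t := by omega
      have h0 : (((j + t - 1) / 2, (j - t - 1) / 2, true) : Edg) ∈ Es n k := by
        unfold Es
        simp only [Set.mem_ofPred_eq, dco, if_true]
        rw [e1, e2]
        push_cast at hE ⊢
        exact hE
      rw [e1, e2] at h1
      refine Relation.ReflTransGen.single ⟨_, ⟨h1.2 hω, h0⟩, Or.inl ⟨rfl, ?_⟩⟩
      show (((j + t - 1) / 2 + 1, (j - t - 1) / 2) : Vtx) = _
      unfold vp
      apply vtx_eq <;> simp only <;> omega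
    | fall j t hE hω =>
      refine ⟨by simp only; omega, ?_⟩
      intro hp
      simp only at hp
      have h1 := h (((j + t) / 2, (j - t - 2) / 2, false) : Edg)
      simp only [dco, Bool.false_eq_true, if_false, Bool.not_false] at h1
      have e1 : (j + t) / 2 + (j - t - 2) / 2 + 1 = j := by omega
      have e2 : (j + t) / 2 - (j - t - 2) / 2 - 1 = t := by omega
      have h0 : (((j + t) / 2, (j - t - 2) / 2, false) : Edg) ∈ Es n k := by
        unfold Es
        simp only [Set.mem_ofPred_eq, dco, Bool.false_eq_true, if_false]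
        rw [e1, e2]
        push_cast at hE ⊢
        exact hE
      rw [e1, e2] at h1
      refine Relation.ReflTransGen.single ⟨_, ⟨h1.2 hω, h0⟩, Or.inr ⟨?_, ?_⟩⟩
      · show (((j + t) / 2, (j - t - 2) / 2) : Vtx) = _
        unfold vp
        apply vtx_eq <;> simp only <;> omega
      · show (((j + t) / 2, (j - t - 2) / 2 + 1) : Vtx) = _
        unfold vp
        apply vtx_eq <;> simp only <;> omega
    | wallL s i =>
      have e1 : s * ((2 * n : ℕ) : ℤ) = 2 * (s * n) := by push_cast; ring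
      simp only [e1]
      push_cast
      constructor
      · omega
      · intro hp
        omega
    | wallR s i =>
      have e1 : s * ((2 * n : ℕ) : ℤ) = 2 * (s * n) := by push_cast; ring
      simp only [e1]
      constructor
      · omega
      · intro hp
        omega
  | refl p => exact ⟨rfl, fun _ => Reach.refl _ _⟩
  | symm p q _ ih => exact ⟨ih.1.symm, fun hq => (ih.2 (ih.1.trans hq)).symm⟩
  | trans p q r _ _ ih1 ih2 =>
    exact ⟨ih1.1.trans ih2.1, fun hp => (ih1.2 hp).trans (ih2.2 (ih1.1.symm.trans hp))⟩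

/-! ## class 1 -/

/-- dual edges are diagonals -/
theorem dedge_HS {n k : ℕ} {ω : ℤ × ℤ → Bool} {G : Set Edg} (h : Mt (2 * n) ω G) {e : Edg}
    (he : e ∈ dl n k G) :
    HS (2 * n) (2 * k) ω (pf (src e)) (pf (tgt e)) ∨
      HS (2 * n) (2 * k) ω (pf (tgt e)) (pf (src e)) := by
  obtain ⟨h0, h1⟩ := he
  obtain ⟨x, y, b⟩ := e
  unfold Es at h0
  simp only [Set.mem_ofPred_eq] at h0
  cases b
  · right
    rw [HU.TDic.du_false] at h0 h1
    simp only [dco, if_true] at h0
    rw [h _] at h1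
    simp only [dco, if_true, Bool.not_true, Bool.not_eq_false] at h1
    have := HS.fall (N := 2 * n) (m := 2 * k) (ω := ω) (x + (y + 1) + 1) (x - (y + 1))
      (by push_cast at h0 ⊢; exact h0) h1
    have e1 : pf (tgt ((x, y, false) : Edg)) = (x + (y + 1) + 1 + 1, x - (y + 1)) := by
      simp only [tgt_false, pf]
      apply pair_eq _ rfl
      ring
    have e2 : pf (src ((x, y, false) : Edg)) = (x + (y + 1) + 1, x - (y + 1) + 1) := by
      simp only [src_mk, pf]
      apply pair_eq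
      · ring
      · omega
    rw [e1, e2]
    exact this
  · left
    rw [HU.TDic.du_true] at h0 h1
    simp only [dco, Bool.false_eq_true, if_false] at h0
    rw [h _] at h1
    simp only [dco, Bool.false_eq_true, if_false, Bool.not_false, Bool.not_eq_true] at h1
    have := HS.rise (N := 2 * n) (m := 2 * k) (ω := ω) (x + 1 + y + 1) (x + 1 - y - 1)
      (by push_cast at h0 ⊢; exact h0) h1
    have e1 : pf (src ((x, y, true) : Edg)) = (x + 1 + y + 1, x + 1 - y - 1) := by
      simp only [src_mk, pf]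
      apply pair_eq
      · ring
      · omega
    have e2 : pf (tgt ((x, y, true) : Edg)) = (x + 1 + y + 1 + 1, x + 1 - y - 1 + 1) := by
      simp only [tgt_true, pf]
      apply pair_eq
      · ring
      · omega
    rw [e1, e2]
    exact this

theorem R1_HS {n k : ℕ} {ω : ℤ × ℤ → Bool} {G : Set Edg} (h : Mt (2 * n) ω G) {u v : Vtx}
    (hr : R1 n k (dl n k G) u v) : Relation.EqvGen (HS (2 * n) (2 * k) ω) (pf u) (pf v) := by
  induction hr with
  | rel u v huv =>
    rcases huv with hw | ⟨e, he, rfl, rfl⟩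
    · cases hw with
      | wl s i =>
        have := HS.wallR (N := 2 * n) (m := 2 * k) (ω := ω) s i
        have e1 : pf (s * n - 1 - i, s * n - 1 + i) = (s * (2 * n : ℕ), -(2 * i : ℤ)) := by
          simp only [pf]
          apply pair_eq
          · push_cast
            ring
          · ring
        have e2 : pf (s * n - 1 - i - 1, s * n - 1 + i + 1) =
            (s * (2 * n : ℕ), -(2 * i : ℤ) - 2) := by
          simp only [pf]
          apply pair_eq
          · push_cast
            ring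
          · ring
        rw [e1, e2]
        exact Relation.EqvGen.rel _ _ this
      | wr s i =>
        have := HS.wallL (N := 2 * n) (m := 2 * k) (ω := ω) s i
        have e1 : pf (s * n + k - 1 - i, s * n + k - 1 + i) =
            (s * (2 * n : ℕ) + (2 * k : ℕ), -(2 * i : ℤ)) := by
          simp only [pf]
          apply pair_eq
          · push_cast
            ring
          · ring
        have e2 : pf (s * n + k - 1 - i - 1, s * n + k - 1 + i + 1) =
            (s * (2 * n : ℕ) + (2 * k : ℕ), -(2 * i : ℤ) - 2) := by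
          simp only [pf]
          apply pair_eq
          · push_cast
            ring
          · ring
        rw [e1, e2]
        exact Relation.EqvGen.rel _ _ this
    · rcases dedge_HS h he with h1 | h1
      · exact Relation.EqvGen.rel _ _ h1
      · exact Relation.EqvGen.symm _ _ (Relation.EqvGen.rel _ _ h1)
  | refl p => exact Relation.EqvGen.refl _
  | symm p q _ ih => exact Relation.EqvGen.symm _ _ ih
  | trans p q r _ _ ih1 ih2 => exact Relation.EqvGen.trans _ _ _ ih1 ih2

theorem HS_R1 {n k : ℕ} {ω : ℤ × ℤ → Bool} {G : Set Edg} (h : Mt (2 * n) ω G)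
    {p q : ℤ × ℤ} (hr : Relation.EqvGen (HS (2 * n) (2 * k) ω) p q) :
    (p.1 + p.2) % 2 = (q.1 + q.2) % 2 ∧
    ((p.1 + p.2) % 2 = 0 → R1 n k (dl n k G) (fp p) (fp q)) := by
  induction hr with
  | rel p q hpq =>
    cases hpq with
    | rise j t hE hω =>
      refine ⟨by simp only; omega, ?_⟩
      intro hp
      simp only at hp
      have h1 := h ((j + t - 2) / 2 + 1, (j - t - 2) / 2, false)
      simp only [dco, Bool.false_eq_true, if_false, Bool.not_false] at h1
      have e1 : (j + t - 2) / 2 + 1 + (j - t - 2) / 2 + 1 = j := by omega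
      have e2 : (j + t - 2) / 2 + 1 - (j - t - 2) / 2 - 1 = t := by omega
      rw [e1, e2] at h1
      refine Relation.EqvGen.rel _ _ (Or.inr ⟨((j + t - 2) / 2, (j - t - 2) / 2, true),
        ⟨?_, ?_⟩, rfl, ?_⟩)
      · rw [HU.TDic.du_true]
        unfold Es
        simp only [Set.mem_ofPred_eq, dco, Bool.false_eq_true, if_false]
        rw [e1, e2]
        push_cast at hE ⊢
        exact hE
      · rw [HU.TDic.du_true, h1, hω]
        simp
      · show (((j + t - 2) / 2 + 1, (j - t - 2) / 2) : Vtx) = _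
        unfold fp
        apply vtx_eq <;> simp only <;> omega
    | fall j t hE hω =>
      refine ⟨by simp only; omega, ?_⟩
      intro hp
      simp only at hp
      have h1 := h ((j + t - 1) / 2, (j - t - 3) / 2 + 1, true)
      simp only [dco, if_true, Bool.not_true] at h1
      have e1 : (j + t - 1) / 2 + ((j - t - 3) / 2 + 1) + 1 = j := by omega
      have e2 : (j + t - 1) / 2 - ((j - t - 3) / 2 + 1) = t := by omega
      rw [e1, e2] at h1
      refine Relation.EqvGen.symm _ _ (Relation.EqvGen.rel _ _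
        (Or.inr ⟨((j + t - 1) / 2, (j - t - 3) / 2, false), ⟨?_, ?_⟩, ?_, ?_⟩))
      · rw [HU.TDic.du_false]
        unfold Es
        simp only [Set.mem_ofPred_eq, dco, if_true]
        rw [e1, e2]
        push_cast at hE ⊢
        exact hE
      · rw [HU.TDic.du_false, h1, hω]
        simp
      · show (((j + t - 1) / 2, (j - t - 3) / 2) : Vtx) = _
        unfold fp
        apply vtx_eq <;> simp only <;> omega
      · show (((j + t - 1) / 2, (j - t - 3) / 2 + 1) : Vtx) = _
        unfold fp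
        apply vtx_eq <;> simp only <;> omega
    | wallL s i =>
      have e1 : s * ((2 * n : ℕ) : ℤ) = 2 * (s * n) := by push_cast; ring
      constructor
      · simp only [e1]
        push_cast
        omega
      · intro _
        have := W1.wr (n := n) (k := k) s i
        have e2 : fp (s * ((2 * n : ℕ) : ℤ) + ((2 * k : ℕ) : ℤ), -(2 * i : ℤ)) =
            (s * n + k - 1 - i, s * n + k - 1 + i) := by
          unfold fp
          simp only [e1]
          push_cast
          apply vtx_eq <;> omega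
        have e3 : fp (s * ((2 * n : ℕ) : ℤ) + ((2 * k : ℕ) : ℤ), -(2 * i : ℤ) - 2) =
            (s * n + k - 1 - i - 1, s * n + k - 1 + i + 1) := by
          unfold fp
          simp only [e1]
          push_cast
          apply vtx_eq <;> omega
        rw [e2, e3]
        exact Relation.EqvGen.rel _ _ (Or.inl this)
    | wallR s i =>
      have e1 : s * ((2 * n : ℕ) : ℤ) = 2 * (s * n) := by push_cast; ring
      constructor
      · simp only [e1]
        omega
      · intro _
        have := W1.wl (n := n) (k := k) s i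
        have e2 : fp (s * ((2 * n : ℕ) : ℤ), -(2 * i : ℤ)) =
            (s * n - 1 - i, s * n - 1 + i) := by
          unfold fp
          simp only [e1]
          apply vtx_eq <;> omega
        have e3 : fp (s * ((2 * n : ℕ) : ℤ), -(2 * i : ℤ) - 2) =
            (s * n - 1 - i - 1, s * n - 1 + i + 1) := by
          unfold fp
          simp only [e1]
          apply vtx_eq <;> omega
        rw [e2, e3]
        exact Relation.EqvGen.rel _ _ (Or.inl this)
  | refl p => exact ⟨rfl, fun _ => Relation.EqvGen.refl _⟩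
  | symm p q _ ih => exact ⟨ih.1.symm, fun hq => Relation.EqvGen.symm _ _ (ih.2 (ih.1.trans hq))⟩
  | trans p q r _ _ ih1 ih2 =>
    exact ⟨ih1.1.trans ih2.1, fun hp => Relation.EqvGen.trans _ _ _ (ih1.2 hp)
      (ih2.2 (ih1.1.symm.trans hp))⟩

/-! ## both classes as connections of sectors -/

/-- connections of the sectors -/
def CH (n k : ℕ) (ω : ℤ × ℤ → Bool) (a b : ℤ) : Prop :=
  Relation.EqvGen (HS (2 * n) (2 * k) ω) (a, 0) (b, 0)

theorem pv_sv (n : ℕ) (s : ℤ) (i : ℕ) :
    pv (sv n s i) = (s * (2 * n : ℕ) + (2 * i + 1 : ℕ), 0) := by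
  simp only [pv, sv]
  apply pair_eq
  · push_cast
    ring
  · omega

theorem vp_sv (n : ℕ) (s : ℤ) (i : ℕ) :
    vp (s * (2 * n : ℕ) + (2 * i + 1 : ℕ), 0) = sv n s i := by
  simp only [vp, sv]
  have e1 : s * ((2 * n : ℕ) : ℤ) = 2 * (s * n) := by push_cast; ring
  rw [e1]
  push_cast
  apply vtx_eq <;> omega

theorem pf_sv (n : ℕ) (s : ℤ) (i : ℕ) :
    pf (sv n s i) = (s * (2 * n : ℕ) + (2 * i + 2 : ℕ), 0) := by
  simp only [pf, sv]
  apply pair_eq
  · push_cast
    ring
  · omega

theorem fp_sv (n : ℕ) (s : ℤ) (i : ℕ) :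
    fp (s * (2 * n : ℕ) + (2 * i + 2 : ℕ), 0) = sv n s i := by
  simp only [fp, sv]
  have e1 : s * ((2 * n : ℕ) : ℤ) = 2 * (s * n) := by push_cast; ring
  rw [e1]
  push_cast
  apply vtx_eq <;> omega

theorem reach_iff {n k : ℕ} {ω : ℤ × ℤ → Bool} {G : Set Edg} (h : Mt (2 * n) ω G)
    (s s' : ℤ) (i j : ℕ) : Reach (G ∩ Es n k) (sv n s i) (sv n s' j) ↔
      CH n k ω (s * (2 * n : ℕ) + (2 * i + 1 : ℕ)) (s' * (2 * n : ℕ) + (2 * j + 1 : ℕ)) := by
  constructor
  · intro hr
    have := reach_HS h hr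
    rw [pv_sv, pv_sv] at this
    exact this
  · intro hr
    have e1 : s * ((2 * n : ℕ) : ℤ) = 2 * (s * n) := by push_cast; ring
    have := (HS_reach h hr).2 (by
      show (s * (2 * n : ℕ) + (2 * i + 1 : ℕ) + (0 : ℤ)) % 2 = 1
      rw [e1]
      push_cast
      omega)
    rw [vp_sv, vp_sv] at this
    exact this

theorem R1_iff {n k : ℕ} {ω : ℤ × ℤ → Bool} {G : Set Edg} (h : Mt (2 * n) ω G)
    (s s' : ℤ) (i j : ℕ) : R1 n k (dl n k G) (sv n s i) (sv n s' j) ↔
      CH n k ω (s * (2 * n : ℕ) + (2 * i + 2 : ℕ)) (s' * (2 * n : ℕ) + (2 * j + 2 : ℕ)) := by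
  constructor
  · intro hr
    have := R1_HS h hr
    rw [pf_sv, pf_sv] at this
    exact this
  · intro hr
    have e1 : s * ((2 * n : ℕ) : ℤ) = 2 * (s * n) := by push_cast; ring
    have := (HS_R1 h hr).2 (by
      show (s * (2 * n : ℕ) + (2 * i + 2 : ℕ) + (0 : ℤ)) % 2 = 0
      rw [e1]
      push_cast
      omega)
    rw [fp_sv, fp_sv] at this
    exact this

theorem R1_iff0 {n k : ℕ} {ω : ℤ × ℤ → Bool} {G : Set Edg} (h : Mt (2 * n) ω G)
    (i : ℕ) : R1 n k (dl n k G) (sv n 0 i) (-1, -1) ↔ CH n k ω ((2 * i + 2 : ℕ)) 0 := by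
  have e0 : pf ((-1, -1) : Vtx) = (0, 0) := rfl
  have e2 : fp ((0, 0) : ℤ × ℤ) = ((-1, -1) : Vtx) := by
    unfold fp
    apply vtx_eq <;> norm_num
  constructor
  · intro hr
    have := R1_HS h hr
    rw [pf_sv, e0, zero_mul, zero_add] at this
    exact this
  · intro hr
    have := (HS_R1 h hr).2 (by
      show (((2 * i + 2 : ℕ) : ℤ) + (0 : ℤ)) % 2 = 0
      push_cast
      omega)
    have e3 := fp_sv n 0 i
    rw [zero_mul, zero_add] at e3
    rw [e3, e2] at this
    exact this

theorem P0_iff {n k : ℕ} {ω : ℤ × ℤ → Bool} {G : Set Edg} (h : Mt (2 * n) ω G) :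
    P0 n k G ↔ Secc 1 (2 * k) (2 * n) (CH n k ω) := by
  constructor
  · rintro ⟨h1, h2⟩
    refine ⟨?_, ?_⟩
    · intro c d hc hd hc1 hc2 hd2 hcd hC
      obtain ⟨i, rfl⟩ : ∃ i, c = 2 * i + 1 := ⟨c / 2, by omega⟩
      obtain ⟨j, rfl⟩ : ∃ j, d = 2 * j + 1 := ⟨d / 2, by omega⟩
      refine h1 i j (by omega) (by omega) (by omega) ?_
      rw [reach_iff (k := k) h]
      simpa using hC
    · intro c hc hc1 hc2
      obtain ⟨i, rfl⟩ : ∃ i, c = 2 * i + 1 := ⟨c / 2, by omega⟩
      obtain ⟨s, hs, j, hj, hr⟩ := h2 i (by omega)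
      refine ⟨s, hs, 2 * j + 1, by omega, by omega, ?_⟩
      rw [reach_iff (k := k) h] at hr
      simpa using hr
  · rintro ⟨h1, h2⟩
    refine ⟨?_, ?_⟩
    · intro i j hi hj hij hr
      rw [reach_iff (k := k) h] at hr
      refine h1 (2 * i + 1) (2 * j + 1) (by omega) (by omega) (by omega) (by omega) (by omega)
        (by omega) ?_
      simpa using hr
    · intro i hi
      obtain ⟨s, hs, d, hd1, hd2, hC⟩ := h2 (2 * i + 1) (by omega) (by omega) (by omega)
      have hpar := (HS_reach h hC).1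
      have e1 : s * ((2 * n : ℕ) : ℤ) = 2 * (s * n) := by push_cast; ring
      simp only [e1] at hpar
      obtain ⟨j, rfl⟩ : ∃ j, d = 2 * j + 1 := ⟨d / 2, by push_cast at hpar; omega⟩
      refine ⟨s, hs, j, by omega, ?_⟩
      rw [reach_iff (k := k) h]
      simpa using hC

theorem P1_iff {n k : ℕ} {ω : ℤ × ℤ → Bool} {G : Set Edg} (h : Mt (2 * n) ω G) :
    P1 n k G ↔ Secc 0 (2 * k) (2 * n) (CH n k ω) := by
  constructor
  · rintro ⟨h1, h2, h3⟩
    refine ⟨?_, ?_⟩
    · intro c d hc hd hc1 hc2 hd2 hcd hC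
      obtain ⟨i, rfl⟩ : ∃ i, c = 2 * i + 2 := ⟨c / 2 - 1, by omega⟩
      rcases Nat.eq_zero_or_pos d with rfl | hd0
      · refine h2 i (by omega) ?_
        rw [R1_iff0 h]
        simpa using hC
      · obtain ⟨j, rfl⟩ : ∃ j, d = 2 * j + 2 := ⟨d / 2 - 1, by omega⟩
        refine h1 i j (by omega) (by omega) (by omega) ?_
        rw [R1_iff h]
        simpa using hC
    · intro c hc hc1 hc2
      obtain ⟨i, rfl⟩ : ∃ i, c = 2 * i + 2 := ⟨c / 2 - 1, by omega⟩
      obtain ⟨s, hs, j, hj, hr⟩ := h3 i (by omega)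
      refine ⟨s, hs, 2 * j + 2, by omega, by omega, ?_⟩
      rw [R1_iff h] at hr
      simpa using hr
  · rintro ⟨h1, h2⟩
    refine ⟨?_, ?_, ?_⟩
    · intro i j hi hj hij hr
      rw [R1_iff h] at hr
      refine h1 (2 * i + 2) (2 * j + 2) (by omega) (by omega) (by omega) (by omega) (by omega)
        (by omega) ?_
      simpa using hr
    · intro i hi hr
      rw [R1_iff0 h] at hr
      refine h1 (2 * i + 2) 0 (by omega) (by omega) (by omega) (by omega) (by omega)
        (by omega) ?_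
      simpa using hr
    · intro i hi
      obtain ⟨s, hs, d, hd1, hd2, hC⟩ := h2 (2 * i + 2) (by omega) (by omega) (by omega)
      have hpar := (HS_R1 h hC).1
      have e1 : s * ((2 * n : ℕ) : ℤ) = 2 * (s * n) := by push_cast; ring
      simp only [e1] at hpar
      obtain ⟨j, rfl⟩ : ∃ j, d = 2 * j + 2 := ⟨d / 2 - 1, by push_cast at hpar; omega⟩
      refine ⟨s, hs, j, by omega, ?_⟩
      rw [R1_iff h]
      simpa using hC

/-! ## the coins of a periodic configuration -/

open Classical in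
/-- the coins of a periodic configuration -/
noncomputable def om (G : Set Edg) : ℤ × ℤ → Bool := fun p =>
  if edz (p.1 - 1) p.2 ∈ G then !(edz (p.1 - 1) p.2).2.2 else (edz (p.1 - 1) p.2).2.2

theorem om_pos {G : Set Edg} {p : ℤ × ℤ} {e : Edg} (h : edz (p.1 - 1) p.2 = e) (he : e ∈ G) :
    om G p = !e.2.2 := by
  unfold om
  subst h
  rw [if_pos he]

theorem om_neg {G : Set Edg} {p : ℤ × ℤ} {e : Edg} (h : edz (p.1 - 1) p.2 = e) (he : e ∉ G) :
    om G p = e.2.2 := by
  unfold om
  subst h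
  rw [if_neg he]

theorem Mt_om {n : ℕ} (hn : 0 < n) (F : Finset Edg) : Mt (2 * n) (om (per n F)) (per n F) := by
  intro e
  have e1 : (e.1 + e.2.1 + 1) % ((2 * n : ℕ) : ℤ) - 1 =
      e.1 + e.2.1 - 2 * (n * ((e.1 + e.2.1 + 1) / ((2 * n : ℕ) : ℤ))) := by
    have := Int.emod_def (e.1 + e.2.1 + 1) ((2 * n : ℕ) : ℤ)
    rw [this]
    push_cast
    ring
  set q := (e.1 + e.2.1 + 1) / ((2 * n : ℕ) : ℤ)
  have e4 : edz ((((e.1 + e.2.1 + 1) % ((2 * n : ℕ) : ℤ), dco e) : ℤ × ℤ).1 - 1)
      (((e.1 + e.2.1 + 1) % ((2 * n : ℕ) : ℤ), dco e) : ℤ × ℤ).2 =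
      (e.1 + n * (-q), e.2.1 + n * (-q), e.2.2) := by
    simp only
    rw [e1, HU.TDic.edz_shift]
  have e3 : ((e.1 + n * (-q), e.2.1 + n * (-q), e.2.2) : Edg) ∈ per n F ↔ e ∈ per n F := by
    show red n _ ∈ F ↔ red n e ∈ F
    rw [red_shift hn]
  by_cases h : e ∈ per n F
  · rw [om_pos e4 (e3.2 h)]
    simp [h]
  · rw [om_neg e4 (fun h' => h (e3.1 h'))]
    simp [h]

/-- edges outside the band are closed -/
theorem dco_edz (s d : ℤ) : dco (edz s d) = d := by
  unfold edz
  split_ifs with h3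
  · simp only [dco, if_true]
    omega
  · simp only [dco, Bool.false_eq_true, if_false]
    omega

theorem edz_not {n M : ℕ} {F : Finset Edg} (hF : F ⊆ CE n M) {s d : ℤ}
    (hd : (M : ℤ) ≤ d ∨ d < -(M : ℤ)) : edz s d ∉ per n F := by
  intro h
  have h1 := hF h
  rw [mem_CE, dco_red, dco_edz] at h1
  omega

theorem om_out {n M : ℕ} {F : Finset Edg} (hF : F ⊆ CE n M) {j d : ℤ}
    (hd : (M : ℤ) ≤ d ∨ d < -(M : ℤ)) : om (per n F) (j, d) = decide ((j - 1 + d) % 2 = 0) := by
  rw [om_neg (p := (j, d)) rfl (edz_not hF hd)]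
  unfold edz
  split_ifs with h3
  · exact (decide_eq_true h3).symm
  · exact (decide_eq_false h3).symm

theorem Alt_om {n M : ℕ} {F : Finset Edg} (hF : F ⊆ CE n M) :
    HB.Alt (2 * n) (lowH (om (per n F))) (2 * M) := by
  intro j _
  show om (per n F) ((j : ℤ), ((2 * M : ℕ) : ℤ)) = _
  rw [om_out hF (Or.inl (by push_cast; omega))]
  rw [decide_eq_decide]
  push_cast
  omega

theorem AltS_om {n M : ℕ} {F : Finset Edg} (hF : F ⊆ CE n M) (k M' : ℕ) :
    AltS (2 * k) M' (om (per n F)) (-(2 * (M : ℤ)) - 1) := by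
  intro j _
  rw [om_out hF (Or.inr (by omega))]
  rw [decide_eq_decide]
  push_cast
  omega

/-- the connections of the sectors and the words -/
theorem key (hSF : KS.S_SFs) (hSI : KS.S_SIs) (hGL : KS.S_GLs) {n k : ℕ} (hk : 1 ≤ k) (hkn : k < n)
    {ω : ℤ × ℤ → Bool} {s K t L : ℕ} (hs : s < K) (hA : AltS (2 * k) (n - k) ω (-(2 * s : ℤ) - 1))
    (ht : t < L) (hAlt : HB.Alt (2 * n) (lowH ω) t) (n' : ℕ) (hn' : n' + 1 = 2 * n)
    (σ : Wd (n' + 1)) (q : ℕ) (hq : q < 2) (hWC : S_WCs) (hk2 : 2 ≤ k) :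
    Secc q (2 * k) (2 * n) (CH n k ω) ↔
      Gs 0 0 (2 * k) (KC.XW (2 * (n - k)) (cT (2 * k) K ω) (KC.w0 (n - k)) K)
        (rows n' (HB.crow (n' + 1) L (lowH ω)) L σ).1 := by
  have hM : 1 ≤ n - k := by omega
  have hnm : n' + 1 = 2 * k + 2 * (n - k) := by omega
  have hw := (hSF (2 * k) (n - k) K ω hM).1
  rw [Pool.Agent.H988R2.Perc.mem_LP] at hw
  obtain ⟨hwl, hwd⟩ := hw
  set w := KC.XW (2 * (n - k)) (cT (2 * k) K ω) (KC.w0 (n - k)) K with hwdef
  set u := rows n' (HB.crow (n' + 1) L (lowH ω)) L σ with hu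
  have hul : u.1.length = n' + 1 := u.2.1
  have huo : Ok u.1 := u.2.2
  rw [← hn'] at hAlt
  have key : ∀ a b : ℤ, Relation.EqvGen (HS (n' + 1) (2 * k) ω) (a, 0) (b, 0) ↔
      Relation.EqvGen (Ls (n' + 1) (2 * k) u.1 w) a b := by
    intro a b
    rw [hGL (n' + 1) (2 * k) (n - k) ω hnm (by omega) hM a b]
    apply KS.TY1.eqvGen_iff_of
    · intro a b hab
      rcases hab with hab | ⟨s', i, k', hi, hk, rfl, rfl, hik⟩
      · rw [HB.t_X3 HB.t_X1 n' L (n' + 1) t (by omega) ht (lowH ω) hAlt σ a b] at hab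
        exact Relation.EqvGen.mono (fun x y h => Ls.rw x y (KS.TY1.Lw_full h)) _ _ hab
      · apply Relation.EqvGen.rel
        exact Ls.up s' i k' (by omega) (by omega)
          ((hSI (2 * k) (n - k) K s ω hM hs hA i k' hi hk).2 hik)
    · intro a b hab
      apply Relation.EqvGen.rel
      cases hab with
      | rw _ _ h =>
        left
        rw [HB.t_X3 HB.t_X1 n' L (n' + 1) t (by omega) ht (lowH ω) hAlt σ a b]
        exact Relation.EqvGen.rel _ _ (HB.Lw.rw _ _ h)
      | up s' i k' hi hk h =>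
        right
        exact ⟨s', i, k', by omega, by omega, rfl, rfl,
          (hSI (2 * k) (n - k) K s ω hM hs hA i k' (by omega) (by omega)).1 h⟩
  have h1 := hWC q (2 * k) (n - k) u.1 w hq (by simp) (by omega) huo hwd (by omega) hwl
  rw [← h1, hul]
  have h2 : CH n k ω = Relation.EqvGen (Ls (n' + 1) (2 * k) u.1 w) := by
    funext a b
    unfold CH
    rw [← hn']
    exact propext (key a b)
  have h3 : ∀ X : ℤ → ℤ → Prop, Secc q (2 * k) (2 * n) X ↔ Secc q (2 * k) (n' + 1) X := by
    intro X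
    rw [hn']
  rw [h2]
  exact h3 _

end THG

open THG in
theorem t_HG : S_WCs → KS.S_SFs → KS.S_SIs → KS.S_GLs → S_HG := by
  intro hWC hSF hSI hGL n M k hk hkn F hF
  have hn : 0 < n := by omega
  have hMt := Mt_om hn F
  rw [P0_iff hMt, P1_iff hMt]
  have hA : HB.Alt (2 * n) (lowH (om (per n F))) (2 * M) := Alt_om hF
  have hB : AltS (2 * k) (n - k) (om (per n F)) (-(2 * (M : ℤ)) - 1) := AltS_om hF k (n - k)
  obtain ⟨n', hn'⟩ : ∃ n', n' + 1 = 2 * n := ⟨2 * n - 1, by omega⟩
  rw [key hSF hSI hGL (by omega) hkn (s := M) (K := M + 1) (t := 2 * M) (L := 2 * M + 1)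
      (by omega) hB (by omega) hA n' hn' (base n') 1 (by norm_num) hWC hk,
    key hSF hSI hGL (by omega) hkn (s := M) (K := M + 1) (t := 2 * M) (L := 2 * M + 1)
      (by omega) hB (by omega) hA n' hn' (base n') 0 (by norm_num) hWC hk]

end Pool.Agent.W808.KU
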