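import Pool.Agent.W808.KU.Stm
import Pool.Agent.H160R2.MU.T_MON

/-!
# MON: monotonicity of the probability of the arm event in the slit plane, locality
-/

set_option autoImplicit false

namespace Pool.Agent.W808.KU
open H974 H906.Cyl
open Pool.Agent.H160R2.ML (nm)
open Pool.Agent.W808.HU (sv du)
open Pool.Agent.H160R2.MU.TMON (nm_le_iff nm_tgt_le nm_src_le mem_box box_mono)

namespace TMON

theorem sbx_sub_box {k R : ℕ} {e : Edg} (he : e ∈ sbx k (R : ℤ)) : e ∈ boxE R :=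
  mem_box he.2.1 he.2.2

/-- the slit plane -/
def Hz (k : ℕ) : Set Edg := {e | 0 ≤ dco e ∨ e.1 + e.2.1 + 1 < 0 ∨ (2 * k : ℤ) ≤ e.1 + e.2.1 + 1}

theorem sbx_sub_Hz {k : ℕ} {R : ℤ} : sbx k R ⊆ Hz k := fun _ he => he.1

theorem sbx_mono {k : ℕ} {R R' : ℤ} (h : R ≤ R') : sbx k R ⊆ sbx k R' :=
  fun _ he => ⟨he.1, he.2.1.trans h, he.2.2.trans h⟩

theorem adj_sbx {k : ℕ} {R : ℤ} {G : Set Edg} (hG : G ⊆ Hz k) {b c : Vtx} (h : Adj G b c) (hb : nm b < R) :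
    Adj (G ∩ sbx k R) b c ∧ nm c ≤ R := by
  obtain ⟨e, he, h1⟩ := h
  have h3 := nm_tgt_le e
  have h4 := nm_src_le e
  rcases h1 with ⟨rfl, rfl⟩ | ⟨rfl, rfl⟩
  · exact ⟨⟨e, ⟨he, hG he, by omega, by omega⟩, Or.inl ⟨rfl, rfl⟩⟩, by omega⟩
  · exact ⟨⟨e, ⟨he, hG he, by omega, by omega⟩, Or.inr ⟨rfl, rfl⟩⟩, by omega⟩

/-- first passage at distance `R` -/
theorem pass {k : ℕ} {R : ℤ} {G : Set Edg} (hG : G ⊆ Hz k) {x y : Vtx} (hx : nm x ≤ R)
    (h : Reach G x y) (hy : R ≤ nm y) : ∃ z : Vtx, nm z = R ∧ Reach (G ∩ sbx k R) x z := by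
  have key : (nm y < R ∧ Reach (G ∩ sbx k R) x y) ∨ ∃ z : Vtx, nm z = R ∧ Reach (G ∩ sbx k R) x z := by
    clear hy
    induction h with
    | refl =>
      rcases hx.lt_or_eq with h1 | h1
      · exact Or.inl ⟨h1, Reach.refl _ _⟩
      · exact Or.inr ⟨x, h1, Reach.refl _ _⟩
    | tail _ hs ih =>
      rcases ih with ⟨h1, h2⟩ | h1
      · obtain ⟨h3, h4⟩ := adj_sbx hG hs h1
        have h5 := Reach.trans h2 h3.reach
        rcases h4.lt_or_eq with h6 | h6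
        · exact Or.inl ⟨h6, h5⟩
        · exact Or.inr ⟨_, h6, h5⟩
      · exact Or.inr h1
  rcases key with ⟨h1, _⟩ | h1
  · omega
  · exact h1

theorem sv0 (i : ℕ) : sv 0 0 i = ((i : ℤ), (i : ℤ)) := by simp [sv]

theorem sv_nm {k i : ℕ} (hi : i < k) : nm (sv 0 0 i) ≤ (k : ℤ) - 1 := by
  rw [nm_le_iff, sv0]
  simp only
  omega

theorem ses_mono {k R R' : ℕ} (hkR : k ≤ R) (hR : R ≤ R') {G : Set Edg}
    (h : SEs k (R' : ℤ) G) : SEs k (R : ℤ) G := by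
  have hR' : (R : ℤ) ≤ R' := by exact_mod_cast hR
  refine ⟨fun i j hi hj hij hc => h.1 i j hi hj hij
    (hc.mono (Set.inter_subset_inter_right _ (sbx_mono hR'))), fun i hi => ?_⟩
  obtain ⟨y, hy, hc⟩ := h.2 i hi
  have h1 := sv_nm hi
  obtain ⟨z, hz1, hz2⟩ := pass (R := (R : ℤ)) (G := G ∩ sbx k (R' : ℤ))
    (fun e he => sbx_sub_Hz he.2) (by omega) hc (by omega)
  have h2 : (G ∩ sbx k (R' : ℤ)) ∩ sbx k (R : ℤ) ⊆ G ∩ sbx k (R : ℤ) := fun e he => ⟨he.1.1, he.2⟩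
  exact ⟨z, hz1, Reach.mono h2 hz2⟩

/-- the event only depends on the edges of the box of the slit plane -/
theorem ses_congr {k : ℕ} {R : ℤ} {G G' : Set Edg} (h : ∀ e ∈ sbx k R, (e ∈ G ↔ e ∈ G')) :
    SEs k R G ↔ SEs k R G' := by
  have h1 : G ∩ sbx k R = G' ∩ sbx k R := by
    ext e
    constructor
    · exact fun he => ⟨(h e he.2).1 he.1, he.2⟩
    · exact fun he => ⟨(h e he.2).2 he.1, he.2⟩
  unfold SEs
  rw [h1]

theorem ses_local {k R : ℕ} (F : Finset Edg) :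
    SEs k (R : ℤ) (↑F : Set Edg) ↔ SEs k (R : ℤ) (↑(F ∩ boxE R) : Set Edg) := by
  refine ses_congr fun e he => ?_
  rw [Finset.mem_coe, Finset.mem_coe, Finset.mem_inter]
  exact ⟨fun h => ⟨h, sbx_sub_box he⟩, fun h => h.1⟩

end TMON

theorem t_MON : S_MON := by
  intro k R R' hk hkR hR
  have ok : Ok (fun _ : Edg => (1 / 2 : ℝ)) := fun _ => ⟨by norm_num, by norm_num⟩
  unfold sPs
  refine (Pr_mono ok fun F _ h => TMON.ses_mono hkR hR h).trans (le_of_eq ?_)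
  exact Pr_local (box_mono hR) fun F _ => TMON.ses_local F

end Pool.Agent.W808.KU
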