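import Pool.Agent.W808.KU.Stm

/-! Task RCR: the recursion. -/

set_option autoImplicit false

namespace Pool.Agent.W808.KU
open H974 H906.Cyl
open H12S (Dir hbE segD rimE H4 Crs Nr sqE)
open Pool.Agent.H160R2.ML (nm)
open Pool.Agent.H160R2.MU (Cel csq cpos prd shf BxS Bxs EP inSq PC Bad Cc)
open Pool.Agent.W808.HU (sv du labT labC Secc PTr)
open Pool.Agent.H863R2.Cyl
open Pool.Agent.H988R2.Perc (Word Dyck)
open Pool.Agent.W808.KS (Ls Gs LegS SArm coinsZ Psl)

namespace TRCR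

/-- the three steps for one family of cells -/
theorem one (hDETP : S_DETP) (hSTA : S_STA) (hSTB : S_STB) (N k : ℕ) (c : Fin k → Cel)
    (hk : 2 ≤ k) (hN : k + 4 ≤ N) (hc : AdmS N k c) (δ : ℝ) (hδ : 0 < δ) :
    ∃ C : ℝ, 0 < C ∧ ∃ r0 : ℕ, ∀ r : ℕ, r0 ≤ r → ∀ (n M : ℕ), n = prd N k * r → M = 4 * n →
    Pr (fun _ => (1 / 2 : ℝ)) (boxE (N * r)) (fun F => LandS N r k c (↑F : Set Edg)) ≤
      δ * sPs k (N * r / 2) + C * PC n M (fun F => P0 n k (per n F) ∧ Shl n k M (per n F)) := by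
  obtain ⟨CA, hCA, rA, hA⟩ := hSTA N k c hk hN hc (δ / 2) (by positivity)
  obtain ⟨CB, hCB, rB, hB⟩ := hSTB N k c hk hN hc (δ / (2 * CA)) (by positivity)
  refine ⟨CA * CB, by positivity, max (max rA rB) (max 2 k), fun r hr n M hn hM => ?_⟩
  have hrA : rA ≤ r := (le_max_left _ _).trans ((le_max_left _ _).trans hr)
  have hrB : rB ≤ r := (le_max_right _ _).trans ((le_max_left _ _).trans hr)
  have hr2 : 2 ≤ r := (le_max_left _ _).trans ((le_max_right _ _).trans hr)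
  have hrk : k ≤ r := (le_max_right _ _).trans ((le_max_right _ _).trans hr)
  have h1 := hDETP N r k c hk hN hr2 hrk hc n M hn hM
  have h2 := hA r hrA n M hn hM
  have h3 := hB r hrB n M hn hM
  have h4 := mul_le_mul_of_nonneg_left h3 hCA.le
  have h5 : CA * (δ / (2 * CA) * sPs k (N * r / 2) +
      CB * PC n M (fun F => P0 n k (per n F) ∧ Shl n k M (per n F))) =
      δ / 2 * sPs k (N * r / 2) +
        CA * CB * PC n M (fun F => P0 n k (per n F) ∧ Shl n k M (per n F)) := by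
    field_simp
  rw [h5] at h4
  linarith

theorem sPs_nonneg (k R : ℕ) : 0 ≤ sPs k R :=
  Pr_nonneg (fun _ => by norm_num) _ _

/-- all families of cells -/
theorem all (hDETP : S_DETP) (hSTA : S_STA) (hSTB : S_STB) (N k : ℕ)
    (hk : 2 ≤ k) (hN : k + 4 ≤ N) (δ : ℝ) (hδ : 0 < δ) (Cs : Finset (Fin k → Cel))
    (hCs : ∀ c ∈ Cs, AdmS N k c) :
    ∃ C : ℝ, 0 ≤ C ∧ ∃ r0 : ℕ, ∀ r : ℕ, r0 ≤ r → ∀ (n M : ℕ), n = prd N k * r → M = 4 * n →
    ∑ c ∈ Cs, Pr (fun _ => (1 / 2 : ℝ)) (boxE (N * r)) (fun F => LandS N r k c (↑F : Set Edg)) ≤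
      Cs.card * (δ * sPs k (N * r / 2)) +
        C * PC n M (fun F => P0 n k (per n F) ∧ Shl n k M (per n F)) := by
  classical
  induction Cs using Finset.induction_on with
  | empty =>
    refine ⟨0, le_rfl, 0, fun r _ n M _ _ => ?_⟩
    simp
  | insert c Cs hcn ih =>
    obtain ⟨C1, hC1, r1, h1⟩ := ih fun c' hc' => hCs c' (Finset.mem_insert_of_mem hc')
    obtain ⟨C2, hC2, r2, h2⟩ := one hDETP hSTA hSTB N k c hk hN
      (hCs c (Finset.mem_insert_self _ _)) δ hδ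
    refine ⟨C2 + C1, by positivity, max r1 r2, fun r hr n M hn hM => ?_⟩
    have h3 := h1 r ((le_max_left _ _).trans hr) n M hn hM
    have h4 := h2 r ((le_max_right _ _).trans hr) n M hn hM
    rw [Finset.sum_insert hcn, Finset.card_insert_of_notMem hcn]
    push_cast
    linarith

end TRCR

theorem t_RCR : S_LAND → S_DETP → S_STA → S_STB → S_FIN → Pool.Agent.W808.KS.S_LAW →
    Pool.Agent.W808.KS.S_ASs → S_RCR := by
  classical
  intro hLAND hDETP hSTA hSTB hFIN hLAW hAS k hk δ hδ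
  obtain ⟨N, hN, Cs, hCs, r1, hL⟩ := hLAND k hk (δ / 2) (by positivity)
  obtain ⟨K, hK, r2, hall⟩ := TRCR.all hDETP hSTA hSTB N k hk hN (δ / (2 * (Cs.card + 1)))
    (by positivity) Cs hCs
  obtain ⟨_, C, -, hC, hPn⟩ := hAS (2 * k) (by omega)
  set e : ℝ := (k : ℝ) * (2 * k - 1) / 6 with he
  have he1 : (((2 * k : ℕ) : ℝ) * (((2 * k : ℕ) : ℝ) - 1) / 12) = e := by
    rw [he]; push_cast; ring
  have he0 : 0 ≤ e := by
    have : (2 : ℝ) ≤ k := by exact_mod_cast hk
    rw [he]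
    have h1 : (0 : ℝ) ≤ 2 * k - 1 := by linarith
    positivity
  refine ⟨N, hN, K * C + 1, by positivity, max (max r1 r2) 1, fun r hr => ?_⟩
  have hr1 : r1 ≤ r := (le_max_left _ _).trans ((le_max_left _ _).trans hr)
  have hr2 : r2 ≤ r := (le_max_right _ _).trans ((le_max_left _ _).trans hr)
  have hr0 : 1 ≤ r := (le_max_right _ _).trans hr
  have hprd : k + 1 ≤ prd N k := by unfold prd; omega
  set n : ℕ := prd N k * r with hn
  have hkn : k < n := by
    rw [hn]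
    calc k < k + 1 := Nat.lt_succ_self k
      _ = (k + 1) * 1 := (mul_one _).symm
      _ ≤ prd N k * r := Nat.mul_le_mul hprd hr0
  have hrn : r ≤ n - k := by
    have h1 : (k + 1) * r ≤ n := by rw [hn]; exact Nat.mul_le_mul_right r hprd
    have h2 : (k + 1) * r = k * r + r := by ring
    have h3 : k * 1 ≤ k * r := Nat.mul_le_mul_left _ hr0
    omega
  have hS := TRCR.sPs_nonneg k (N * r / 2)
  -- the exact law
  have hex : PC n (4 * n) (fun F => P0 n k (per n F) ∧ Shl n k (4 * n) (per n F)) ≤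
      C * (r : ℝ) ^ (-e) := by
    refine (hFIN n (4 * n) k hk hkn (by omega)).trans ?_
    have h1 := hLAW (2 * k) (n - k) (by omega) (by omega)
    have h2 : 2 * k + 2 * (n - k) = 2 * n := by omega
    rw [h2] at h1
    rw [h1]
    refine (hPn (n - k) (by omega)).2.trans ?_
    rw [he1]
    refine mul_le_mul_of_nonneg_left ?_ hC.le
    refine Real.rpow_le_rpow_of_nonpos (by exact_mod_cast hr0) ?_ (by linarith)
    exact_mod_cast hrn
  have h1 := hL r hr1
  have h2 := hall r hr2 n (4 * n) hn rfl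
  have h3 : (Cs.card : ℝ) * (δ / (2 * (Cs.card + 1)) * sPs k (N * r / 2)) ≤
      δ / 2 * sPs k (N * r / 2) := by
    have h4 : (Cs.card : ℝ) * (δ / (2 * (Cs.card + 1))) ≤ δ / 2 := by
      have h5 : (0 : ℝ) ≤ Cs.card := Nat.cast_nonneg _
      rw [mul_div_assoc', div_le_div_iff₀ (by positivity) (by norm_num)]
      nlinarith
    rw [← mul_assoc]
    exact mul_le_mul_of_nonneg_right h4 hS
  have hfin : K * PC n (4 * n) (fun F => P0 n k (per n F) ∧ Shl n k (4 * n) (per n F)) ≤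
      (K * C + 1) * (r : ℝ) ^ (-e) := by
    have h1 := mul_le_mul_of_nonneg_left hex hK
    have h2 : 0 ≤ (r : ℝ) ^ (-e) := Real.rpow_nonneg (Nat.cast_nonneg _) _
    nlinarith
  linarith

end Pool.Agent.W808.KU
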