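import Pool.Agent.W808.KU.Stm

/-! Task SHARP: lower and upper bound. -/

set_option autoImplicit false

namespace Pool.Agent.W808.KU
open H974 H906.Cyl
open H12S (Dir hbE segD rimE H4 Crs Nr sqE)
open Pool.Agent.H160R2.ML (nm)
open Pool.Agent.H160R2.MU (Cel csq cpos prd shf BxS Bxs EP inSq PC Bad Cc)
open Pool.Agent.W808.HU (sv du labT labC Secc PTr)
open Pool.Agent.H863R2.Cyl
open Pool.Agent.H988R2.Perc (Word Dyck)
open Pool.Agent.W808.KS (Ls Gs LegS SArm coinsZ Psl)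

theorem t_SHARP : Pool.Agent.W808.KS.S_LBs → S_CMP → S_UB → S_SHARP := by
  intro hLB hCMP hUB k hk
  obtain ⟨c, hc, hL⟩ := hLB (2 * k) (by omega)
  obtain ⟨C, hC, hU⟩ := hUB k hk
  set e : ℝ := (k : ℝ) * (2 * k - 1) / 6 with he
  have he1 : (((2 * k : ℕ) : ℝ) * (((2 * k : ℕ) : ℝ) - 1) / 12) = e := by
    rw [he]; push_cast; ring
  have he0 : 0 ≤ e := by
    have : (2 : ℝ) ≤ k := by exact_mod_cast hk
    rw [he]
    have h1 : (0 : ℝ) ≤ 2 * k - 1 := by linarith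
    positivity
  have h3 : (0 : ℝ) < 3 ^ (-e) := Real.rpow_pos_of_pos (by norm_num) _
  refine ⟨c * 3 ^ (-e), C, by positivity, hC, fun R hR => ⟨?_, hU R hR⟩⟩
  have h1 := hL (2 * R + 1) (by omega)
  rw [he1] at h1
  have h2 := hCMP k (2 * R + 1) R (by omega) hR le_rfl
  refine le_trans ?_ (h1.trans h2)
  rw [mul_assoc]
  refine mul_le_mul_of_nonneg_left ?_ hc.le
  have hR1 : (1 : ℝ) ≤ R := by exact_mod_cast (by omega : 1 ≤ R)
  rw [← Real.mul_rpow (by norm_num) (by linarith)]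
  refine Real.rpow_le_rpow_of_nonpos (by positivity) ?_ (by linarith)
  push_cast
  linarith

end Pool.Agent.W808.KU
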