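import Pool.Agent.W808.KU.Stm
import Pool.Agent.W808.HU.T_STA
import Pool.Agent.H160R2.MU.T_STA

/-!
# Upper bounds for the odd arm events in the slit plane: re-randomising the tubes (class 1)
-/

set_option autoImplicit false

namespace Pool.Agent.W808.KU
open H974 H906.Cyl
open H12S (Dir hbE segD rimE H4 Crs Nr sqE)
open Pool.Agent.H160R2.ML (nm)
open Pool.Agent.H160R2.MU (Cel csq cpos prd shf BxS Bxs EP inSq PC Bad Cc)
open Pool.Agent.W808.HU (sv du labT labC PTr)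

namespace TSTA

open Pool.Agent.H160R2.MU.TSTA (eqv_iff eqv_mono eqv_inv eqv_map)

open Pool.Agent.W808.HU.TSTA (te tv src_te tgt_te dco_te te_te te_zero te_neg du_te dco_du red_te red_eq
  te_of_red du_inj Peri shf_shf peri_Bxs EP_te EP_red reach_iff mem_Cc aux1 aux2 aux3)

theorem Es_te (n k : ℕ) (q : ℤ) (e : Edg) : te n q e ∈ Es n k ↔ e ∈ Es n k := by
  show (0 ≤ dco (te n q e) ∨ (2 * k : ℤ) ≤ ((te n q e).1 + (te n q e).2.1 + 1) % (2 * n : ℕ)) ↔
    (0 ≤ dco e ∨ (2 * k : ℤ) ≤ (e.1 + e.2.1 + 1) % (2 * n : ℕ))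
  rw [dco_te]
  have e1 : (te n q e).1 + (te n q e).2.1 + 1 = e.1 + e.2.1 + 1 + ((2 * n : ℕ) : ℤ) * q := by
    unfold te
    push_cast
    ring
  rw [e1, Int.add_mul_emod_self_left]

theorem peri_CrrS (N k : ℕ) (c : Fin k → Cel) : Peri N k (CrrS N k c) := by
  rintro z q ⟨L, i, s, h, _, h2⟩
  refine ⟨labT k i (s - q), i, s - q, h, rfl, ?_⟩
  rw [shf_shf, sub_add_cancel]
  exact h2

/-! ### the two configurations -/

section
variable {N r k n M : ℕ} {c : Fin k → Cel}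

/-- the standing assumptions -/
structure St (N r k n M : ℕ) (c : Fin k → Cel) : Prop where
  hn : n = prd N k * r
  hn1 : 1 ≤ n
  hM : M = 4 * n
  hb : ∀ e ∈ EP r (Bxs N k) ∪ EP r (CrrS N k c), -(2 * (n : ℤ)) ≤ dco e ∧ dco e + 1 ≤ 2 * n

theorem St.ce (h : St N r k n M c) {e : Edg} (he : e ∈ EP r (Bxs N k) ∨ e ∈ EP r (CrrS N k c)) :
    red n e ∈ CE n M := by
  have h1 := h.hb e he
  have h2 := h.hM
  have h3 := h.hn1
  exact red_mem (by omega) (by omega) (by omega)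

theorem A_eq (h : St N r k n M c) {F : Finset Edg} (e : Edg) :
    e ∈ dl n k (per n (FA N r k c n M F)) ↔ du e ∈ Es n k ∧
      ((du e ∈ EP r (Bxs N k) ∧ red n (du e) ∉ F) ∨
        (du e ∉ EP r (Bxs N k) ∧ du e ∉ EP r (CrrS N k c))) := by
  classical
  show (du e ∈ Es n k ∧ red n (du e) ∉ FA N r k c n M F) ↔ _
  unfold FA
  rw [Finset.mem_filter, EP_red (peri_Bxs N k) h.hn, EP_red (peri_CrrS N k c) h.hn]
  have h1 := @St.ce _ _ _ _ _ _ h (du e)
  tauto

theorem B_eq (h : St N r k n M c) {F : Finset Edg} (e : Edg) :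
    e ∈ dl n k (per n (FB N r k c n M F)) ↔ du e ∈ Es n k ∧
      (((du e ∈ EP r (Bxs N k) ∨ du e ∈ EP r (CrrS N k c)) ∧ red n (du e) ∉ F) ∨
        (du e ∉ EP r (Bxs N k) ∧ du e ∉ EP r (CrrS N k c))) := by
  classical
  show (du e ∈ Es n k ∧ red n (du e) ∉ FB N r k c n M F) ↔ _
  unfold FB
  rw [Finset.mem_filter, EP_red (peri_Bxs N k) h.hn, EP_red (peri_CrrS N k c) h.hn]
  have h1 := @St.ce _ _ _ _ _ _ h (du e)
  tauto

/-- the dual edges of the boxes and of the closed region -/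
def ST (N r k n : ℕ) (c : Fin k → Cel) : Set Edg :=
  {e | du e ∈ Es n k ∧ (du e ∈ EP r (Bxs N k) ∨ du e ∉ EP r (CrrS N k c))}

/-- the dual edges of the tubes -/
def SD (N r k n : ℕ) (c : Fin k → Cel) : Set Edg :=
  {e | du e ∈ Es n k ∧ du e ∉ EP r (Bxs N k) ∧ du e ∈ EP r (CrrS N k c)}

theorem AT_eq (h : St N r k n M c) {F : Finset Edg} :
    dl n k (per n (FA N r k c n M F)) ∩ ST N r k n c = dl n k (per n (FA N r k c n M F)) := by
  apply Set.inter_eq_left.2
  intro e he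
  rw [A_eq h] at he
  exact ⟨he.1, he.2.imp (fun h => h.1) (fun h => h.2)⟩

/-! ### the exploration -/

/-- the explored faces -/
def KK (N r k : ℕ) (c : Fin k → Cel) (n M : ℕ) (F : Finset Edg) (u : Vtx) : Prop :=
  ∃ x : Vtx, XA N r k c n x ∧ R1 n k (dl n k (per n (FA N r k c n M F))) x u

theorem KK_R1 {F : Finset Edg} {u v : Vtx} (h : R1 n k (dl n k (per n (FA N r k c n M F))) u v) :
    KK N r k c n M F u ↔ KK N r k c n M F v := by
  constructor
  · rintro ⟨x, hx, h1⟩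
    exact ⟨x, hx, Relation.EqvGen.trans _ _ _ h1 h⟩
  · rintro ⟨x, hx, h1⟩
    exact ⟨x, hx, Relation.EqvGen.trans _ _ _ h1 (Relation.EqvGen.symm _ _ h)⟩

theorem tv_sv (q s : ℤ) (i : ℕ) : tv n q (sv n s i) = sv n (s + q) i := by
  unfold tv sv
  simp only [Prod.mk.injEq]
  constructor <;> ring

theorem tv_wl (q s : ℤ) (i : ℕ) : tv n q (s * n - 1 - i, s * n - 1 + i) =
    ((s + q) * n - 1 - i, (s + q) * n - 1 + i) := by
  unfold tv
  simp only [Prod.mk.injEq]
  constructor <;> ring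

theorem tv_wr (q s : ℤ) (i : ℕ) : tv n q (s * n + k - 1 - i, s * n + k - 1 + i) =
    ((s + q) * n + k - 1 - i, (s + q) * n + k - 1 + i) := by
  unfold tv
  simp only [Prod.mk.injEq]
  constructor <;> ring

theorem XA_tv (h : St N r k n M c) {p : Vtx} (hp : XA N r k c n p) (q : ℤ) :
    XA N r k c n (tv n q p) := by
  rcases hp with ⟨s, i, h1 | h1 | ⟨h0, h1⟩⟩ | ⟨e, h1, h2, h3, h4⟩
  · exact Or.inl ⟨s + q, i, Or.inl (by rw [h1, tv_wl])⟩
  · exact Or.inl ⟨s + q, i, Or.inr (Or.inl (by rw [h1, tv_wr]))⟩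
  · exact Or.inl ⟨s + q, i, Or.inr (Or.inr ⟨h0, by rw [h1, tv_sv]⟩)⟩
  · right
    refine ⟨te n q e, by rw [du_te, Es_te]; exact h1, ?_, ?_, ?_⟩
    · rw [du_te, EP_te (peri_Bxs N k) h.hn]; exact h2
    · rw [du_te, EP_te (peri_CrrS N k c) h.hn]; exact h3
    · rw [src_te, tgt_te]
      exact h4.imp (fun h => by rw [h]) (fun h => by rw [h])

theorem W1_tv {u v : Vtx} (h : W1 n k u v) (q : ℤ) : W1 n k (tv n q u) (tv n q v) := by
  cases h with
  | wl s i =>
    have h1 := W1.wl (n := n) (k := k) (s + q) i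
    have e1 : ((s + q) * n - 1 - i, (s + q) * n - 1 + i) = tv n q (s * n - 1 - i, s * n - 1 + i) :=
      (tv_wl q s i).symm
    have e2 : ((s + q) * n - 1 - i - 1, (s + q) * n - 1 + i + 1) =
        tv n q (s * n - 1 - i - 1, s * n - 1 + i + 1) := by
      unfold tv
      simp only [Prod.mk.injEq]
      constructor <;> ring
    rw [e1, e2] at h1
    exact h1
  | wr s i =>
    have h1 := W1.wr (n := n) (k := k) (s + q) i
    have e1 : ((s + q) * n + k - 1 - i, (s + q) * n + k - 1 + i) =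
        tv n q (s * n + k - 1 - i, s * n + k - 1 + i) := (tv_wr q s i).symm
    have e2 : ((s + q) * n + k - 1 - i - 1, (s + q) * n + k - 1 + i + 1) =
        tv n q (s * n + k - 1 - i - 1, s * n + k - 1 + i + 1) := by
      unfold tv
      simp only [Prod.mk.injEq]
      constructor <;> ring
    rw [e1, e2] at h1
    exact h1

theorem R1_tv (h : St N r k n M c) {F : Finset Edg} {u v : Vtx}
    (h1 : R1 n k (dl n k (per n (FA N r k c n M F))) u v) (q : ℤ) :
    R1 n k (dl n k (per n (FA N r k c n M F))) (tv n q u) (tv n q v) := by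
  refine eqv_map (tv n q) ?_ h1
  rintro a b (hab | ⟨e, he, rfl, rfl⟩)
  · exact Or.inl (W1_tv hab q)
  · refine Or.inr ⟨te n q e, ?_, src_te n q e, tgt_te n q e⟩
    refine ⟨by rw [du_te, Es_te]; exact he.1, ?_⟩
    intro h2
    apply he.2
    rw [du_te] at h2
    have h3 : red n (te n q (du e)) ∈ FA N r k c n M F := h2
    rw [red_te h.hn1] at h3
    exact h3

theorem KK_tv (h : St N r k n M c) {F : Finset Edg} {u : Vtx} (h1 : KK N r k c n M F u) (q : ℤ) :
    KK N r k c n M F (tv n q u) := by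
  obtain ⟨x, hx, h2⟩ := h1
  exact ⟨tv n q x, XA_tv h hx q, R1_tv h h2 q⟩

theorem KK_agree (h : St N r k n M c) {F F' : Finset Edg}
    (hF : ∀ e : Edg, du e ∈ Es n k → du e ∈ EP r (Bxs N k) →
      (KK N r k c n M F (src e) ∨ KK N r k c n M F (tgt e)) →
      (red n (du e) ∈ F' ↔ red n (du e) ∈ F)) (u : Vtx) :
    KK N r k c n M F' u ↔ KK N r k c n M F u := by
  have hK : ∀ x, XA N r k c n x → KK N r k c n M F x := fun x hx =>
    ⟨x, hx, Relation.EqvGen.refl _⟩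
  -- an edge of one configuration which touches the explored set is an edge of the other
  have hE : ∀ e : Edg, (KK N r k c n M F (src e) ∨ KK N r k c n M F (tgt e)) →
      (e ∈ dl n k (per n (FA N r k c n M F')) ↔ e ∈ dl n k (per n (FA N r k c n M F))) := by
    intro e he
    rw [A_eq h, A_eq h]
    have := fun h0 h1 => hF e h0 h1 he
    tauto
  have hP : ∀ a b : Vtx, (W1 n k a b ∨ ∃ e ∈ dl n k (per n (FA N r k c n M F')), src e = a ∧ tgt e = b) →
      (KK N r k c n M F a ↔ KK N r k c n M F b) := by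
    rintro a b (hab | ⟨e, he, rfl, rfl⟩)
    · exact KK_R1 (Relation.EqvGen.rel _ _ (Or.inl hab))
    · by_cases h1 : KK N r k c n M F (src e) ∨ KK N r k c n M F (tgt e)
      · exact KK_R1 (Relation.EqvGen.rel _ _ (Or.inr ⟨e, (hE e h1).1 he, rfl, rfl⟩))
      · push Not at h1
        exact ⟨fun h2 => absurd h2 h1.1, fun h2 => absurd h2 h1.2⟩
  constructor
  · rintro ⟨x, hx, h1⟩
    exact (eqv_iff hP h1).1 (hK x hx)
  · rintro ⟨x, hx, h1⟩
    refine ⟨x, hx, eqv_inv (P := KK N r k c n M F) ?_ ?_ h1 (hK x hx)⟩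
    · intro a b hab
      exact KK_R1 (Relation.EqvGen.rel _ _ hab)
    · rintro a b (hab | ⟨e, he, rfl, rfl⟩) ha
      · exact Or.inl hab
      · exact Or.inr ⟨e, (hE e (Or.inl ha)).2 he, rfl, rfl⟩

open Classical in
/-- the explored squares -/
noncomputable def Xp (N r k : ℕ) (c : Fin k → Cel) (n M : ℕ) (F : Finset Edg) : Finset Edg :=
  (CE n M).filter (fun e' => e' ∈ EP r (Bxs N k) ∧ ∃ e : Edg, du e ∈ Es n k ∧ red n (du e) = e' ∧
    (KK N r k c n M F (src e) ∨ KK N r k c n M F (tgt e)))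

theorem mem_Xp0 {F : Finset Edg} {e' : Edg} : e' ∈ Xp N r k c n M F ↔
    e' ∈ CE n M ∧ e' ∈ EP r (Bxs N k) ∧ ∃ e : Edg, du e ∈ Es n k ∧ red n (du e) = e' ∧
    (KK N r k c n M F (src e) ∨ KK N r k c n M F (tgt e)) := by
  classical
  unfold Xp
  rw [Finset.mem_filter]

theorem mem_Xp (h : St N r k n M c) {F : Finset Edg} {e : Edg} (he : du e ∈ Es n k) :
    red n (du e) ∈ Xp N r k c n M F ↔ du e ∈ EP r (Bxs N k) ∧
    (KK N r k c n M F (src e) ∨ KK N r k c n M F (tgt e)) := by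
  rw [mem_Xp0, EP_red (peri_Bxs N k) h.hn]
  constructor
  · rintro ⟨_, h2, e', h3, h4, h5⟩
    refine ⟨h2, ?_⟩
    obtain ⟨q, hq⟩ := te_of_red h4
    rw [← du_te] at hq
    have h6 := du_inj hq
    rw [h6, src_te, tgt_te]
    exact h5.imp (fun h7 => KK_tv h h7 q) (fun h7 => KK_tv h h7 q)
  · rintro ⟨h1, h2⟩
    exact ⟨h.ce (Or.inl h1), h1, e, he, rfl, h2⟩

/-- the re-randomised configuration -/
noncomputable def mx (N r k : ℕ) (c : Fin k → Cel) (n M : ℕ) (F G : Finset Edg) :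
    Finset Edg := (F ∩ Xp N r k c n M F) ∪ (G \ Xp N r k c n M F)

theorem mem_mx {F G : Finset Edg} {e : Edg} :
    (e ∈ Xp N r k c n M F → (e ∈ mx N r k c n M F G ↔ e ∈ F)) ∧
    (e ∉ Xp N r k c n M F → (e ∈ mx N r k c n M F G ↔ e ∈ G)) := by
  unfold mx
  rw [Finset.mem_union, Finset.mem_inter, Finset.mem_sdiff]
  tauto

theorem Xp_mx (h : St N r k n M c) {F G : Finset Edg} :
    Xp N r k c n M (mx N r k c n M F G) = Xp N r k c n M F := by
  have h1 : ∀ u, KK N r k c n M (mx N r k c n M F G) u ↔ KK N r k c n M F u := by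
    refine KK_agree h ?_
    intro e he h1 h2
    exact mem_mx.1 ((mem_Xp h he).2 ⟨h1, h2⟩)
  ext e'
  rw [mem_Xp0, mem_Xp0]
  simp only [h1]

/-- the faces of the tubes -/
def Dp (N r k n : ℕ) (c : Fin k → Cel) (u : Vtx) : Prop :=
  ∃ e ∈ SD N r k n c, ∃ w, (src e = u ∧ tgt e = w) ∨ (src e = w ∧ tgt e = u)

theorem Dp_band (h : St N r k n M c) {u : Vtx} (hu : Dp N r k n c u) : |u.1 - u.2| ≤ 2 * n := by
  obtain ⟨e, he, w, h1⟩ := hu
  have h2 := h.hb _ (Or.inr he.2.2)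
  rw [dco_du] at h2
  obtain ⟨x, y, b⟩ := e
  rw [abs_le]
  cases b
  · simp only [dco, Bool.false_eq_true, if_false] at h2
    simp only [src_mk, tgt_false] at h1
    rcases h1 with ⟨rfl, -⟩ | ⟨-, rfl⟩
    · simp only; omega
    · simp only; omega
  · simp only [dco, if_true] at h2
    simp only [src_mk, tgt_true] at h1
    rcases h1 with ⟨rfl, -⟩ | ⟨-, rfl⟩
    · simp only; omega
    · simp only; omega

theorem sv_XA (s : ℤ) (i : ℕ) (hi : i < k) : XA N r k c n (sv n s i) := by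
  by_cases h : i + 1 < k
  · exact Or.inl ⟨s, i, Or.inr (Or.inr ⟨h, rfl⟩)⟩
  · refine Or.inl ⟨s, 0, Or.inr (Or.inl ?_)⟩
    unfold sv
    simp only [Prod.mk.injEq]
    push_cast
    omega

theorem wall_XA : XA N r k c n (-1, -1) := by
  refine Or.inl ⟨0, 0, Or.inl ?_⟩
  simp

theorem wire_XA {u v : Vtx} (h : W1 n k u v) : XA N r k c n u ∧ XA N r k c n v := by
  cases h with
  | wl s i =>
    refine ⟨Or.inl ⟨s, i, Or.inl rfl⟩, Or.inl ⟨s, i + 1, Or.inl ?_⟩⟩
    simp only [Prod.mk.injEq]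
    push_cast
    constructor <;> ring
  | wr s i =>
    refine ⟨Or.inl ⟨s, i, Or.inr (Or.inl rfl)⟩, Or.inl ⟨s, i + 1, Or.inr (Or.inl ?_)⟩⟩
    simp only [Prod.mk.injEq]
    push_cast
    constructor <;> ring

/-- **the clusters of the marked points do not merge** -/
theorem stay (hABS : Pool.Agent.H160R2.MU.S_ABS) (hSEPA : S_SEPA) {ρ l : ℕ} (hk : 2 ≤ k)
    (hN : k + 4 ≤ N) (hc : AdmS N k c) (hl : 1 ≤ l) (hlρ : 32 * l ≤ ρ) (hρ : 32 * ρ ≤ r) (hkρ : 4 * k ≤ ρ)
    (h : St N r k n M c) {F G : Finset Edg}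
    (hF : F ⊆ CE n M) (hBad : ¬ Bad 1 N r ρ l (prd N k) n M F) (hT : PTr 1 n M l G)
    {x x' : Vtx} (hx : XA N r k c n x) (hx' : XA N r k c n x') :
    R1 n k (dl n k (per n (FB N r k c n M (mx N r k c n M F G)))) x x' ↔
      R1 n k (dl n k (per n (FA N r k c n M F))) x x' := by
  have hR : ∀ B : Set Edg, R1 n k B = Relation.EqvGen (fun u v => (False ∨ W1 n k u v ∨
      ∃ e ∈ B, src e = u ∧ tgt e = v)) := by
    intro B
    unfold R1
    simp only [false_or]
  have hmain := hABS Vtx Edg (fun e u v => src e = u ∧ tgt e = v) (fun _ _ => False) (W1 n k)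
    (ST N r k n c) (SD N r k n c) (dl n k (per n (FA N r k c n M F))) (Cc 1 n M G)
    (dl n k (per n (FB N r k c n M (mx N r k c n M F G))))
    {p | XA N r k c n p} (fun u v => Nr (4 * l) u v) (R1 n k)
    (KK N r k c n M F) (Dp N r k n c) hR
  rw [AT_eq h] at hmain
  refine hmain ?_ ?_ ?_ ?_ ?_ ?_ ?_ ?_ ?_ ?_ x hx x' hx'
  · intro u; exact Iff.rfl
  · intro u; exact Iff.rfl
  · intro u v huv
    exact wire_XA huv
  · rintro e he ⟨u, v, ⟨rfl, rfl⟩, h2⟩
    refine ⟨?_, ?_⟩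
    · rintro u' v' ⟨rfl, rfl⟩
      exact h2
    · rw [B_eq h, A_eq h]
      have h3 : du e ∈ EP r (Bxs N k) → (red n (du e) ∈ mx N r k c n M F G ↔ red n (du e) ∈ F) :=
        fun h4 => mem_mx.1 ((mem_Xp h he.1).2 ⟨h4, h2⟩)
      exact aux1 h3 he.2
  · intro e he h1 h2
    obtain ⟨h3, h4⟩ := h1 _ _ ⟨rfl, rfl⟩
    rw [B_eq h] at h2
    have h5 : du e ∈ EP r (Bxs N k) := by
      by_contra h5
      have h6 : du e ∉ EP r (CrrS N k c) := he.2.resolve_left h5
      exact h3 ⟨src e, Or.inr ⟨e, he.1, h5, h6, Or.inl rfl⟩, Relation.EqvGen.refl _⟩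
    have h6 : red n (du e) ∉ Xp N r k c n M F := by
      rw [mem_Xp h he.1]
      rintro ⟨_, h7 | h7⟩
      · exact h3 h7
      · exact h4 h7
    have h7 : red n (du e) ∉ mx N r k c n M F G := aux2 h2 (Or.inl h5)
    have h8 : red n (du e) ∉ G := fun h9 => h7 ((mem_mx.2 h6).2 h9)
    have h9 := h.hb _ (Or.inl h5)
    rw [dco_du] at h9
    have h10 := h.hM
    have h11 := h.hn1
    exact mem_Cc (by omega) (by omega) h8
  · intro e he
    exact aux3 he.1
  · intro e he h2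
    rw [B_eq h] at h2
    have h6 : red n (du e) ∉ Xp N r k c n M F := by
      rw [mem_Xp h he.1]
      exact fun h7 => he.2.1 h7.1
    have h7 : red n (du e) ∉ mx N r k c n M F G := aux2 h2 (Or.inr he.2.2)
    have h8 : red n (du e) ∉ G := fun h9 => h7 ((mem_mx.2 h6).2 h9)
    have h9 := h.hb _ (Or.inr he.2.2)
    rw [dco_du] at h9
    have h10 := h.hM
    have h11 := h.hn1
    exact mem_Cc (by omega) (by omega) h8
  · rw [Set.disjoint_left]
    intro e h1 h2
    exact h1.2.elim h2.2.1 (fun h3 => h3 h2.2.2)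
  · intro u v hu hDu huv
    refine hT u v (Dp_band h hDu) ((reach_iff _ _ _).2 (eqv_mono ?_ huv))
    rintro a b (hab | hab)
    · exact hab.elim
    · exact hab
  · intro x hx x' hx' u u' h1 h2 hu hu' hnear
    obtain ⟨e, he, w, h3⟩ := hu
    obtain ⟨e', he', w', h3'⟩ := hu'
    exact hSEPA N r k ρ l c hk hN hc hl hlρ hρ hkρ n M h.hn h.hM F hF hBad x x' u u' hx hx' h1 h2
      ⟨e, he.1, he.2.1, he.2.2, h3.imp (fun h => h.1) (fun h => h.2)⟩
      ⟨e', he'.1, he'.2.1, he'.2.2, h3'.imp (fun h => h.1) (fun h => h.2)⟩ hnear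

theorem P1_stay (hABS : Pool.Agent.H160R2.MU.S_ABS) (hSEPA : S_SEPA) {ρ l : ℕ} (hk : 2 ≤ k)
    (hN : k + 4 ≤ N) (hc : AdmS N k c) (hl : 1 ≤ l) (hlρ : 32 * l ≤ ρ) (hρ : 32 * ρ ≤ r) (hkρ : 4 * k ≤ ρ)
    (h : St N r k n M c) {F G : Finset Edg}
    (hF : F ⊆ CE n M) (hBad : ¬ Bad 1 N r ρ l (prd N k) n M F) (hT : PTr 1 n M l G)
    (h1 : P1 n k (per n (FA N r k c n M F))) :
    P1 n k (per n (FB N r k c n M (mx N r k c n M F G))) := by
  have key := fun (x x' : Vtx) (hx : XA N r k c n x) (hx' : XA N r k c n x') =>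
    stay hABS hSEPA hk hN hc hl hlρ hρ hkρ h hF hBad hT hx hx'
  refine ⟨?_, ?_, ?_⟩
  · intro i j hi hj hij h2
    exact h1.1 i j hi hj hij ((key _ _ (sv_XA 0 i (by omega)) (sv_XA 0 j hj)).1 h2)
  · intro i hi h2
    exact h1.2.1 i hi ((key _ _ (sv_XA 0 i (by omega)) wall_XA).1 h2)
  · intro i hi
    obtain ⟨s, hs, j, hj, h2⟩ := h1.2.2 i hi
    exact ⟨s, hs, j, hj, (key _ _ (sv_XA 0 i (by omega)) (sv_XA s j (by omega))).2 h2⟩

theorem FA_sub {F : Finset Edg} : FA N r k c n M F ⊆ CE n M := by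
  classical
  unfold FA
  exact Finset.filter_subset _ _

theorem FB_sub {F : Finset Edg} : FB N r k c n M F ⊆ CE n M := by
  classical
  unfold FB
  exact Finset.filter_subset _ _

theorem FA_box (hr : 1 ≤ r) (hN : 1 ≤ N) (hn : n = prd N k * r) {F : Finset Edg}
    (hF : F ⊆ CE n M) :
    ∀ e ∈ boxE (N * r / 2), red n e ∈ FA N r k c n M F ↔ red n e ∈ F := by
  classical
  intro e he
  have h := Pool.Agent.H160R2.MU.TSTA.red_box (k := k) hr hN hn he
  unfold FA
  rw [Finset.mem_filter]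
  constructor
  · rintro ⟨_, h1 | h1⟩
    · exact h1.2
    · exact absurd h h1.1
  · intro h1
    exact ⟨hF h1, Or.inl ⟨h, h1⟩⟩

end

end TSTA

/-- **the tubes are re-randomised: class 1** -/
theorem t_STA : Pool.Agent.H160R2.MU.S_ABS → Pool.Agent.H160R2.MU.S_PRB → S_SEPA → Pool.Agent.W808.HU.S_TRP →
    Pool.Agent.H160R2.MU.S_BADP → S_DEC → S_IND → S_k4 → S_k5 → S_HG → S_STA := by
  intro hABS hPRB hSEPA hTRAP hBADP hDEC hIND hk4 _ hG N k c hk hN hc δ hδ
  have hν : 4 * N ≤ prd N k := by unfold prd; omega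
  obtain ⟨M3, M4, hM3, hM4, hB⟩ := hBADP N (prd N k) (by omega) hν δ hδ
  obtain ⟨κ, hκ, r0, hT⟩ := hTRAP (prd N k) M4 (by omega) (by omega)
  refine ⟨1 / κ, by positivity, max (max r0 M4) (4 * k * M3), ?_⟩
  intro r hr n M hn hM
  have hr1 : r0 ≤ r := le_trans (le_trans (le_max_left _ _) (le_max_left _ _)) hr
  have hr2 : M4 ≤ r := le_trans (le_trans (le_max_right _ _) (le_max_left _ _)) hr
  have hr3 : 4 * k * M3 ≤ r := le_trans (le_max_right _ _) hr
  have hkρ : 4 * k ≤ r / M3 := by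
    rw [Nat.le_div_iff_mul_le (by omega)]
    exact hr3
  have hrb : 64 * 64 ≤ r := by omega
  have hl : 1 ≤ r / M4 := (Nat.one_le_div_iff (by omega)).2 hr2
  have hρ : 32 * (r / M3) ≤ r := by
    have h1 : M3 * (r / M3) ≤ r := Nat.mul_div_le r M3
    nlinarith [Nat.zero_le (r / M3)]
  have hlρ : 32 * (r / M4) ≤ r / M3 := by
    rw [Nat.le_div_iff_mul_le (by omega)]
    have h1 : M4 * (r / M4) ≤ r := Nat.mul_div_le r M4
    nlinarith [Nat.zero_le (r / M4), Nat.mul_le_mul_right (r / M4) hM4]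
  have hprd : 24 ≤ prd N k := by unfold prd; omega
  have hprd2 : prd N k = 4 * N + 16 * k := by unfold prd; ring
  have hkp : k ≤ prd N k := by unfold prd; omega
  have hnr : prd N k ≤ n := by rw [hn]; exact Nat.le_mul_of_pos_right _ (by omega)
  have hnr' : 24 * r ≤ n := by rw [hn]; exact Nat.mul_le_mul_right r hprd
  have hNrn : 4 * (N * r) ≤ n := by
    rw [hn, ← mul_assoc]; exact Nat.mul_le_mul_right r hν
  have hb : ∀ e ∈ EP r (Bxs N k) ∪ EP r (CrrS N k c),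
      -(2 * (n : ℤ)) ≤ dco e ∧ dco e + 1 ≤ 2 * n := by
    have h4 := (hk4 N k c hk hN hc _ rfl).2.2.2
    have h5 : ∀ e ∈ EP r (Bxs N k ∪ CrrS N k c), -(2 * (n : ℤ)) ≤ dco e ∧ dco e + 1 ≤ 2 * n := by
      intro e he
      have := Pool.Agent.H160R2.MU.TSTA.EP_bd (r := r) (ν := prd N k + 4 * N)
        (by intro z hz; have := h4 z hz; push_cast; exact this) he
      have h6 : (((prd N k + 4 * N) * r : ℕ) : ℤ) + 32 * r ≤ 2 * n := by
        have h7 : (prd N k + 4 * N) * r + 32 * r ≤ 2 * n := by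
          rw [hn]
          nlinarith [Nat.zero_le r, hprd2]
        exact_mod_cast h7
      omega
    rintro e (⟨z, hz, he⟩ | ⟨z, hz, he⟩)
    · exact h5 e ⟨z, Or.inl hz, he⟩
    · exact h5 e ⟨z, Or.inr hz, he⟩
  have hst : TSTA.St N r k n M c := ⟨hn, by omega, hM, hb⟩
  have hok : H974.Ok (fun _ : Edg => (1 / 2 : ℝ)) := okq (by norm_num) (by norm_num)
  have e1 : M = 4 * (prd N k * r) := by rw [hM, hn]
  -- the bad part
  have hbad : PC n M (fun F => SEs k (N * r / 2 : ℕ) (per n F) ∧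
      Bad 1 N r (r / M3) (r / M4) (prd N k) n M F) ≤ δ * sPs k (N * r / 2) := by
    have h1 := hIND 1 N r (r / M3) (r / M4) (prd N k) k (by norm_num) (by omega) hν (by omega) hlρ
      hl hρ
    have h2 := hB 1 r (by norm_num) hr2
    rw [← hn, ← hM] at h1 h2
    have h3 : 0 ≤ sPs k (N * r / 2) := Pr_nonneg hok _ _
    calc _ ≤ _ := h1
      _ ≤ sPs k (N * r / 2) * δ := mul_le_mul_of_nonneg_left h2 h3
      _ = _ := mul_comm _ _
  -- the good part
  have hgood : PC n M (fun F => P0 n k (per n (FA N r k c n M F)) ∧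
      ¬ Bad 1 N r (r / M3) (r / M4) (prd N k) n M F) * PC n M (PTr 1 n M (r / M4)) ≤
      PC n M (fun F => P0 n k (per n (FB N r k c n M F))) := by
    refine hPRB (CE n M) (TSTA.Xp N r k c n M) _ _ _ ?_ ?_
    · intro F G _ _
      exact TSTA.Xp_mx hst
    · rintro F G hF hG' ⟨h1, h2⟩ h3
      rw [hG n M k hk (by omega) _ TSTA.FA_sub] at h1
      rw [hG n M k hk (by omega) _ TSTA.FB_sub]
      exact TSTA.P1_stay hABS hSEPA hk hN hc hl hlρ hρ hkρ hst hF h2 h3 h1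
  have htrap : κ ≤ PC n M (PTr 1 n M (r / M4)) := by
    have h1 := hT 1 r (by norm_num) hr1
    rw [← hn, ← hM] at h1
    exact h1
  have hsplit : PC n M (fun F => P0 n k (per n (FA N r k c n M F))) ≤
      PC n M (fun F => SEs k (N * r / 2 : ℕ) (per n F) ∧
        Bad 1 N r (r / M3) (r / M4) (prd N k) n M F) +
      PC n M (fun F => P0 n k (per n (FA N r k c n M F)) ∧
        ¬ Bad 1 N r (r / M3) (r / M4) (prd N k) n M F) := by
    refine le_trans ?_ (Pr_or_le hok _ _ _)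
    refine Pr_mono hok ?_
    intro F hF h
    by_cases h1 : Bad 1 N r (r / M3) (r / M4) (prd N k) n M F
    · refine Or.inl ⟨?_, h1⟩
      refine hDEC n M k (N * r / 2) (by omega) ?_ ?_ ?_ (FA N r k c n M F) F TSTA.FA_sub hF
        (TSTA.FA_box (by omega) (by omega) hn hF) h
      · have : N * 2 ≤ N * r := Nat.mul_le_mul_left N (by omega)
        omega
      · omega
      · omega
    · exact Or.inr ⟨h, h1⟩
  have hg0 : 0 ≤ PC n M (fun F => P0 n k (per n (FA N r k c n M F)) ∧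
      ¬ Bad 1 N r (r / M3) (r / M4) (prd N k) n M F) := Pr_nonneg hok _ _
  have hfin : PC n M (fun F => P0 n k (per n (FA N r k c n M F)) ∧
      ¬ Bad 1 N r (r / M3) (r / M4) (prd N k) n M F) ≤
      1 / κ * PC n M (fun F => P0 n k (per n (FB N r k c n M F))) := by
    rw [one_div, ← div_eq_inv_mul, le_div_iff₀ hκ]
    exact le_trans (mul_le_mul_of_nonneg_left htrap hg0) hgood
  linarith

end Pool.Agent.W808.KU
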