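import Pool.Agent.W808.KU.Stm
import Pool.Agent.W808.HU.T_STB

/-!
# STB: re-randomising everything, slit plane version (helper352)
-/

set_option autoImplicit false

namespace Pool.Agent.W808.KU
open H974 H906.Cyl
open H12S (Dir hbE segD rimE H4 Crs Nr sqE)
open Pool.Agent.H160R2.ML (nm)
open Pool.Agent.H160R2.MU (Cel csq cpos prd shf BxS Bxs EP inSq PC Bad Cc)
open Pool.Agent.W808.HU (sv PTr)
open Pool.Agent.H160R2.MU.TSTB (mem_sq EP_dco box_EP mix mem_mix eqv_rtg rtg_eqv step_eqv)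
open Pool.Agent.W808.HU.TSTB (RR rr_iff clu tv te src_te tgt_te dco_te red_te red_eq_te tv_tv te_te
  te_zero tv_zero tv_sv reach_tv per_te EP_te EP_red EP_or src_diff tgt_diff)

namespace TSTB

open Relation

/-! ### the edges outside the slits -/

theorem Es_te {n k : ℕ} (q : ℤ) (e : Edg) : te n q e ∈ Es n k ↔ e ∈ Es n k := by
  have h1 : (te n q e).1 + (te n q e).2.1 + 1 = e.1 + e.2.1 + 1 + ((2 * n : ℕ) : ℤ) * q := by
    unfold te
    push_cast
    ring
  show (0 ≤ dco (te n q e) ∨ (2 * k : ℤ) ≤ ((te n q e).1 + (te n q e).2.1 + 1) % (2 * n : ℕ)) ↔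
    (0 ≤ dco e ∨ (2 * k : ℤ) ≤ (e.1 + e.2.1 + 1) % (2 * n : ℕ))
  rw [h1, Int.add_mul_emod_self_left, dco_te]

theorem perEs_te {n k : ℕ} (hn : 0 < n) (F : Finset Edg) (e : Edg) (q : ℤ)
    (he : e ∈ per n F ∩ Es n k) : te n q e ∈ per n F ∩ Es n k :=
  ⟨per_te hn F e q he.1, (Es_te q e).2 he.2⟩

theorem mem_FB {N r k : ℕ} {c : Fin k → Cel} {n M : ℕ} {F : Finset Edg} {e : Edg} :
    e ∈ FB N r k c n M F ↔ e ∈ CE n M ∧ e ∈ EP r (Bxs N k ∪ CrrS N k c) ∧ e ∈ F := by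
  classical
  rw [← EP_or]
  simp only [FB, Finset.mem_filter]

/-! ### exploration -/

section expl

variable (N r k : ℕ) (c : Fin k → Cel) (n M : ℕ)

/-- edges of boxes and tubes of the slit plane -/
def TT : Set Edg := {e | e ∈ Es n k ∧ (-(M : ℤ) ≤ dco e ∧ dco e < M) ∧
  e ∈ EP r (Bxs N k ∪ CrrS N k c)}

/-- edges of the closed region of the slit plane -/
def DD : Set Edg := {e | e ∈ Es n k ∧ (-(M : ℤ) ≤ dco e ∧ dco e < M) ∧
  e ∉ EP r (Bxs N k ∪ CrrS N k c)}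

/-- the vertices of the clusters of the tip vertices -/
def KK (F : Finset Edg) (u : Vtx) : Prop :=
  ∃ (s : ℤ) (i : ℕ), i < k ∧ Reach (per n (FB N r k c n M F) ∩ Es n k) (sv n s i) u

open Classical in
/-- the explored edges -/
noncomputable def ExK (K : Vtx → Prop) : Finset Edg :=
  (CE n M).filter (fun e => e ∈ TT N r k c n M ∧ (K (src e) ∨ K (tgt e)))

/-- the explored edges -/
noncomputable def Exx (F : Finset Edg) : Finset Edg := ExK N r k c n M (KK N r k c n M F)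

end expl

section
variable {N r k : ℕ} {c : Fin k → Cel} {n M : ℕ}

theorem mem_Exx {F : Finset Edg} {e : Edg} :
    e ∈ Exx N r k c n M F ↔ e ∈ CE n M ∧ e ∈ TT N r k c n M ∧
      (KK N r k c n M F (src e) ∨ KK N r k c n M F (tgt e)) := by
  classical
  simp only [Exx, ExK, Finset.mem_filter]

theorem KK_tv (hn0 : 0 < n) {F : Finset Edg} {u : Vtx} (q : ℤ) (h : KK N r k c n M F u) :
    KK N r k c n M F (tv n q u) := by
  obtain ⟨s, i, hi, h⟩ := h
  refine ⟨s + q, i, hi, ?_⟩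
  rw [← tv_sv]
  exact reach_tv (perEs_te hn0 _) h q

theorem TT_te (hn : n = prd N k * r)
    (hP : ∀ (z : ℤ × ℤ) (s : ℤ), z ∈ Bxs N k ∪ CrrS N k c ↔ shf N k s z ∈ Bxs N k ∪ CrrS N k c)
    {e : Edg} (q : ℤ) (h : e ∈ TT N r k c n M) : te n q e ∈ TT N r k c n M := by
  refine ⟨(Es_te q e).2 h.1, ?_, (EP_te hn hP q e).2 h.2.2⟩
  rw [dco_te]; exact h.2.1

/-- an edge of boxes and tubes which touches the clusters has its representative explored -/
theorem touch_Exx (hn0 : 0 < n) (hn : n = prd N k * r)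
    (hP : ∀ (z : ℤ × ℤ) (s : ℤ), z ∈ Bxs N k ∪ CrrS N k c ↔ shf N k s z ∈ Bxs N k ∪ CrrS N k c)
    {F : Finset Edg} {e : Edg} (he : e ∈ TT N r k c n M)
    (h : KK N r k c n M F (src e) ∨ KK N r k c n M F (tgt e)) : red n e ∈ Exx N r k c n M F := by
  rw [mem_Exx]
  refine ⟨red_mem hn0 he.2.1.1 he.2.1.2, ?_, ?_⟩
  · rw [red_eq_te]; exact TT_te hn hP _ he
  · rw [red_eq_te, src_te, tgt_te]
    exact h.imp (KK_tv hn0 _) (KK_tv hn0 _)

theorem touch_of_Exx (hn0 : 0 < n) {F : Finset Edg} {e : Edg} (h : red n e ∈ Exx N r k c n M F) :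
    KK N r k c n M F (src e) ∨ KK N r k c n M F (tgt e) := by
  rw [mem_Exx] at h
  have h1 := h.2.2
  rw [red_eq_te, src_te, tgt_te] at h1
  refine h1.imp (fun h => ?_) (fun h => ?_)
  · have := KK_tv hn0 ((e.1 + e.2.1) / (2 * n)) h
    rw [tv_tv, add_neg_cancel, tv_zero] at this
    exact this
  · have := KK_tv hn0 ((e.1 + e.2.1) / (2 * n)) h
    rw [tv_tv, add_neg_cancel, tv_zero] at this
    exact this

theorem T_of_Exx (hn : n = prd N k * r)
    (hP : ∀ (z : ℤ × ℤ) (s : ℤ), z ∈ Bxs N k ∪ CrrS N k c ↔ shf N k s z ∈ Bxs N k ∪ CrrS N k c)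
    {F : Finset Edg} {e : Edg} (h : red n e ∈ Exx N r k c n M F) : e ∈ TT N r k c n M := by
  rw [mem_Exx] at h
  have h1 := h.2.1
  rw [red_eq_te] at h1
  have h2 := TT_te hn hP ((e.1 + e.2.1) / (2 * n)) h1
  rw [te_te, add_neg_cancel, te_zero] at h2
  exact h2

/-- open edges of boxes and tubes -/
theorem mem_perFB (hn : n = prd N k * r)
    (hP : ∀ (z : ℤ × ℤ) (s : ℤ), z ∈ Bxs N k ∪ CrrS N k c ↔ shf N k s z ∈ Bxs N k ∪ CrrS N k c)
    {F : Finset Edg} {e : Edg} :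
    e ∈ per n (FB N r k c n M F) ∩ Es n k ↔
      e ∈ TT N r k c n M ∧ red n e ∈ F ∧ red n e ∈ CE n M := by
  constructor
  · rintro ⟨h1, h2⟩
    have h1' : red n e ∈ FB N r k c n M F := h1
    rw [mem_FB] at h1'
    have h3 := (mem_CE.1 h1'.1).2
    rw [dco_red] at h3
    exact ⟨⟨h2, h3, (EP_red hn hP e).1 h1'.2.1⟩, h1'.2.2, h1'.1⟩
  · rintro ⟨h1, h2, h3⟩
    refine ⟨?_, h1.1⟩
    show red n e ∈ FB N r k c n M F
    rw [mem_FB]
    exact ⟨h3, (EP_red hn hP e).2 h1.2.2, h2⟩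

/-- the clusters are determined by the explored edges -/
theorem Reach_mix (hn0 : 0 < n) (hn : n = prd N k * r)
    (hP : ∀ (z : ℤ × ℤ) (s : ℤ), z ∈ Bxs N k ∪ CrrS N k c ↔ shf N k s z ∈ Bxs N k ∪ CrrS N k c)
    (F G : Finset Edg) (s : ℤ) (i : ℕ) (hi : i < k) (u : Vtx) :
    Reach (per n (FB N r k c n M F) ∩ Es n k) (sv n s i) u ↔
      Reach (per n (FB N r k c n M (mix (Exx N r k c n M F) F G)) ∩ Es n k) (sv n s i) u := by
  refine clu _ _ _ ?_ u
  intro e he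
  rw [mem_perFB hn hP, mem_perFB hn hP, mem_mix]
  by_cases hT : e ∈ TT N r k c n M
  · have hE : red n e ∈ Exx N r k c n M F := by
      refine touch_Exx hn0 hn hP hT ?_
      exact he.imp (fun h => ⟨s, i, hi, h⟩) (fun h => ⟨s, i, hi, h⟩)
    tauto
  · tauto

theorem KK_mix (hn0 : 0 < n) (hn : n = prd N k * r)
    (hP : ∀ (z : ℤ × ℤ) (s : ℤ), z ∈ Bxs N k ∪ CrrS N k c ↔ shf N k s z ∈ Bxs N k ∪ CrrS N k c)
    (F G : Finset Edg) :
    KK N r k c n M (mix (Exx N r k c n M F) F G) = KK N r k c n M F := by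
  funext u
  refine propext ⟨?_, ?_⟩
  · rintro ⟨s, i, h1, h2⟩
    exact ⟨s, i, h1, (Reach_mix hn0 hn hP F G s i h1 u).2 h2⟩
  · rintro ⟨s, i, h1, h2⟩
    exact ⟨s, i, h1, (Reach_mix hn0 hn hP F G s i h1 u).1 h2⟩

theorem Exx_mix (hn0 : 0 < n) (hn : n = prd N k * r)
    (hP : ∀ (z : ℤ × ℤ) (s : ℤ), z ∈ Bxs N k ∪ CrrS N k c ↔ shf N k s z ∈ Bxs N k ∪ CrrS N k c)
    (F G : Finset Edg) :
    Exx N r k c n M (mix (Exx N r k c n M F) F G) = Exx N r k c n M F := by
  have h := KK_mix (M := M) hn0 hn hP F G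
  calc Exx N r k c n M (mix (Exx N r k c n M F) F G)
      = ExK N r k c n M (KK N r k c n M (mix (Exx N r k c n M F) F G)) := rfl
    _ = ExK N r k c n M (KK N r k c n M F) := by rw [h]
    _ = _ := rfl

/-- tip vertices -/
def XX (n k : ℕ) : Set Vtx := {x | ∃ (s : ℤ) (i : ℕ), i < k ∧ x = sv n s i}

/-- distance to the diagonal of the vertices of the clusters -/
theorem KK_depth (hn : n = prd N k * r)
    (hP : ∀ (z : ℤ × ℤ) (s : ℤ), z ∈ Bxs N k ∪ CrrS N k c ↔ shf N k s z ∈ Bxs N k ∪ CrrS N k c)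
    {D : ℕ} (hD : ∀ e ∈ EP r (Bxs N k ∪ CrrS N k c), |dco e| ≤ D) {F : Finset Edg} {u : Vtx}
    (h : KK N r k c n M F u) : -(D : ℤ) ≤ u.1 - u.2 ∧ u.1 - u.2 ≤ D + 1 := by
  obtain ⟨s, i, hi, h⟩ := h
  induction h with
  | refl => unfold sv; simp only [sub_self]; omega
  | tail _ h ih =>
    obtain ⟨e, he, h⟩ := h
    rw [mem_perFB hn hP] at he
    have h1 := abs_le.1 (hD e he.1.2.2)
    have h3 := src_diff e
    have h4 := tgt_diff e
    rcases h with h | h
    · rw [← h.2]; omega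
    · rw [← h.1]; omega

/-- the deterministic step -/
theorem det0 (hABS : Pool.Agent.H160R2.MU.S_ABS) (hSEPB : S_SEPB) {ρ l : ℕ} (hk : 2 ≤ k)
    (hN : k + 4 ≤ N) (hc : AdmS N k c) (hl : 1 ≤ l) (hlρ : 32 * l ≤ ρ) (hρr : 32 * ρ ≤ r)
    (hkρ : 4 * k ≤ ρ)
    (hn : n = prd N k * r) (hM : M = 4 * n) (hn0 : 0 < n)
    (hP : ∀ (z : ℤ × ℤ) (s : ℤ), z ∈ Bxs N k ∪ CrrS N k c ↔ shf N k s z ∈ Bxs N k ∪ CrrS N k c)
    (hD : ∀ e ∈ EP r (Bxs N k ∪ CrrS N k c), |dco e| ≤ ((2 * n - 1 : ℕ) : ℤ))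
    {F G : Finset Edg} (hF : F ⊆ CE n M) (hG : G ⊆ CE n M)
    (hbad : ¬ Bad 0 N r ρ l (prd N k) n M F) (hT : PTr 0 n M l G) :
    ∀ x ∈ XX n k, ∀ x' ∈ XX n k,
      (Reach (per n (mix (Exx N r k c n M F) F G) ∩ Es n k) x x' ↔
        Reach (per n (FB N r k c n M F) ∩ Es n k) x x') := by
  have hAT : per n F ∩ TT N r k c n M = per n (FB N r k c n M F) ∩ Es n k := by
    ext e
    rw [mem_perFB hn hP]
    constructor
    · rintro ⟨h1, h2⟩
      exact ⟨h2, h1, hF h1⟩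
    · rintro ⟨h1, h2, h3⟩
      exact ⟨h2, h1⟩
  have hmix : mix (Exx N r k c n M F) F G ⊆ CE n M := by
    intro e he
    rw [mem_mix] at he
    rcases he with h | h
    · exact hF h.1
    · exact hG h.1
  have hCc : Cc 0 n M G = per n G := by
    unfold Cc
    simp
  have key := hABS Vtx Edg (fun e u v => src e = u ∧ tgt e = v) (fun _ _ => False)
    (fun _ _ => False) (TT N r k c n M) (DD N r k c n M) (per n F) (per n G)
    (per n (mix (Exx N r k c n M F) F G) ∩ Es n k) (XX n k)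
    (fun u v => Nr (4 * (l : ℤ)) u v) RR (KK N r k c n M F)
    (fun u => ∃ e ∈ DD N r k c n M, ∃ w, (src e = u ∧ tgt e = w) ∨ (src e = w ∧ tgt e = u))
    (fun B => rfl) ?_ (fun u => Iff.rfl) (fun u v h => h.elim) ?_ ?_ ?_ ?_ ?_ ?_ ?_
  · intro x hx x' hx'
    have := key x hx x' hx'
    rw [rr_iff, rr_iff, hAT] at this
    exact this
  · intro u
    constructor
    · rintro ⟨s, i, hi, h⟩
      exact ⟨_, ⟨s, i, hi, rfl⟩, by rw [rr_iff, hAT]; exact h⟩
    · rintro ⟨x, ⟨s, i, hi, rfl⟩, h⟩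
      rw [rr_iff, hAT] at h
      exact ⟨s, i, hi, h⟩
  · rintro e he ⟨u, v, ⟨rfl, rfl⟩, hor⟩
    refine ⟨?_, ?_⟩
    · rintro u' v' ⟨rfl, rfl⟩
      exact hor
    · have hE := touch_Exx hn0 hn hP he hor
      constructor
      · rintro ⟨h1, _⟩
        have h1' : red n e ∈ mix (Exx N r k c n M F) F G := h1
        rw [mem_mix] at h1'
        rcases h1' with h | h
        · exact h.1
        · exact absurd hE h.2
      · intro h
        refine ⟨?_, he.1⟩
        show red n e ∈ mix (Exx N r k c n M F) F G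
        rw [mem_mix]
        exact Or.inl ⟨h, hE⟩
  · intro e he hno heH
    have hE : red n e ∉ Exx N r k c n M F := by
      intro h
      rcases touch_of_Exx hn0 h with h | h
      · exact (hno _ _ ⟨rfl, rfl⟩).1 h
      · exact (hno _ _ ⟨rfl, rfl⟩).2 h
    have h1 : red n e ∈ mix (Exx N r k c n M F) F G := heH.1
    rw [mem_mix] at h1
    rcases h1 with h | h
    · exact absurd h.2 hE
    · exact h.1
  · rintro e ⟨h1, h2⟩
    have h3 := (mem_CE.1 (hmix h1)).2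
    rw [dco_red] at h3
    by_cases h : e ∈ EP r (Bxs N k ∪ CrrS N k c)
    · exact Or.inl ⟨h2, h3, h⟩
    · exact Or.inr ⟨h2, h3, h⟩
  · intro e he heH
    have hE : red n e ∉ Exx N r k c n M F := fun h => he.2.2 (T_of_Exx hn hP h).2.2
    have h1 : red n e ∈ mix (Exx N r k c n M F) F G := heH.1
    rw [mem_mix] at h1
    rcases h1 with h | h
    · exact absurd h.2 hE
    · exact h.1
  · rw [Set.disjoint_left]
    intro e he he'
    exact he'.2.2 he.2.2
  · intro u v hu _ h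
    have hd := KK_depth hn hP hD hu
    refine hT u v ?_ ?_
    · rw [abs_le]
      have : ((2 * n - 1 : ℕ) : ℤ) = 2 * n - 1 := by omega
      constructor
      · omega
      · omega
    · rw [hCc, ← rr_iff]
      unfold Pool.Agent.W808.HU.TSTB.RR
      have h2 : (fun a b : Vtx => False ∨ ∃ e ∈ per n G, src e = a ∧ tgt e = b) =
          (fun u v : Vtx => False ∨ False ∨ ∃ e ∈ per n G, src e = u ∧ tgt e = v) := by
        funext a b
        exact propext ⟨fun h => h.elim False.elim (fun h => Or.inr (Or.inr h)),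
          fun h => h.elim False.elim (fun h => h.elim False.elim Or.inr)⟩
      rw [← h2]
      exact h
  · rintro x ⟨s, i, hi, rfl⟩ x' ⟨s', i', hi', rfl⟩ u u' hu hu' hDu hDu' hnear
    rw [rr_iff, hAT] at hu hu' ⊢
    refine hSEPB N r k ρ l c hk hN hc hl hlρ hρr hkρ n M hn hM F hF hbad s s' i i' u u' hi hi' hu hu'
      ?_ ?_ hnear
    · obtain ⟨e, he, w, hw⟩ := hDu
      have h1 := he.2.2
      rw [← EP_or] at h1
      push Not at h1
      refine ⟨e, he.1, h1.1, h1.2, ?_⟩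
      rcases hw with hw | hw
      · exact Or.inl hw.1
      · exact Or.inr hw.2
    · obtain ⟨e, he, w, hw⟩ := hDu'
      have h1 := he.2.2
      rw [← EP_or] at h1
      push Not at h1
      refine ⟨e, he.1, h1.1, h1.2, ?_⟩
      rcases hw with hw | hw
      · exact Or.inl hw.1
      · exact Or.inr hw.2

/-- the clusters of the mixed configuration stay near those of the boxes and tubes -/
theorem shallow (hn : n = prd N k * r) (hM : M = 4 * n) (hn0 : 0 < n) {l : ℕ} (hl : 8 * l < n)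
    (hP : ∀ (z : ℤ × ℤ) (s : ℤ), z ∈ Bxs N k ∪ CrrS N k c ↔ shf N k s z ∈ Bxs N k ∪ CrrS N k c)
    (hD : ∀ e ∈ EP r (Bxs N k ∪ CrrS N k c), |dco e| ≤ ((2 * n - 1 : ℕ) : ℤ))
    {F G : Finset Edg} (hF : F ⊆ CE n M) (hG : G ⊆ CE n M) (hT : PTr 0 n M l G) :
    Shl n k M (per n (mix (Exx N r k c n M F) F G)) := by
  have hmix : mix (Exx N r k c n M F) F G ⊆ CE n M := by
    intro e he
    rw [mem_mix] at he
    rcases he with h | h
    · exact hF h.1
    · exact hG h.1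
  have hCc : Cc 0 n M G = per n G := by
    unfold Cc
    simp
  intro i u hi h
  have key : KK N r k c n M F u ∨ ∃ u0, KK N r k c n M F u0 ∧ Reach (per n G) u0 u := by
    induction h with
    | refl => exact Or.inl ⟨0, i, hi, Reach.refl _ _⟩
    | @tail a b _ hab ih =>
      obtain ⟨e, ⟨he, heH⟩, hor⟩ := hab
      have he' : red n e ∈ mix (Exx N r k c n M F) F G := he
      have h3 := (mem_CE.1 (hmix he')).2
      rw [dco_red] at h3
      rw [mem_mix] at he'
      by_cases hE : red n e ∈ Exx N r k c n M F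
      · -- explored edge: both ends in `K`
        have heF : red n e ∈ F := by
          rcases he' with h | h
          · exact h.1
          · exact absurd hE h.2
        have heT := T_of_Exx hn hP hE
        have heB : e ∈ per n (FB N r k c n M F) ∩ Es n k :=
          (mem_perFB hn hP).2 ⟨heT, heF, hF heF⟩
        left
        have hK : KK N r k c n M F (src e) ∧ KK N r k c n M F (tgt e) := by
          rcases touch_of_Exx hn0 hE with ⟨s, j, hj, h⟩ | ⟨s, j, hj, h⟩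
          · exact ⟨⟨s, j, hj, h⟩, ⟨s, j, hj, h.tail ⟨e, heB, Or.inl ⟨rfl, rfl⟩⟩⟩⟩
          · exact ⟨⟨s, j, hj, h.tail ⟨e, heB, Or.inr ⟨rfl, rfl⟩⟩⟩, ⟨s, j, hj, h⟩⟩
        rcases hor with hor | hor
        · rw [← hor.2]; exact hK.2
        · rw [← hor.1]; exact hK.1
      · have heG : e ∈ per n G := by
          rcases he' with h | h
          · exact absurd h.2 hE
          · exact h.1
        right
        rcases ih with ih | ⟨u0, h0, h1⟩
        · exact ⟨a, ih, Relation.ReflTransGen.single ⟨e, heG, hor⟩⟩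
        · exact ⟨u0, h0, h1.tail ⟨e, heG, hor⟩⟩
  have hcast : ((2 * n - 1 : ℕ) : ℤ) = 2 * n - 1 := by omega
  rcases key with h | ⟨u0, h0, h1⟩
  · have := KK_depth hn hP hD h
    rw [abs_lt]
    constructor <;> omega
  · have hd := KK_depth hn hP hD h0
    have := hT u0 u (by rw [abs_le]; constructor <;> omega) (by rw [hCc]; exact h1)
    obtain ⟨a1, a2⟩ := this
    rw [abs_le] at a1 a2
    rw [abs_lt]
    constructor <;> omega

theorem det (hABS : Pool.Agent.H160R2.MU.S_ABS) (hSEPB : S_SEPB) {ρ l : ℕ} (hk : 2 ≤ k)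
    (hN : k + 4 ≤ N) (hc : AdmS N k c) (hl : 1 ≤ l) (hlρ : 32 * l ≤ ρ) (hρr : 32 * ρ ≤ r)
    (hkρ : 4 * k ≤ ρ) (hln : 8 * l < n)
    (hn : n = prd N k * r) (hM : M = 4 * n) (hn0 : 0 < n)
    (hP : ∀ (z : ℤ × ℤ) (s : ℤ), z ∈ Bxs N k ∪ CrrS N k c ↔ shf N k s z ∈ Bxs N k ∪ CrrS N k c)
    (hD : ∀ e ∈ EP r (Bxs N k ∪ CrrS N k c), |dco e| ≤ ((2 * n - 1 : ℕ) : ℤ))
    {F G : Finset Edg} (hF : F ⊆ CE n M) (hG : G ⊆ CE n M)
    (hbad : ¬ Bad 0 N r ρ l (prd N k) n M F) (hP0 : P0 n k (per n (FB N r k c n M F)))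
    (hT : PTr 0 n M l G) :
    P0 n k (per n (mix (Exx N r k c n M F) F G)) ∧
      Shl n k M (per n (mix (Exx N r k c n M F) F G)) := by
  have habs := det0 hABS hSEPB hk hN hc hl hlρ hρr hkρ hn hM hn0 hP hD hF hG hbad hT
  refine ⟨⟨?_, ?_⟩, shallow hn hM hn0 hln hP hD hF hG hT⟩
  · intro i j hi hj hij h
    refine hP0.1 i j hi hj hij ?_
    exact (habs _ ⟨0, i, hi, rfl⟩ _ ⟨0, j, hj, rfl⟩).1 h
  · intro i hi
    obtain ⟨s, hs, j, hj, h⟩ := hP0.2 i hi
    exact ⟨s, hs, j, hj, (habs _ ⟨0, i, hi, rfl⟩ _ ⟨s, j, hj, rfl⟩).2 h⟩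

end

end TSTB

open TSTB in
theorem t_STB : Pool.Agent.H160R2.MU.S_ABS → Pool.Agent.H160R2.MU.S_PRB → S_SEPB →
    Pool.Agent.W808.HU.S_TRP → Pool.Agent.H160R2.MU.S_BADP → S_DEC → S_IND → S_k4 → S_STB := by
  classical
  intro hABS hPRB hSEPB hTRAP hBADP hDEC hIND hk4 N k c hk hN hc δ hδ
  have hN6 : 6 ≤ N := by omega
  set ν := prd N k with hν
  have hν4 : 4 * N + 16 * k = ν := by rw [hν]; unfold prd; ring
  obtain ⟨M3, M4, hM3, hM4, hbad⟩ := hBADP N ν (by omega) (by omega) δ hδ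
  obtain ⟨κ, hκ, r0, htrap⟩ := hTRAP ν M4 (by omega) (by omega)
  refine ⟨1 / κ, by positivity, max r0 (max M4 (max 2 (4 * k * M3))), ?_⟩
  intro r hr n M hn hM
  have hr1 : r0 ≤ r := (le_max_left _ _).trans hr
  have hr2 : M4 ≤ r := (le_max_left _ _).trans ((le_max_right _ _).trans hr)
  have hr34 : max 2 (4 * k * M3) ≤ r := (le_max_right _ _).trans ((le_max_right _ _).trans hr)
  have hr3 : 2 ≤ r := (le_max_left _ _).trans hr34
  have hr4 : 4 * k * M3 ≤ r := (le_max_right _ _).trans hr34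
  set ρ := r / M3 with hρ
  set l := r / M4 with hl
  have hM3p : 0 < M3 := by omega
  have hM4p : 0 < M4 := by omega
  have hl1 : 1 ≤ l := Nat.div_pos hr2 hM4p
  have hlρ : 32 * l ≤ ρ := by
    rw [hρ, Nat.le_div_iff_mul_le hM3p]
    have h1 : l * M4 ≤ r := Nat.div_mul_le_self r M4
    have h2 : l * (64 * M3) ≤ l * M4 := Nat.mul_le_mul_left _ hM4
    nlinarith
  have hρr : 32 * ρ ≤ r := by
    have h1 : ρ * M3 ≤ r := Nat.div_mul_le_self r M3
    have h2 : ρ * 64 ≤ ρ * M3 := Nat.mul_le_mul_left _ hM3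
    omega
  have hkρ : 4 * k ≤ ρ := by
    rw [hρ, Nat.le_div_iff_mul_le hM3p]
    exact hr4
  have hnN : 4 * (N * r) + 16 * (k * r) = n := by
    rw [hn, ← hν4]; ring
  have hkr : 2 * r ≤ k * r := Nat.mul_le_mul_right _ hk
  have hNr : 6 * r ≤ N * r := Nat.mul_le_mul_right _ hN6
  have hn0 : 0 < n := by omega
  have hln : 8 * l < n := by omega
  have hg := hk4 N k c hk hN hc (Bxs N k ∪ CrrS N k c) rfl
  have hP := hg.2.2.1
  have hD : ∀ e ∈ EP r (Bxs N k ∪ CrrS N k c), |dco e| ≤ ((2 * n - 1 : ℕ) : ℤ) := by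
    intro e he
    have h1 := EP_dco (q := prd N k + 4 * N) (by
      intro z hz
      have := hg.2.2.2 z hz
      push_cast
      exact this) he
    refine h1.trans ?_
    have h2 : (prd N k + 4 * N) * r = n + 4 * (N * r) := by rw [hn, ← hν]; ring
    have h3 : (prd N k + 4 * N) * r + r + 1 ≤ 2 * n - 1 := by omega
    exact_mod_cast h3
  have hok : H974.Ok (fun _ : Edg => (1 / 2 : ℝ)) := fun _ => by constructor <;> norm_num
  -- the first term
  have h1 : PC n M (fun F => P0 n k (per n (FB N r k c n M F)) ∧ Bad 0 N r ρ l ν n M F) ≤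
      δ * sPs k (N * r / 2) := by
    have hi := hIND 0 N r ρ l ν k (by norm_num) (by omega) (by omega) hr3 hlρ hl1 hρr
    have hb := hbad 0 r (by norm_num) hr2
    rw [← hρ, ← hl] at hb
    rw [← hn, ← hM] at hi hb
    have hsP : 0 ≤ sPs k (N * r / 2) := Pr_nonneg hok _ _
    have hmono : PC n M (fun F => P0 n k (per n (FB N r k c n M F)) ∧
        Bad 0 N r ρ l ν n M F) ≤
        PC n M (fun F => SEs k (N * r / 2 : ℕ) (per n F) ∧ Bad 0 N r ρ l ν n M F) := by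
      refine Pr_mono hok ?_
      rintro F hF ⟨h1, h2⟩
      refine ⟨?_, h2⟩
      refine hDEC n M k (N * r / 2) (by omega) ?_ (by omega) (by omega) (FB N r k c n M F) F ?_ hF
        ?_ h1
      · have : N * 2 ≤ N * r := Nat.mul_le_mul_left _ hr3
        omega
      · intro e he
        exact (mem_FB.1 he).1
      · intro e he
        rw [mem_FB, ← EP_or]
        constructor
        · exact fun h => h.2.2
        · exact fun h => ⟨hF h, Or.inl (box_EP (by omega) hn (by omega) he), h⟩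
    calc _ ≤ _ := hmono
      _ ≤ sPs k (N * r / 2) * PC n M (Bad 0 N r ρ l ν n M) := hi
      _ ≤ sPs k (N * r / 2) * δ := mul_le_mul_of_nonneg_left hb hsP
      _ = δ * sPs k (N * r / 2) := mul_comm _ _
  -- the second term
  have h2 : PC n M (fun F => P0 n k (per n (FB N r k c n M F)) ∧
      ¬ Bad 0 N r ρ l ν n M F) * PC n M (PTr 0 n M l) ≤
      PC n M (fun F => P0 n k (per n F) ∧ Shl n k M (per n F)) := by
    refine hPRB (CE n M) (Exx N r k c n M) _ _ _ ?_ ?_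
    · intro F G _ _
      exact Exx_mix hn0 hn hP F G
    · intro F G hF hG hA hK
      exact det hABS hSEPB hk hN hc hl1 hlρ hρr hkρ hln hn hM hn0 hP hD hF hG hA.2 hA.1 hK
  have h3 := htrap 0 r (by norm_num) hr1
  rw [← hl, ← hn, ← hM] at h3
  have h4 : PC n M (fun F => P0 n k (per n (FB N r k c n M F)) ∧
      ¬ Bad 0 N r ρ l ν n M F) ≤
      1 / κ * PC n M (fun F => P0 n k (per n F) ∧ Shl n k M (per n F)) := by
    rw [div_mul_eq_mul_div, one_mul, le_div_iff₀ hκ]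
    refine le_trans ?_ h2
    exact mul_le_mul_of_nonneg_left h3 (Pr_nonneg hok _ _)
  have h5 : PC n M (fun F => P0 n k (per n (FB N r k c n M F))) ≤
      PC n M (fun F => P0 n k (per n (FB N r k c n M F)) ∧ Bad 0 N r ρ l ν n M F) +
      PC n M (fun F => P0 n k (per n (FB N r k c n M F)) ∧ ¬ Bad 0 N r ρ l ν n M F) := by
    refine le_trans ?_ (Pr_or_le hok _ _ _)
    refine Pr_mono hok ?_
    intro F _ hF
    by_cases h : Bad 0 N r ρ l ν n M F
    · exact Or.inl ⟨hF, h⟩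
    · exact Or.inr ⟨hF, h⟩
  linarith

end Pool.Agent.W808.KU
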