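import Pool.Agent.W808.KU.Stm
import Pool.Agent.W808.KS.T_WGs
import Pool.Agent.W808.HU.T_WC

/-! # Upper bounds for the odd arm events in the slit plane: one class is enough (words) -/

set_option autoImplicit false

namespace Pool.Agent.W808.KU
open Pool.Agent.W808.HU (Secc)
open Pool.Agent.H863R2.Cyl
open Pool.Agent.H988R2.Perc (Word Dyck)
open Pool.Agent.W808.KS (Ls Gs gl Us S_GC)
open Pool.Agent.W808.HB (bwm Lw)

namespace TWCs

open Pool.Agent.H863R2.Cyl.Sem4Aux (ct sm iso sec ct_eq iso_iff sec_spec)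
open Pool.Agent.W808.HB.TWG (small Lw_nowire)
open Pool.Agent.W808.KS.TWGs (step Ls_nil)

/-- transfer of the connections to the cylinder of circumference `m` -/
theorem transfer (hGC : S_GC) {m : ℕ} (hm : 1 ≤ m) {w : Word} (hw : Dyck w) :
    ∀ (M : ℕ) (u : Word), Ok u → w.length = 2 * M → u.length = m + 2 * M →
    Ok (gl m M w u) ∧ (gl m M w u).length = m ∧ ∀ (c d : ℕ) (s : ℤ), c ≤ m → d ≤ m →
      (Relation.EqvGen (Ls (m + 2 * M) m u w) (c : ℤ) (s * ((m + 2 * M : ℕ) : ℤ) + d) ↔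
        Relation.EqvGen (Lw m m (gl m M w u)) (c : ℤ) (s * (m : ℤ) + d)) := by
  induction hw with
  | nil =>
    intro M u hu hwl hl
    have hM : M = 0 := by simp only [List.length_nil] at hwl; omega
    subst hM
    refine ⟨hu, hl, ?_⟩
    intro c d s hc hd
    change Relation.EqvGen (Ls m m u []) (c : ℤ) (s * (m : ℤ) + d) ↔
      Relation.EqvGen (Lw m m u) (c : ℤ) (s * (m : ℤ) + d)
    rw [Ls_nil, Lw_nowire]
  | ins i w hi hw ih =>
    intro M u hu hwl hl
    rw [Pool.Agent.H988R2.Perc.length_ins] at hwl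
    obtain ⟨M, rfl⟩ : ∃ M', M = M' + 1 := ⟨M - 1, by omega⟩
    have hwl' : w.length = 2 * M := by omega
    have hc := length_cap (i := m + i) (w := u) (by omega)
    obtain ⟨h1, h2, h3⟩ := ih M (cap (m + i) u) (ok_cap hu (by omega)) hwl' (by omega)
    rw [hGC m M i w u hw hwl' hu (by omega) (by omega)]
    refine ⟨h1, h2, ?_⟩
    intro c d s hc hd
    rw [← h3 c d s hc hd]
    have hpN : m + i ≤ m + 2 * M := by omega
    obtain ⟨t1, t2⟩ := small hpN 0 c (by omega)
    obtain ⟨t3, t4⟩ := small hpN s d (by omega)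
    have := step (u := u) (w := w) (m := m) (i := i) (N := m + 2 * M) hu (by omega) (by omega)
      (by omega) hi _ _ t1 t3
    rw [t2, t4] at this
    have e : m + 2 * (M + 1) = m + 2 * M + 2 := by ring
    rw [e]
    simpa only [zero_mul, zero_add] using this

end TWCs

theorem t_WCs : S_GC → S_WCs := by
  intro hGC q m M u w hq hev h4 hu hw hl hwl
  obtain ⟨h1, h2, h3⟩ := TWCs.transfer hGC (m := m) (by omega) hw M u hu hwl hl
  unfold Gs
  have hM : w.length / 2 = M := by omega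
  have hUs : Us 0 0 m u = u := by
    unfold Us
    simp
  rw [hM, hUs]
  simp only [add_zero]
  have h5 := HU.t_WC q m 0 (gl m M w u) hq hev h4 h1 (by omega)
  have h6 : HB.Gd m (gl m M w u) ↔ gl m M w u = bwm m := by
    unfold HB.Gd
    rw [h2, Nat.sub_self]
    rfl
  rw [← h6, ← h5, h2, hl]
  unfold Secc
  constructor
  · rintro ⟨g1, g2⟩
    refine ⟨?_, ?_⟩
    · intro c d hc2 hd2 hc hcm hd hcd hC
      apply g1 c d hc2 hd2 hc hcm hd hcd
      have := (h3 c d 0 hcm.le hd).2 (by simpa only [zero_mul, zero_add] using hC)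
      simpa only [zero_mul, zero_add] using this
    · intro c hc2 hc hcm
      obtain ⟨s, hs, d, hd, hdm, hC⟩ := g2 c hc2 hc hcm
      exact ⟨s, hs, d, hd, hdm, (h3 c d s hcm.le hdm.le).1 hC⟩
  · rintro ⟨g1, g2⟩
    refine ⟨?_, ?_⟩
    · intro c d hc2 hd2 hc hcm hd hcd hC
      apply g1 c d hc2 hd2 hc hcm hd hcd
      have := (h3 c d 0 hcm.le hd).1 (by simpa only [zero_mul, zero_add] using hC)
      simpa only [zero_mul, zero_add] using this
    · intro c hc2 hc hcm
      obtain ⟨s, hs, d, hd, hdm, hC⟩ := g2 c hc2 hc hcm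
      exact ⟨s, hs, d, hd, hdm, (h3 c d s hcm.le hdm.le).2 hC⟩

end Pool.Agent.W808.KU
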