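import Pool.Agent.W808.KU.Stm

/-!
# The tubes are far from each other (slit plane; task KU-k1, helper333)
-/

set_option autoImplicit false

namespace Pool.Agent.W808.KU
open Pool.Agent.H160R2.MU (Cel csq cpos prd shf BxS Bxs EP inSq PC Bad Cc)
open Pool.Agent.W808.HU (sv du labT labC)

namespace Tk1

/-- admissible cell -/
def AC (N : ℕ) (C : Cel) : Prop := C.1 < 4 ∧ -(N : ℤ) + 6 ≤ C.2 ∧ C.2 + 7 ≤ N

theorem AC4 {N : ℕ} {s : ℕ} {x : ℤ} (h : AC N (s, x)) :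
    (s = 0 ∨ s = 1 ∨ s = 2 ∨ s = 3) ∧ -(N : ℤ) + 6 ≤ x ∧ x + 7 ≤ N := by
  obtain ⟨h1, h2, h3⟩ := h
  simp only at h1 h2 h3
  refine ⟨by omega, h2, h3⟩

/-- ordered and far -/
def OC (N : ℕ) (A B : Cel) : Prop :=
  cpos N A < cpos N B ∧
  (2 ≤ |(csq N A).1 - (csq N B).1| ∨ 2 ≤ |(csq N A).2 - (csq N B).2|)

/-- first part of a tube, corner coordinates -/
def X0 (N i : ℕ) (C : Cel) : ℤ := if C.1 = 1 then N else if C.1 = 3 then -ra N i - 1 else C.2
def Y0 (N k i : ℕ) (C : Cel) : ℤ := if C.1 = 0 then rb N k i else if C.1 = 1 then C.2 else -ra N i - 1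
/-- last part of a tube, corner coordinates, relative to the box -/
def X1 (N k i : ℕ) (C : Cel) : ℤ := if C.1 = 3 then - rb N k i - 1 else if C.1 = 2 then C.2
    else ra N i
def Y1 (N i : ℕ) (C : Cel) : ℤ := if C.1 = 0 then ra N i else if C.1 = 2 then - N - 1
    else C.2

def St (N k i : ℕ) (C : Cel) (x y : ℤ) : Prop :=
  (C.1 = 0 ∧ x = C.2 ∧ N ≤ y ∧ y ≤ Y0 N k i C) ∨
  (C.1 = 2 ∧ x = C.2 ∧ Y0 N k i C ≤ y ∧ y ≤ -N - 1) ∨
  (C.1 = 3 ∧ y = C.2 ∧ X0 N i C ≤ x ∧ x ≤ -N - 1) ∨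
  (C.1 = 3 ∧ x = X0 N i C ∧ Y0 N k i C ≤ y ∧ y ≤ C.2)

def En (N k i : ℕ) (C : Cel) (x y : ℤ) : Prop :=
  (C.1 = 1 ∧ y = Y1 N i C ∧ N ≤ x ∧ x ≤ X1 N k i C) ∨
  (C.1 = 3 ∧ y = Y1 N i C ∧ X1 N k i C ≤ x ∧ x ≤ - N - 1) ∨
  (C.1 = 0 ∧ y = Y1 N i C ∧ C.2 ≤ x ∧ x ≤ X1 N k i C) ∨
  (C.1 = 0 ∧ x = C.2 ∧ N ≤ y ∧ y ≤ Y1 N i C)

theorem split (N k i : ℕ) (A A' : Cel) (hA : AC N A) (hA' : AC N A') (x y : ℤ)
    (h : (x, y) ∈ TbW N k i A A') :
    St N k i A x y ∨ (y = Y0 N k i A ∧ X0 N i A ≤ x ∧ x ≤ prd N k + X1 N k i A') ∨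
    (x = prd N k + X1 N k i A' ∧ Y0 N k i A ≤ y ∧ y ≤ prd N k + Y1 N i A') ∨
    En N k i A' (x - prd N k) (y - prd N k) := by
  obtain ⟨sa, xa⟩ := A
  obtain ⟨sa', xa'⟩ := A'
  obtain ⟨h1, hA⟩ := AC4 hA
  obtain ⟨h2, hA'⟩ := AC4 hA'
  generalize hP : ((prd N k : ℕ) : ℤ) = P at *
  rcases h1 with rfl | rfl | rfl | rfl <;> rcases h2 with rfl | rfl | rfl | rfl <;>
    simp [TbW, hP] at h <;> simp [St, En, X0, Y0, X1, Y1] <;> omega

/-- order of the first corners -/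
theorem Y0_lt (N k i j : ℕ) (hij : i < j) (hj : 2 * j < k) (A B : Cel) (hA : AC N A) (hB : AC N B)
    (hAB : OC N A B) : Y0 N k j B + 2 ≤ Y0 N k i A := by
  obtain ⟨sa, xa⟩ := A
  obtain ⟨sb, xb⟩ := B
  obtain ⟨h1, hA⟩ := AC4 hA
  obtain ⟨h2, hB⟩ := AC4 hB
  rcases h1 with rfl | rfl | rfl | rfl <;> rcases h2 with rfl | rfl | rfl | rfl <;>
    simp [OC, cpos, csq, le_abs] at hAB <;> simp [Y0, ra, rb] <;> omega

/-- order of the last corners -/
theorem X1_lt (N k i j : ℕ) (hij : i < j) (hj : 2 * j < k) (A B : Cel) (hA : AC N A) (hB : AC N B)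
    (hAB : OC N B A) : X1 N k i A + 2 ≤ X1 N k j B := by
  obtain ⟨sa, xa⟩ := A
  obtain ⟨sb, xb⟩ := B
  obtain ⟨h1, hA⟩ := AC4 hA
  obtain ⟨h2, hB⟩ := AC4 hB
  rcases h1 with rfl | rfl | rfl | rfl <;> rcases h2 with rfl | rfl | rfl | rfl <;>
    simp [OC, cpos, csq, le_abs] at hAB <;> simp [X1, ra, rb] <;> omega

/-- first parts -/
theorem StSt (N k i j : ℕ) (hij : i < j) (hj : 2 * j < k) (A B : Cel) (hA : AC N A) (hB : AC N B)
    (hAB : OC N A B) (x y x' y' : ℤ)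
    (hz : St N k i A x y ∨ (y = Y0 N k i A ∧ X0 N i A ≤ x))
    (hz' : St N k j B x' y' ∨ (y' = Y0 N k j B ∧ X0 N j B ≤ x'))
    (h1 : -1 ≤ x - x') (h2 : x - x' ≤ 1) (h3 : -1 ≤ y - y') (h4 : y - y' ≤ 1) : False := by
  obtain ⟨sa, xa⟩ := A
  obtain ⟨sb, xb⟩ := B
  obtain ⟨e1, hA⟩ := AC4 hA
  obtain ⟨e2, hB⟩ := AC4 hB
  rcases e1 with rfl | rfl | rfl | rfl <;> rcases e2 with rfl | rfl | rfl | rfl <;>
    simp [OC, cpos, csq, le_abs] at hAB <;> simp [St, X0, Y0, ra, rb] at hz hz' <;> omega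

/-- last parts -/
theorem EnEn (N k i j : ℕ) (hij : i < j) (hj : 2 * j < k) (A B : Cel) (hA : AC N A) (hB : AC N B)
    (hAB : OC N B A) (x y x' y' : ℤ)
    (hz : En N k i A x y ∨ (x = X1 N k i A ∧ y ≤ Y1 N i A))
    (hz' : En N k j B x' y' ∨ (x' = X1 N k j B ∧ y' ≤ Y1 N j B))
    (h1 : -1 ≤ x - x') (h2 : x - x' ≤ 1) (h3 : -1 ≤ y - y') (h4 : y - y' ≤ 1) : False := by
  obtain ⟨sa, xa⟩ := A
  obtain ⟨sb, xb⟩ := B
  obtain ⟨e1, hA⟩ := AC4 hA
  obtain ⟨e2, hB⟩ := AC4 hB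
  rcases e1 with rfl | rfl | rfl | rfl <;> rcases e2 with rfl | rfl | rfl | rfl <;>
    simp [OC, cpos, csq, le_abs] at hAB <;> simp [En, X1, Y1, ra, rb] at hz hz' <;> omega

/-- last part against first part at the same box -/
theorem EnSt (N k i j : ℕ) (hi : 2 * i < k) (hj : 2 * j < k) (A B : Cel) (hA : AC N A) (hB : AC N B)
    (hAB : OC N B A) (x y x' y' : ℤ)
    (hz : En N k i A x y ∨ (x = X1 N k i A ∧ y ≤ Y1 N i A))
    (hz' : St N k j B x' y' ∨ (y' = Y0 N k j B ∧ X0 N j B ≤ x'))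
    (h1 : -1 ≤ x - x') (h2 : x - x' ≤ 1) (h3 : -1 ≤ y - y') (h4 : y - y' ≤ 1) : False := by
  obtain ⟨sa, xa⟩ := A
  obtain ⟨sb, xb⟩ := B
  obtain ⟨e1, hA⟩ := AC4 hA
  obtain ⟨e2, hB⟩ := AC4 hB
  rcases e1 with rfl | rfl | rfl | rfl <;> rcases e2 with rfl | rfl | rfl | rfl <;>
    simp [OC, cpos, csq, le_abs] at hAB <;> simp [En, X1, Y1, St, X0, Y0, ra, rb] at hz hz' <;> omega

/-- bounds -/
theorem St_le (N k i : ℕ) (hi : 2 * i < k) (A : Cel) (hA : AC N A) (x y : ℤ)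
    (hz : St N k i A x y) : x ≤ N ∧ y ≤ N + 1 + 2 * k ∧ -(N : ℤ) - k - 1 ≤ y ∧ -(N : ℤ) - k - 1 ≤ x := by
  obtain ⟨sa, xa⟩ := A
  obtain ⟨e1, hA⟩ := AC4 hA
  rcases e1 with rfl | rfl | rfl | rfl <;> simp [St, X0, Y0, ra, rb] at hz ⊢ <;> omega

theorem En_ge (N k i : ℕ) (hi : 2 * i < k) (A : Cel) (hA : AC N A) (x y : ℤ)
    (hz : En N k i A x y) : -(N : ℤ) - 2 * k - 2 ≤ x ∧ -(N : ℤ) ≤ y ∧ x ≤ N + k ∧ y ≤ N + k := by
  obtain ⟨sa, xa⟩ := A
  obtain ⟨e1, hA⟩ := AC4 hA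
  rcases e1 with rfl | rfl | rfl | rfl <;> simp [En, X1, Y1, ra, rb] at hz ⊢ <;> omega

theorem corner0 (N k i : ℕ) (hi : 2 * i < k) (A : Cel) (hA : AC N A) :
    -(N : ℤ) - k - 1 ≤ X0 N i A ∧ X0 N i A ≤ N ∧ -(N : ℤ) - k - 1 ≤ Y0 N k i A ∧
      Y0 N k i A ≤ N + 1 + 2 * k := by
  obtain ⟨sa, xa⟩ := A
  obtain ⟨e1, hA⟩ := AC4 hA
  rcases e1 with rfl | rfl | rfl | rfl <;> simp [X0, Y0, ra, rb] <;> omega

theorem corner1 (N k i : ℕ) (hi : 2 * i < k) (A : Cel) (hA : AC N A) :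
    -(N : ℤ) - 2 * k - 2 ≤ X1 N k i A ∧ X1 N k i A ≤ N + k ∧ -(N : ℤ) - 1 ≤ Y1 N i A ∧
      Y1 N i A ≤ N + k := by
  obtain ⟨sa, xa⟩ := A
  obtain ⟨e1, hA⟩ := AC4 hA
  rcases e1 with rfl | rfl | rfl | rfl <;> simp [X1, Y1, ra, rb] <;> omega

/-- the tubes `i < j` of the same period -/
theorem same (N k i j : ℕ) (hij : i < j) (hj : 2 * j < k) (hN : k + 4 ≤ N)
    (A A' B B' : Cel) (hA : AC N A) (hA' : AC N A') (hB : AC N B) (hB' : AC N B')
    (hAB : OC N A B) (hBA : OC N B' A')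
    (z z' : ℤ × ℤ) (hz : z ∈ TbW N k i A A') (hz' : z' ∈ TbW N k j B B')
    (h1 : |z.1 - z'.1| ≤ 1) (h2 : |z.2 - z'.2| ≤ 1) : False := by
  obtain ⟨x, y⟩ := z
  obtain ⟨x', y'⟩ := z'
  rw [abs_le] at h1 h2
  simp only at h1 h2
  have hi : 2 * i < k := by omega
  have s1 := split N k i A A' hA hA' x y hz
  have s2 := split N k j B B' hB hB' x' y' hz'
  have c1 := corner0 N k i hi A hA
  have c2 := corner0 N k j hj B hB
  have c3 := corner1 N k i hi A' hA'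
  have c4 := corner1 N k j hj B' hB'
  have o1 := Y0_lt N k i j hij hj A B hA hB hAB
  have o2 := X1_lt N k i j hij hj A' B' hA' hB' hBA
  have hP : ((prd N k : ℕ) : ℤ) = 4 * (N + 4 * k) := by
    unfold prd; push_cast; ring
  have q1 := fun h => StSt N k i j hij hj A B hA hB hAB x y x' y' h
  have q2 := fun h => EnEn N k i j hij hj A' B' hA' hB' hBA (x - prd N k) (y - prd N k)
    (x' - prd N k) (y' - prd N k) h
  rcases s1 with s1 | s1 | s1 | s1
  · have b1 := St_le N k i hi A hA x y s1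
    rcases s2 with s2 | s2 | s2 | s2
    · exact q1 (Or.inl s1) (Or.inl s2) (by omega) (by omega) (by omega) (by omega)
    · exact q1 (Or.inl s1) (Or.inr ⟨s2.1, s2.2.1⟩) (by omega) (by omega) (by omega) (by omega)
    · omega
    · have b2 := En_ge N k j hj B' hB' _ _ s2
      omega
  · rcases s2 with s2 | s2 | s2 | s2
    · exact q1 (Or.inr ⟨s1.1, s1.2.1⟩) (Or.inl s2) (by omega) (by omega) (by omega) (by omega)
    · omega
    · omega
    · have b2 := En_ge N k j hj B' hB' _ _ s2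
      omega
  · rcases s2 with s2 | s2 | s2 | s2
    · have b2 := St_le N k j hj B hB x' y' s2
      omega
    · omega
    · omega
    · exact q2 (Or.inr ⟨by omega, by omega⟩) (Or.inl s2) (by omega) (by omega) (by omega) (by omega)
  · have b1 := En_ge N k i hi A' hA' _ _ s1
    rcases s2 with s2 | s2 | s2 | s2
    · have b2 := St_le N k j hj B hB x' y' s2
      omega
    · omega
    · exact q2 (Or.inl s1) (Or.inr ⟨by omega, by omega⟩) (by omega) (by omega) (by omega) (by omega)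
    · exact q2 (Or.inl s1) (Or.inl s2) (by omega) (by omega) (by omega) (by omega)

/-- `z` in the tube `i` of the sheet `0`, `z'` in the tube `j` of the sheet `1` -/
theorem next (N k i j : ℕ) (hi : 2 * i < k) (hj : 2 * j < k) (hk : 2 ≤ k) (hN : k + 4 ≤ N)
    (A A' B B' : Cel) (hA : AC N A) (hA' : AC N A') (hB : AC N B) (hB' : AC N B')
    (hBA : OC N B A')
    (z z' : ℤ × ℤ) (hz : z ∈ TbW N k i A A')
    (hz' : (z'.1 - prd N k, z'.2 - prd N k) ∈ TbW N k j B B')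
    (h1 : |z.1 - z'.1| ≤ 1) (h2 : |z.2 - z'.2| ≤ 1) : False := by
  obtain ⟨x, y⟩ := z
  obtain ⟨x', y'⟩ := z'
  rw [abs_le] at h1 h2
  simp only at h1 h2 hz'
  have s1 := split N k i A A' hA hA' x y hz
  have s2 := split N k j B B' hB hB' _ _ hz'
  have c1 := corner0 N k i hi A hA
  have c2 := corner0 N k j hj B hB
  have c3 := corner1 N k i hi A' hA'
  have c4 := corner1 N k j hj B' hB'
  have hP : ((prd N k : ℕ) : ℤ) = 4 * (N + 4 * k) := by
    unfold prd; push_cast; ring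
  have q2 := fun h => EnSt N k i j hi hj A' B hA' hB hBA (x - prd N k) (y - prd N k)
    (x' - prd N k) (y' - prd N k) h
  rcases s1 with s1 | s1 | s1 | s1
  · have b1 := St_le N k i hi A hA x y s1
    rcases s2 with s2 | s2 | s2 | s2
    · have b2 := St_le N k j hj B hB _ _ s2
      omega
    · omega
    · omega
    · have b2 := En_ge N k j hj B' hB' _ _ s2
      omega
  · rcases s2 with s2 | s2 | s2 | s2
    · have b2 := St_le N k j hj B hB _ _ s2
      omega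
    · omega
    · omega
    · have b2 := En_ge N k j hj B' hB' _ _ s2
      omega
  · rcases s2 with s2 | s2 | s2 | s2
    · exact q2 (Or.inr ⟨by omega, by omega⟩) (Or.inl s2) (by omega) (by omega) (by omega) (by omega)
    · exact q2 (Or.inr ⟨by omega, by omega⟩) (Or.inr ⟨s2.1, s2.2.1⟩) (by omega) (by omega)
        (by omega) (by omega)
    · omega
    · have b2 := En_ge N k j hj B' hB' _ _ s2
      omega
  · have b1 := En_ge N k i hi A' hA' _ _ s1
    rcases s2 with s2 | s2 | s2 | s2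
    · exact q2 (Or.inl s1) (Or.inl s2) (by omega) (by omega) (by omega) (by omega)
    · exact q2 (Or.inl s1) (Or.inr ⟨s2.1, s2.2.1⟩) (by omega) (by omega) (by omega) (by omega)
    · omega
    · have b2 := En_ge N k j hj B' hB' _ _ s2
      omega

/-- extent of a tube -/
theorem ext (N k i : ℕ) (hi : 2 * i < k) (hN : k + 4 ≤ N)
    (A A' : Cel) (hA : AC N A) (hA' : AC N A')
    (z : ℤ × ℤ) (hz : z ∈ TbW N k i A A') :
    -(N : ℤ) - k - 1 ≤ z.1 ∧ z.1 ≤ prd N k + N + k ∧ -(N : ℤ) - k - 1 ≤ z.2 ∧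
      z.2 ≤ prd N k + N + k := by
  obtain ⟨x, y⟩ := z
  have s1 := split N k i A A' hA hA' x y hz
  have c1 := corner0 N k i hi A hA
  have c3 := corner1 N k i hi A' hA'
  have hP : ((prd N k : ℕ) : ℤ) = 4 * (N + 4 * k) := by
    unfold prd; push_cast; ring
  simp only
  rcases s1 with s1 | s1 | s1 | s1
  · have b1 := St_le N k i hi A hA x y s1
    omega
  · omega
  · omega
  · have b1 := En_ge N k i hi A' hA' _ _ s1
    omega

end Tk1

open Tk1

theorem t_k1 : S_k1 := by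
  intro N k c hk hN hAdm L L' z z' hz hz' h1 h2
  obtain ⟨hc, hpos, hsep⟩ := hAdm
  have hP : (0 : ℤ) < (prd N k : ℕ) := by
    have : 0 < prd N k := by unfold prd; omega
    exact_mod_cast this
  have hPe : ((prd N k : ℕ) : ℤ) = 4 * (N + 4 * k) := by
    unfold prd; push_cast; ring
  obtain ⟨i, s, hi, hl, hm⟩ := hz
  obtain ⟨j, s', hj, hl', hm'⟩ := hz'
  have hOC : ∀ a b : Fin k, a < b → OC N (c a) (c b) := fun a b hab =>
    ⟨hpos a b hab, hsep a b hab.ne⟩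
  -- ordered version
  have key : ∀ (i j : ℕ) (s s' : ℤ) (hi : 2 * i < k) (hj : 2 * j < k) (z z' : ℤ × ℤ),
      shf N k s z ∈ TbW N k i (c ⟨i, by omega⟩) (c ⟨k - 1 - i, by omega⟩) →
      shf N k s' z' ∈ TbW N k j (c ⟨j, by omega⟩) (c ⟨k - 1 - j, by omega⟩) →
      |z.1 - z'.1| ≤ 1 → |z.2 - z'.2| ≤ 1 → s < s' → labT k i s = labT k j s' := by
    intro i j s s' hi hj z z' hm hm' h1 h2 hss
    rcases eq_or_lt_of_le (show s + 1 ≤ s' by omega) with h | h
    · subst h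
      by_cases hij : i + j + 1 = k
      · have e1 : 2 * i + 1 = k := by omega
        have e2 : 2 * j + 1 = k := by omega
        have e3 : i = j := by omega
        simp [labT, e1, e3, e2]
      · exfalso
        refine next N k i j hi hj hk hN _ _ _ _ (hc ⟨i, by omega⟩) (hc ⟨k - 1 - i, by omega⟩)
          (hc ⟨j, by omega⟩) (hc ⟨k - 1 - j, by omega⟩)
          (hOC ⟨j, by omega⟩ ⟨k - 1 - i, by omega⟩ (by
            rw [Fin.lt_def]
            simp only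
            omega)) (shf N k s z) (shf N k s z') hm ?_ ?_ ?_
        · have e : shf N k (s + 1) z' = ((shf N k s z').1 - (prd N k : ℕ),
              (shf N k s z').2 - (prd N k : ℕ)) := by
            simp only [shf]
            ext
            · simp only; ring
            · simp only; ring
          rw [← e]
          exact hm'
        · simp only [shf]
          rw [show z.1 - s * (prd N k : ℕ) - (z'.1 - s * (prd N k : ℕ)) = z.1 - z'.1 by ring]
          exact h1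
        · simp only [shf]
          rw [show z.2 - s * (prd N k : ℕ) - (z'.2 - s * (prd N k : ℕ)) = z.2 - z'.2 by ring]
          exact h2
    · exfalso
      have hA := Tk1.ext N k i hi hN _ _ (hc _) (hc _) _ hm
      have hB := Tk1.ext N k j hj hN _ _ (hc _) (hc _) _ hm'
      simp only [shf] at hA hB
      have h3 : s * (prd N k : ℕ) + 2 * (prd N k : ℕ) ≤ s' * (prd N k : ℕ) := by
        have : s + 2 ≤ s' := by omega
        nlinarith
      rw [abs_le] at h1 h2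
      omega
  rw [← hl, ← hl']
  rcases lt_trichotomy s s' with h | h | h
  · exact key i j s s' hi hj z z' hm hm' h1 h2 h
  · subst h
    rcases lt_trichotomy i j with hij | hij | hij
    · exfalso
      refine same N k i j hij hj hN _ _ _ _ (hc _) (hc _) (hc _) (hc _)
        (hOC ⟨i, by omega⟩ ⟨j, by omega⟩ hij) (hOC ⟨k - 1 - j, by omega⟩ ⟨k - 1 - i, by omega⟩ (by
          rw [Fin.lt_def]
          simp only
          omega)) (shf N k s z) (shf N k s z') hm hm' ?_ ?_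
      · simp only [shf]
        rw [show z.1 - s * (prd N k : ℕ) - (z'.1 - s * (prd N k : ℕ)) = z.1 - z'.1 by ring]
        exact h1
      · simp only [shf]
        rw [show z.2 - s * (prd N k : ℕ) - (z'.2 - s * (prd N k : ℕ)) = z.2 - z'.2 by ring]
        exact h2
    · subst hij
      rfl
    · exfalso
      refine same N k j i hij hi hN _ _ _ _ (hc _) (hc _) (hc _) (hc _)
        (hOC ⟨j, by omega⟩ ⟨i, by omega⟩ hij) (hOC ⟨k - 1 - i, by omega⟩ ⟨k - 1 - j, by omega⟩ (by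
          rw [Fin.lt_def]
          simp only
          omega)) (shf N k s z') (shf N k s z) hm' hm ?_ ?_
      · simp only [shf]
        rw [show z'.1 - s * (prd N k : ℕ) - (z.1 - s * (prd N k : ℕ)) = -(z.1 - z'.1) by ring,
          abs_neg]
        exact h1
      · simp only [shf]
        rw [show z'.2 - s * (prd N k : ℕ) - (z.2 - s * (prd N k : ℕ)) = -(z.2 - z'.2) by ring,
          abs_neg]
        exact h2
  · refine (key j i s' s hj hi z' z hm' hm ?_ ?_ h).symm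
    · rw [show z'.1 - z.1 = -(z.1 - z'.1) by ring, abs_neg]
      exact h1
    · rw [show z'.2 - z.2 = -(z.2 - z'.2) by ring, abs_neg]
      exact h2

end Pool.Agent.W808.KU
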