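import Pool.Agent.W808.KS.All
import Pool.Agent.H160R2.MU.T_ABS
import Pool.Agent.H160R2.MU.T_PRB
import Pool.Agent.H160R2.MU.T_TRAP
import Pool.Agent.H160R2.MU.T_BADP
import Pool.Agent.W808.HU.T_TRP
import Pool.Agent.W808.KU.T_CMP
import Pool.Agent.W808.KU.T_DEC
import Pool.Agent.W808.KU.T_DET
import Pool.Agent.W808.KU.T_DETP
import Pool.Agent.W808.KU.T_FIN
import Pool.Agent.W808.KU.T_HG
import Pool.Agent.W808.KU.T_IND
import Pool.Agent.W808.KU.T_LAND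
import Pool.Agent.W808.KU.T_MON
import Pool.Agent.W808.KU.T_RCR
import Pool.Agent.W808.KU.T_SEPA
import Pool.Agent.W808.KU.T_SEPB
import Pool.Agent.W808.KU.T_SHARP
import Pool.Agent.W808.KU.T_STA
import Pool.Agent.W808.KU.T_STB
import Pool.Agent.W808.KU.T_UB
import Pool.Agent.W808.KU.T_WCs
import Pool.Agent.W808.KU.T_k1
import Pool.Agent.W808.KU.T_k2
import Pool.Agent.W808.KU.T_k3
import Pool.Agent.W808.KU.T_k4
import Pool.Agent.W808.KU.T_k5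

/-!
# Upper bounds for the odd arm events at the tip of a slit: assembly
-/

set_option autoImplicit false

namespace Pool.Agent.W808.KU
open Pool.Agent.H160R2

theorem a_k3 : S_k3 := t_k3 t_k2
theorem a_k4 : S_k4 := t_k4 t_k1 t_k2
theorem a_DETP : S_DETP := t_DETP (t_DET t_k1 t_k2 a_k3 a_k4 t_k5)
theorem a_WCs : S_WCs := t_WCs KS.t_GC
theorem a_HG : S_HG := t_HG a_WCs KS.t_SFs KS.a_SIs KS.t_GLs
theorem a_FIN : S_FIN := t_FIN a_WCs KS.a_WGs KS.t_SFs KS.a_SIs KS.t_GLs KS.t_Y3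
theorem a_TRP : HU.S_TRP := HU.t_TRP MU.t_TRAP
theorem a_SEPB : S_SEPB := t_SEPB t_k1 t_k2 a_k4 t_k5
theorem a_SEPA : S_SEPA := t_SEPA t_k1 t_k2 a_k4 t_k5
theorem a_STB : S_STB := t_STB MU.t_ABS MU.t_PRB a_SEPB a_TRP MU.t_BADP' t_DEC t_IND a_k4
theorem a_STA : S_STA :=
  t_STA MU.t_ABS MU.t_PRB a_SEPA a_TRP MU.t_BADP' t_DEC t_IND a_k4 t_k5 a_HG
theorem a_RCR : S_RCR := t_RCR t_LAND a_DETP a_STA a_STB a_FIN KS.a_LAW KS.t_ASs
theorem a_UB : S_UB := t_UB a_RCR t_MON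
theorem a_SHARP : S_SHARP := t_SHARP KS.a_LBs t_CMP a_UB

end Pool.Agent.W808.KU
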