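import Pool.Agent.W808.HU.Stm
import Pool.Agent.W808.KS.Stm

/-!
# Upper bounds for the odd arm events in the slit plane: definitions

`ℤ²` without the edges of the slit: the edges `e` with `dco e < 0` and `-1 ≤ e.1 + e.2.1 ≤ 2 k - 2` (a
half-infinite slit in the direction `(-1, 1)` whose flat tip contains the `k` vertices `(i, i)`, `i < k`).
Cylinder: periodic with period `(n, n)`, one slit above every box.
Class `0` = open clusters; class `1` = dual clusters (the face of lower left corner `v` is called `v`),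
the faces `(i, i)` of the tip with `i < k - 1` are free (modulo `n`), the faces of the two walls of the
slits are wired.
-/

set_option autoImplicit false

namespace Pool.Agent.W808.KU
open H974 H906.Cyl
open H12S (Dir hbE segD rimE H4 Crs Nr sqE)
open Pool.Agent.H160R2.ML (nm)
open Pool.Agent.H160R2.MU (Cel csq cpos prd shf BxS Bxs EP inSq PC Bad Cc)
open Pool.Agent.W808.HU (sv du labT labC)

/-- the edges of the cylinder without the slits (universal cover; column of `e` = `e.1 + e.2.1 + 1`) -/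
def Es (n k : ℕ) : Set Edg := {e | 0 ≤ dco e ∨ (2 * k : ℤ) ≤ (e.1 + e.2.1 + 1) % (2 * n : ℕ)}

/-- the edges of the box `|v| ≤ R` of the slit plane -/
def sbx (k : ℕ) (R : ℤ) : Set Edg := {e | (0 ≤ dco e ∨ e.1 + e.2.1 + 1 < 0 ∨ (2 * k : ℤ) ≤ e.1 + e.2.1 + 1) ∧
  nm (src e) ≤ R ∧ nm (tgt e) ≤ R}

/-! ## the arm event in the slit plane -/

/-- the vertices `(i, i)`, `i < k`, of the tip are in different clusters of the box of the slit plane,
which reach distance `R` -/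
def SEs (k : ℕ) (R : ℤ) (G : Set Edg) : Prop :=
  (∀ i j : ℕ, i < k → j < k → i ≠ j → ¬ Reach (G ∩ sbx k R) (sv 0 0 i) (sv 0 0 j)) ∧
  (∀ i : ℕ, i < k → ∃ y : Vtx, nm y = R ∧ Reach (G ∩ sbx k R) (sv 0 0 i) y)

/-- its probability -/
noncomputable def sPs (k R : ℕ) : ℝ :=
  Pr (fun _ => (1 / 2 : ℝ)) (boxE R) (fun F => SEs k R (↑F : Set Edg))

/-! ## periodic configurations -/

/-- class 0: the vertices of a tip are pairwise not connected and each of them is connected to another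
tip -/
def P0 (n k : ℕ) (G : Set Edg) : Prop :=
  (∀ i j : ℕ, i < k → j < k → i ≠ j → ¬ Reach (G ∩ Es n k) (sv n 0 i) (sv n 0 j)) ∧
  (∀ i : ℕ, i < k → ∃ s : ℤ, s ≠ 0 ∧ ∃ j : ℕ, j < k ∧ Reach (G ∩ Es n k) (sv n 0 i) (sv n s j))

/-- the clusters of the vertices of the tip stay at distance `< M` of the diagonal -/
def Shl (n k M : ℕ) (G : Set Edg) : Prop :=
  ∀ (i : ℕ) (u : Vtx), i < k → Reach (G ∩ Es n k) (sv n 0 i) u → |u.1 - u.2| < M

/-- the dual edges outside the slits which cross a closed edge -/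
def dl (n k : ℕ) (G : Set Edg) : Set Edg := {e | du e ∈ Es n k ∧ du e ∉ G}

/-- the wires of the walls of the slits -/
inductive W1 (n k : ℕ) : Vtx → Vtx → Prop
  | wl (s : ℤ) (i : ℕ) : W1 n k (s * n - 1 - i, s * n - 1 + i) (s * n - 1 - i - 1, s * n - 1 + i + 1)
  | wr (s : ℤ) (i : ℕ) : W1 n k (s * n + k - 1 - i, s * n + k - 1 + i)
      (s * n + k - 1 - i - 1, s * n + k - 1 + i + 1)

/-- class 1 connections -/
def R1 (n k : ℕ) (A : Set Edg) : Vtx → Vtx → Prop :=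
  Relation.EqvGen (fun u v => W1 n k u v ∨ ∃ e ∈ A, src e = u ∧ tgt e = v)

/-- class 1: the faces `(i, i)`, `i < k - 1`, are pairwise not connected, not connected to the walls of
their slit, and each is connected to another tip -/
def P1 (n k : ℕ) (G : Set Edg) : Prop :=
  (∀ i j : ℕ, i + 1 < k → j < k → i ≠ j → ¬ R1 n k (dl n k G) (sv n 0 i) (sv n 0 j)) ∧
  (∀ i : ℕ, i + 1 < k → ¬ R1 n k (dl n k G) (sv n 0 i) (-1, -1)) ∧
  (∀ i : ℕ, i + 1 < k → ∃ s : ℤ, s ≠ 0 ∧ ∃ j : ℕ, j + 1 < k ∧ R1 n k (dl n k G) (sv n 0 i) (sv n s j))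

/-- the faces of the walls and of the flat tips of the slits -/
def Wf (n k : ℕ) (p : Vtx) : Prop := ∃ (s : ℤ) (i : ℕ),
  p = (s * n - 1 - i, s * n - 1 + i) ∨ p = (s * n + k - 1 - i, s * n + k - 1 + i) ∨
    (i + 1 < k ∧ p = sv n s i)

/-! ## coarse geometry -/

/-- admissible cells: away from the corners of the box `[-N, N)²`, clockwise order, far from each other -/
def AdmS (N k : ℕ) (c : Fin k → Cel) : Prop :=
  (∀ a, (c a).1 < 4 ∧ -(N : ℤ) + 6 ≤ (c a).2 ∧ (c a).2 + 7 ≤ N) ∧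
  (∀ a b, a < b → cpos N (c a) < cpos N (c b)) ∧
  (∀ a b, a ≠ b → 2 ≤ |(csq N (c a)).1 - (csq N (c b)).1| ∨ 2 ≤ |(csq N (c a)).2 - (csq N (c b)).2|)

/-- the two radii of the tube `i` -/
def ra (N i : ℕ) : ℤ := N + 1 + 2 * i
def rb (N k i : ℕ) : ℤ := N + 1 + 2 * ((k : ℤ) - i)

/-- the tube number `i` from the cell `C` of the box `0` to the cell `C'` of the box `1` -/
def TbW (N k i : ℕ) (C C' : Cel) : Set (ℤ × ℤ) := {z |
  let x0 : ℤ := if C.1 = 1 then N else if C.1 = 3 then -ra N i - 1 else C.2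
  let y0 : ℤ := if C.1 = 0 then rb N k i else if C.1 = 1 then C.2 else -ra N i - 1
  let x1 : ℤ := if C'.1 = 3 then prd N k - rb N k i - 1 else if C'.1 = 2 then prd N k + C'.2
    else prd N k + ra N i
  let y1 : ℤ := if C'.1 = 0 then prd N k + ra N i else if C'.1 = 2 then prd N k - N - 1
    else prd N k + C'.2
  (C.1 = 0 ∧ z.1 = C.2 ∧ N ≤ z.2 ∧ z.2 ≤ y0) ∨
  (C.1 = 2 ∧ z.1 = C.2 ∧ y0 ≤ z.2 ∧ z.2 ≤ -N - 1) ∨
  (C.1 = 3 ∧ z.2 = C.2 ∧ x0 ≤ z.1 ∧ z.1 ≤ -N - 1) ∨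
  (C.1 = 3 ∧ z.1 = x0 ∧ y0 ≤ z.2 ∧ z.2 ≤ C.2) ∨
  (z.2 = y0 ∧ x0 ≤ z.1 ∧ z.1 ≤ x1) ∨
  (z.1 = x1 ∧ y0 ≤ z.2 ∧ z.2 ≤ y1) ∨
  (C'.1 = 1 ∧ z.2 = y1 ∧ prd N k + N ≤ z.1 ∧ z.1 ≤ x1) ∨
  (C'.1 = 3 ∧ z.2 = y1 ∧ x1 ≤ z.1 ∧ z.1 ≤ prd N k - N - 1) ∨
  (C'.1 = 0 ∧ z.2 = y1 ∧ prd N k + C'.2 ≤ z.1 ∧ z.1 ≤ x1) ∨
  (C'.1 = 0 ∧ z.1 = prd N k + C'.2 ∧ prd N k + N ≤ z.2 ∧ z.2 ≤ y1)}

/-- the tube with label `L` -/
def TubeS (N k : ℕ) (c : Fin k → Cel) (L : ℕ × ℤ) : Set (ℤ × ℤ) := {z |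
  ∃ (i : ℕ) (s : ℤ) (h : 2 * i < k), labT k i s = L ∧
    shf N k s z ∈ TbW N k i (c ⟨i, by omega⟩) (c ⟨k - 1 - i, by omega⟩)}

def CrrS (N k : ℕ) (c : Fin k → Cel) : Set (ℤ × ℤ) := {z | ∃ L, z ∈ TubeS N k c L}

/-! ## the configurations of the steps: `n = prd N k * r`, `M = 4 n` -/

/-- the clusters land at the cells `c`, and different cells are not connected -/
def LandS (N r k : ℕ) (c : Fin k → Cel) (G : Set Edg) : Prop :=
  (∃ π : Fin k → ℕ, Function.Injective π ∧ ∀ a, π a < k ∧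
    ∃ v : Vtx, inSq r (csq N (c a)) v ∧ nm v = (N * r : ℕ) ∧
      Reach (G ∩ sbx k (N * r : ℕ)) (sv 0 0 (π a)) v) ∧
  (∀ a b, a ≠ b → ∀ u v : Vtx, inSq r (csq N (c a)) u → nm u = (N * r : ℕ) →
    inSq r (csq N (c b)) v → nm v = (N * r : ℕ) → ¬ Reach (G ∩ sbx k (N * r : ℕ)) u v)

open Classical in
/-- boxes random, tubes open, the rest closed -/
noncomputable def FA (N r k : ℕ) (c : Fin k → Cel) (n M : ℕ) (F : Finset Edg) : Finset Edg :=
  (CE n M).filter (fun e => (e ∈ EP r (Bxs N k) ∧ e ∈ F) ∨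
    (e ∉ EP r (Bxs N k) ∧ e ∈ EP r (CrrS N k c)))

open Classical in
/-- boxes and tubes random, the rest closed -/
noncomputable def FB (N r k : ℕ) (c : Fin k → Cel) (n M : ℕ) (F : Finset Edg) : Finset Edg :=
  (CE n M).filter (fun e => (e ∈ EP r (Bxs N k) ∨ e ∈ EP r (CrrS N k c)) ∧ e ∈ F)

/-- the marked faces of class 1: the walls, the tips and the closed region -/
def XA (N r k : ℕ) (c : Fin k → Cel) (n : ℕ) (p : Vtx) : Prop := Wf n k p ∨
  ∃ e : Edg, du e ∈ Es n k ∧ du e ∉ EP r (Bxs N k) ∧ du e ∉ EP r (CrrS N k c) ∧ (src e = p ∨ tgt e = p)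

end Pool.Agent.W808.KU
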