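import Pool.Agent.W808.KU.Defs

/-!
# Upper bounds for the odd arm events in the slit plane: the steps
(every step is a `Prop`; the file `T_X.lean` proves `t_X` from its hypotheses)
-/

set_option autoImplicit false

namespace Pool.Agent.W808.KU
open H974 H906.Cyl
open H12S (Dir hbE segD rimE H4 Crs Nr sqE)
open Pool.Agent.H160R2.ML (nm)
open Pool.Agent.H160R2.MU (Cel csq cpos prd shf BxS Bxs EP inSq PC Bad Cc)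
open Pool.Agent.W808.HU (sv du labT labC Secc PTr)
open Pool.Agent.H863R2.Cyl
open Pool.Agent.H988R2.Perc (Word Dyck)
open Pool.Agent.W808.KS (Ls Gs LegS SArm coinsZ)

/-! ## coarse geometry -/

def S_k1 : Prop := ∀ (N k : ℕ) (c : Fin k → Cel), 2 ≤ k → k + 4 ≤ N → AdmS N k c →
  ∀ (L L' : ℕ × ℤ) (z z' : ℤ × ℤ), z ∈ TubeS N k c L → z' ∈ TubeS N k c L' →
  |z.1 - z'.1| ≤ 1 → |z.2 - z'.2| ≤ 1 → L = L'

def S_k2 : Prop := ∀ (N k : ℕ) (c : Fin k → Cel), 2 ≤ k → k + 4 ≤ N → AdmS N k c →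
  ∀ (L : ℕ × ℤ) (s : ℤ) (z b : ℤ × ℤ), z ∈ TubeS N k c L → b ∈ BxS N k s →
  |z.1 - b.1| ≤ 1 → |z.2 - b.2| ≤ 1 → ∃ a : Fin k, labC k a s = L ∧ shf N k s z = csq N (c a)

/-- the tubes are connected and contain their cells -/
def S_k3 : Prop := ∀ (N k : ℕ) (c : Fin k → Cel), 2 ≤ k → k + 4 ≤ N → AdmS N k c →
  (∀ (r : ℕ) (L : ℕ × ℤ) (z z' : ℤ × ℤ) (u v : Vtx), 1 ≤ r → z ∈ TubeS N k c L →
    z' ∈ TubeS N k c L → inSq r z u → inSq r z' v →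
    Reach (EP r (TubeS N k c L) \ EP r (Bxs N k)) u v) ∧
  (∀ (a : Fin k) (s : ℤ) (z : ℤ × ℤ), shf N k s z = csq N (c a) → z ∈ TubeS N k c (labC k a s))

/-- no checkerboard, periodicity, extent -/
def S_k4 : Prop := ∀ (N k : ℕ) (c : Fin k → Cel), 2 ≤ k → k + 4 ≤ N → AdmS N k c →
  ∀ P : Set (ℤ × ℤ), P = Bxs N k ∪ CrrS N k c →
  (∀ x y : ℤ, (x, y) ∉ P → (x + 1, y + 1) ∉ P → (x + 1, y) ∉ P ∨ (x, y + 1) ∉ P) ∧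
  (∀ x y : ℤ, (x + 1, y) ∉ P → (x, y + 1) ∉ P → (x, y) ∉ P ∨ (x + 1, y + 1) ∉ P) ∧
  (∀ (z : ℤ × ℤ) (s : ℤ), z ∈ P ↔ shf N k s z ∈ P) ∧
  (∀ z ∈ P, |z.1 - z.2| ≤ prd N k + 4 * N)

/-- the tubes are far from the slits -/
def S_k5 : Prop := ∀ (N k : ℕ) (c : Fin k → Cel), 2 ≤ k → k + 4 ≤ N → AdmS N k c →
  ∀ z ∈ CrrS N k c, ∀ s : ℤ, (N : ℤ) ≤ (shf N k s z).1 - (shf N k s z).2 ∨
    (shf N k s z).1 + (shf N k s z).2 ≤ -6 ∨ 5 ≤ (shf N k s z).1 + (shf N k s z).2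

/-! ## deterministic steps -/

def S_DET : Prop := ∀ (N r k : ℕ) (c : Fin k → Cel), 2 ≤ k → k + 4 ≤ N → 2 ≤ r → k ≤ r → AdmS N k c →
  ∀ (n M : ℕ), n = prd N k * r → M = 4 * n → ∀ F : Finset Edg, F ⊆ CE n M →
  LandS N r k c (per n F) → P0 n k (per n (FA N r k c n M F))

def S_DETP : Prop := ∀ (N r k : ℕ) (c : Fin k → Cel), 2 ≤ k → k + 4 ≤ N → 2 ≤ r → k ≤ r → AdmS N k c →
  ∀ (n M : ℕ), n = prd N k * r → M = 4 * n →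
  Pr (fun _ => (1 / 2 : ℝ)) (boxE (N * r)) (fun F => LandS N r k c (↑F : Set Edg)) ≤
    PC n M (fun F => P0 n k (per n (FA N r k c n M F)))

/-- one class is enough (words) -/
def S_WCs : Prop := ∀ (q m M : ℕ) (u w : Word), q < 2 → Even m → 4 ≤ m → Ok u → Dyck w →
  u.length = m + 2 * M → w.length = 2 * M →
  (Secc q m u.length (Relation.EqvGen (Ls u.length m u w)) ↔ Gs 0 0 m w u)

/-- one class is enough (configurations) -/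
def S_HG : Prop := ∀ (n M k : ℕ), 2 ≤ k → k < n → ∀ F : Finset Edg, F ⊆ CE n M →
  (P0 n k (per n F) ↔ P1 n k (per n F))

/-- the leg event implies the arm event in a smaller box -/
def S_DEC : Prop := ∀ (n M k R : ℕ), 1 ≤ k → k ≤ R → 4 * R ≤ n → 2 * R ≤ M → ∀ (B F : Finset Edg),
  B ⊆ CE n M → F ⊆ CE n M → (∀ e ∈ boxE R, red n e ∈ B ↔ red n e ∈ F) →
  P0 n k (per n B) → SEs k R (per n F)

/-! ## bad events -/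

/-- class 0: different clusters are far from each other at the boundary of boxes and tubes -/
def S_SEPB : Prop := ∀ (N r k ρ l : ℕ) (c : Fin k → Cel), 2 ≤ k → k + 4 ≤ N → AdmS N k c → 1 ≤ l →
  32 * l ≤ ρ → 32 * ρ ≤ r → 4 * k ≤ ρ → ∀ (n M : ℕ), n = prd N k * r → M = 4 * n → ∀ F : Finset Edg,
  F ⊆ CE n M → ¬ Bad 0 N r ρ l (prd N k) n M F → ∀ (s s' : ℤ) (i i' : ℕ) (u u' : Vtx),
  i < k → i' < k →
  Reach (per n (FB N r k c n M F) ∩ Es n k) (sv n s i) u →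
  Reach (per n (FB N r k c n M F) ∩ Es n k) (sv n s' i') u' →
  (∃ e ∈ Es n k, e ∉ EP r (Bxs N k) ∧ e ∉ EP r (CrrS N k c) ∧ (src e = u ∨ tgt e = u)) →
  (∃ e ∈ Es n k, e ∉ EP r (Bxs N k) ∧ e ∉ EP r (CrrS N k c) ∧ (src e = u' ∨ tgt e = u')) →
  Nr (4 * l) u u' →
  Reach (per n (FB N r k c n M F) ∩ Es n k) (sv n s i) (sv n s' i')

/-- class 1 -/
def S_SEPA : Prop := ∀ (N r k ρ l : ℕ) (c : Fin k → Cel), 2 ≤ k → k + 4 ≤ N → AdmS N k c → 1 ≤ l →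
  32 * l ≤ ρ → 32 * ρ ≤ r → 4 * k ≤ ρ → ∀ (n M : ℕ), n = prd N k * r → M = 4 * n → ∀ F : Finset Edg,
  F ⊆ CE n M → ¬ Bad 1 N r ρ l (prd N k) n M F → ∀ (p p' u u' : Vtx),
  XA N r k c n p → XA N r k c n p' →
  R1 n k (dl n k (per n (FA N r k c n M F))) p u → R1 n k (dl n k (per n (FA N r k c n M F))) p' u' →
  (∃ e : Edg, du e ∈ Es n k ∧ du e ∉ EP r (Bxs N k) ∧ du e ∈ EP r (CrrS N k c) ∧
    (src e = u ∨ tgt e = u)) →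
  (∃ e : Edg, du e ∈ Es n k ∧ du e ∉ EP r (Bxs N k) ∧ du e ∈ EP r (CrrS N k c) ∧
    (src e = u' ∨ tgt e = u')) →
  Nr (4 * l) u u' →
  R1 n k (dl n k (per n (FA N r k c n M F))) p p'

/-- independence -/
def S_IND : Prop := ∀ (c N r ρ l ν k : ℕ), c < 2 → 4 ≤ N → 4 * N ≤ ν → 2 ≤ r → 32 * l ≤ ρ → 1 ≤ l →
  32 * ρ ≤ r → PC (ν * r) (4 * (ν * r)) (fun F => SEs k (N * r / 2 : ℕ) (per (ν * r) F) ∧
      Bad c N r ρ l ν (ν * r) (4 * (ν * r)) F)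
    ≤ sPs k (N * r / 2) * PC (ν * r) (4 * (ν * r)) (Bad c N r ρ l ν (ν * r) (4 * (ν * r)))

/-! ## the three steps -/

def S_STB : Prop := ∀ (N k : ℕ) (c : Fin k → Cel), 2 ≤ k → k + 4 ≤ N → AdmS N k c →
  ∀ δ : ℝ, 0 < δ → ∃ C : ℝ, 0 < C ∧ ∃ r0 : ℕ, ∀ r : ℕ, r0 ≤ r → ∀ (n M : ℕ), n = prd N k * r →
  M = 4 * n →
  PC n M (fun F => P0 n k (per n (FB N r k c n M F))) ≤
    δ * sPs k (N * r / 2) + C * PC n M (fun F => P0 n k (per n F) ∧ Shl n k M (per n F))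

def S_STA : Prop := ∀ (N k : ℕ) (c : Fin k → Cel), 2 ≤ k → k + 4 ≤ N → AdmS N k c →
  ∀ δ : ℝ, 0 < δ → ∃ C : ℝ, 0 < C ∧ ∃ r0 : ℕ, ∀ r : ℕ, r0 ≤ r → ∀ (n M : ℕ), n = prd N k * r →
  M = 4 * n →
  PC n M (fun F => P0 n k (per n (FA N r k c n M F))) ≤
    δ * sPs k (N * r / 2) + C * PC n M (fun F => P0 n k (per n (FB N r k c n M F)))

/-- landing -/
def S_LAND : Prop := ∀ k : ℕ, 2 ≤ k → ∀ δ : ℝ, 0 < δ → ∃ N : ℕ, k + 4 ≤ N ∧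
  ∃ Cs : Finset (Fin k → Cel), (∀ c ∈ Cs, AdmS N k c) ∧ ∃ r0 : ℕ, ∀ r : ℕ, r0 ≤ r →
  sPs k (N * r) ≤ δ * sPs k (N * r / 2) + ∑ c ∈ Cs,
    Pr (fun _ => (1 / 2 : ℝ)) (boxE (N * r)) (fun F => LandS N r k c (↑F : Set Edg))

/-- from the band to the infinite cylinder -/
def S_FIN : Prop := ∀ (n M k : ℕ), 2 ≤ k → k < n → 1 ≤ M →
  PC n M (fun F => P0 n k (per n F) ∧ Shl n k M (per n F)) ≤
    coinsZ.real {ω | LegS (2 * n) (2 * k) ω}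

/-- the recursion -/
def S_RCR : Prop := ∀ k : ℕ, 2 ≤ k → ∀ δ : ℝ, 0 < δ → ∃ N : ℕ, k + 4 ≤ N ∧ ∃ C : ℝ, 0 < C ∧
  ∃ r0 : ℕ, ∀ r : ℕ, r0 ≤ r →
  sPs k (N * r) ≤ δ * sPs k (N * r / 2) + C * (r : ℝ) ^ (-((k : ℝ) * (2 * k - 1) / 6))

/-- monotonicity -/
def S_MON : Prop := ∀ k R R' : ℕ, 1 ≤ k → k ≤ R → R ≤ R' → sPs k R' ≤ sPs k R

/-- **upper bound** -/
def S_UB : Prop := ∀ k : ℕ, 2 ≤ k → ∃ C : ℝ, 0 < C ∧ ∀ m : ℕ, k ≤ m →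
  sPs k m ≤ C * (m : ℝ) ^ (-((k : ℝ) * (2 * k - 1) / 6))

/-- comparison with the boxes of `SArm` -/
def S_CMP : Prop := ∀ k R R' : ℕ, 1 ≤ k → k ≤ R' → 2 * R' + 1 ≤ R →
  coinsZ.real {ω | SArm (2 * k) R ω} ≤ sPs k R'

/-- **sharp bounds for the odd arm events in the slit plane** -/
def S_SHARP : Prop := ∀ k : ℕ, 2 ≤ k → ∃ c C : ℝ, 0 < c ∧ 0 < C ∧ ∀ R : ℕ, k ≤ R →
  c * (R : ℝ) ^ (-((k : ℝ) * (2 * k - 1) / 6)) ≤ sPs k R ∧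
  sPs k R ≤ C * (R : ℝ) ^ (-((k : ℝ) * (2 * k - 1) / 6))

end Pool.Agent.W808.KU
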