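import Pool.Agent.W808.KU.Stm
import Pool.Agent.W808.KS.T_Y1

/-!
# KU, tasks HG and FIN: dictionary between the slit cylinder and the coins, class 0, and the words
primal vertex `(x, y)` = point `(x + y + 1, x - y)`
-/

set_option autoImplicit false

namespace Pool.Agent.W808.KU
open H974 H906.Cyl
open Pool.Agent.H863R2.Cyl
open Pool.Agent.H988R2.Perc (Word Dyck)
open Pool.Agent.W808.HU (sv Secc)
open Pool.Agent.W808.KS (HS LegS coinsZ lowH AltS Ls Gs)

namespace TD0

/-- point of a vertex -/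
def pz (v : Vtx) : ℤ × ℤ := (v.1 + v.2 + 1, v.1 - v.2)

/-- vertex of an odd point -/
def zp (p : ℤ × ℤ) : Vtx := ((p.1 + p.2 - 1) / 2, (p.1 - p.2 - 1) / 2)

/-- the coins `ω` describe the configuration `G` outside the slits -/
def Mz (n k : ℕ) (ω : ℤ × ℤ → Bool) (G : Set Edg) : Prop :=
  ∀ e ∈ Es n k, (e ∈ G ↔ ω ((e.1 + e.2.1 + 1) % (2 * n : ℕ), dco e) = !e.2.2)

theorem pair_eq {a a' b b' : ℤ} (h1 : a = a') (h2 : b = b') : ((a, b) : ℤ × ℤ) = (a', b') := by
  rw [h1, h2]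

theorem vtx_eq {a a' b b' : ℤ} (h1 : a = a') (h2 : b = b') : ((a, b) : Vtx) = (a', b') := by
  rw [h1, h2]

/-- open edges are diagonals -/
theorem edge_HS {n k : ℕ} {ω : ℤ × ℤ → Bool} {G : Set Edg} (h : Mz n k ω G) {e : Edg}
    (he : e ∈ G) (h0 : e ∈ Es n k) :
    HS (2 * n) (2 * k) ω (pz (src e)) (pz (tgt e)) ∨
      HS (2 * n) (2 * k) ω (pz (tgt e)) (pz (src e)) := by
  have h1 := (h e h0).1 he
  have h2 : 0 ≤ dco e ∨ (2 * k : ℤ) ≤ (e.1 + e.2.1 + 1) % (2 * n : ℕ) := h0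
  obtain ⟨x, y, b⟩ := e
  cases b
  · right
    simp only [dco, Bool.false_eq_true, if_false, Bool.not_false] at h2 h1
    have := HS.fall (N := 2 * n) (m := 2 * k) (ω := ω) (x + y + 1) (x - y - 1)
      (by push_cast at h2 ⊢; exact h2) h1
    have e1 : pz (tgt ((x, y, false) : Edg)) = (x + y + 1 + 1, x - y - 1) := by
      simp only [tgt_false, pz]
      apply pair_eq <;> ring
    have e2 : pz (src ((x, y, false) : Edg)) = (x + y + 1, x - y - 1 + 1) := by
      simp only [src_mk, pz]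
      apply pair_eq <;> ring
    rw [e1, e2]
    exact this
  · left
    simp only [dco, if_true, Bool.not_true] at h2 h1
    have := HS.rise (N := 2 * n) (m := 2 * k) (ω := ω) (x + y + 1) (x - y)
      (by push_cast at h2 ⊢; exact h2) h1
    have e1 : pz (src ((x, y, true) : Edg)) = (x + y + 1, x - y) := rfl
    have e2 : pz (tgt ((x, y, true) : Edg)) = (x + y + 1 + 1, x - y + 1) := by
      simp only [tgt_true, pz]
      apply pair_eq <;> ring
    rw [e1, e2]
    exact this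

theorem reach_HS {n k : ℕ} {ω : ℤ × ℤ → Bool} {G : Set Edg} (h : Mz n k ω G) {u v : Vtx}
    (hr : Reach (G ∩ Es n k) u v) :
    Relation.EqvGen (HS (2 * n) (2 * k) ω) (pz u) (pz v) := by
  induction hr with
  | refl => exact Relation.EqvGen.refl _
  | tail _ hs ih =>
    refine Relation.EqvGen.trans _ _ _ ih ?_
    obtain ⟨e, ⟨he, h0⟩, ⟨rfl, rfl⟩ | ⟨rfl, rfl⟩⟩ := hs
    · rcases edge_HS h he h0 with h1 | h1
      · exact Relation.EqvGen.rel _ _ h1
      · exact Relation.EqvGen.symm _ _ (Relation.EqvGen.rel _ _ h1)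
    · rcases edge_HS h he h0 with h1 | h1
      · exact Relation.EqvGen.symm _ _ (Relation.EqvGen.rel _ _ h1)
      · exact Relation.EqvGen.rel _ _ h1

theorem HS_reach {n k : ℕ} {ω : ℤ × ℤ → Bool} {G : Set Edg} (h : Mz n k ω G) {p q : ℤ × ℤ}
    (hr : Relation.EqvGen (HS (2 * n) (2 * k) ω) p q) :
    (p.1 + p.2) % 2 = (q.1 + q.2) % 2 ∧
    ((p.1 + p.2) % 2 = 1 → Reach (G ∩ Es n k) (zp p) (zp q)) := by
  induction hr with
  | rel p q hpq =>
    cases hpq with
    | rise j t hc hω =>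
      refine ⟨by simp only; omega, ?_⟩
      intro hp
      simp only at hp
      have e1 : (j + t - 1) / 2 + (j - t - 1) / 2 + 1 = j := by omega
      have e2 : (j + t - 1) / 2 - (j - t - 1) / 2 = t := by omega
      have h0 : (((j + t - 1) / 2, (j - t - 1) / 2, true) : Edg) ∈ Es n k := by
        show 0 ≤ dco (((j + t - 1) / 2, (j - t - 1) / 2, true) : Edg) ∨
          (2 * k : ℤ) ≤ ((j + t - 1) / 2 + (j - t - 1) / 2 + 1) % (2 * n : ℕ)
        simp only [dco, if_true]
        rw [e1, e2]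
        push_cast at hc ⊢
        exact hc
      have h1 := h _ h0
      simp only [dco, if_true, Bool.not_true] at h1
      rw [e1, e2] at h1
      refine Relation.ReflTransGen.single ⟨_, ⟨h1.2 hω, h0⟩, Or.inl ⟨rfl, ?_⟩⟩
      show (((j + t - 1) / 2 + 1, (j - t - 1) / 2) : Vtx) = _
      unfold zp
      apply vtx_eq <;> simp only <;> omega
    | fall j t hc hω =>
      refine ⟨by simp only; omega, ?_⟩
      intro hp
      simp only at hp
      have e1 : (j + t) / 2 + (j - t - 2) / 2 + 1 = j := by omega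
      have e2 : (j + t) / 2 - (j - t - 2) / 2 - 1 = t := by omega
      have h0 : (((j + t) / 2, (j - t - 2) / 2, false) : Edg) ∈ Es n k := by
        show 0 ≤ dco (((j + t) / 2, (j - t - 2) / 2, false) : Edg) ∨
          (2 * k : ℤ) ≤ ((j + t) / 2 + (j - t - 2) / 2 + 1) % (2 * n : ℕ)
        simp only [dco, Bool.false_eq_true, if_false]
        rw [e1, e2]
        push_cast at hc ⊢
        exact hc
      have h1 := h _ h0
      simp only [dco, Bool.false_eq_true, if_false, Bool.not_false] at h1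
      rw [e1, e2] at h1
      refine Relation.ReflTransGen.single ⟨_, ⟨h1.2 hω, h0⟩, Or.inr ⟨?_, ?_⟩⟩
      · show (((j + t) / 2, (j - t - 2) / 2) : Vtx) = _
        unfold zp
        apply vtx_eq <;> simp only <;> omega
      · show (((j + t) / 2, (j - t - 2) / 2 + 1) : Vtx) = _
        unfold zp
        apply vtx_eq <;> simp only <;> omega
    | wallL s i =>
      have e1 : s * ((2 * n : ℕ) : ℤ) = 2 * (s * n) := by push_cast; ring
      simp only [e1]
      push_cast
      constructor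
      · omega
      · intro hp
        omega
    | wallR s i =>
      have e1 : s * ((2 * n : ℕ) : ℤ) = 2 * (s * n) := by push_cast; ring
      simp only [e1]
      constructor
      · omega
      · intro hp
        omega
  | refl p => exact ⟨rfl, fun _ => Reach.refl _ _⟩
  | symm p q _ ih => exact ⟨ih.1.symm, fun hq => (ih.2 (ih.1.trans hq)).symm⟩
  | trans p q r _ _ ih1 ih2 =>
    exact ⟨ih1.1.trans ih2.1, fun hp => (ih1.2 hp).trans (ih2.2 (ih1.1.symm.trans hp))⟩

/-- connections of the sectors of the tips -/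
def CS (n k : ℕ) (ω : ℤ × ℤ → Bool) (a b : ℤ) : Prop :=
  Relation.EqvGen (HS (2 * n) (2 * k) ω) (a, 0) (b, 0)

theorem pz_sv (n : ℕ) (s : ℤ) (i : ℕ) :
    pz (sv n s i) = (s * (2 * n : ℕ) + (2 * i + 1 : ℕ), 0) := by
  simp only [pz, sv]
  apply pair_eq
  · push_cast
    ring
  · ring

theorem zp_sv (n : ℕ) (s : ℤ) (i : ℕ) :
    zp (s * (2 * n : ℕ) + (2 * i + 1 : ℕ), 0) = sv n s i := by
  simp only [zp, sv]
  have e1 : s * ((2 * n : ℕ) : ℤ) = 2 * (s * n) := by push_cast; ring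
  rw [e1]
  push_cast
  apply vtx_eq <;> omega

theorem reach_iff {n k : ℕ} {ω : ℤ × ℤ → Bool} {G : Set Edg} (h : Mz n k ω G)
    (s s' : ℤ) (i j : ℕ) : Reach (G ∩ Es n k) (sv n s i) (sv n s' j) ↔
      CS n k ω (s * (2 * n : ℕ) + (2 * i + 1 : ℕ)) (s' * (2 * n : ℕ) + (2 * j + 1 : ℕ)) := by
  constructor
  · intro hr
    have := reach_HS h hr
    rw [pz_sv, pz_sv] at this
    exact this
  · intro hr
    have e1 : s * ((2 * n : ℕ) : ℤ) = 2 * (s * n) := by push_cast; ring
    have := (HS_reach h hr).2 (by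
      show (s * (2 * n : ℕ) + (2 * i + 1 : ℕ) + (0 : ℤ)) % 2 = 1
      rw [e1]
      push_cast
      omega)
    rw [zp_sv, zp_sv] at this
    exact this

/-- **class 0** -/
theorem P0_iff {n k : ℕ} {ω : ℤ × ℤ → Bool} {G : Set Edg} (h : Mz n k ω G) :
    P0 n k G ↔ Secc 1 (2 * k) (2 * n) (CS n k ω) := by
  constructor
  · rintro ⟨h1, h2⟩
    refine ⟨?_, ?_⟩
    · intro c d hc hd hc1 hc2 hd2 hcd hC
      obtain ⟨i, rfl⟩ : ∃ i, c = 2 * i + 1 := ⟨c / 2, by omega⟩
      obtain ⟨j, rfl⟩ : ∃ j, d = 2 * j + 1 := ⟨d / 2, by omega⟩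
      refine h1 i j (by omega) (by omega) (by omega) ?_
      rw [reach_iff h]
      simpa using hC
    · intro c hc hc1 hc2
      obtain ⟨i, rfl⟩ : ∃ i, c = 2 * i + 1 := ⟨c / 2, by omega⟩
      obtain ⟨s, hs, j, hj, hr⟩ := h2 i (by omega)
      refine ⟨s, hs, 2 * j + 1, by omega, by omega, ?_⟩
      rw [reach_iff h] at hr
      simpa using hr
  · rintro ⟨h1, h2⟩
    refine ⟨?_, ?_⟩
    · intro i j hi hj hij hr
      rw [reach_iff h] at hr
      refine h1 (2 * i + 1) (2 * j + 1) (by omega) (by omega) (by omega) (by omega) (by omega)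
        (by omega) ?_
      simpa using hr
    · intro i hi
      obtain ⟨s, hs, d, hd1, hd2, hC⟩ := h2 (2 * i + 1) (by omega) (by omega) (by omega)
      have hpar := (HS_reach h hC).1
      have e1 : s * ((2 * n : ℕ) : ℤ) = 2 * (s * n) := by push_cast; ring
      simp only [e1] at hpar
      obtain ⟨j, rfl⟩ : ∃ j, d = 2 * j + 1 := ⟨d / 2, by push_cast at hpar; omega⟩
      refine ⟨s, hs, j, by omega, ?_⟩
      rw [reach_iff h]
      simpa using hC

/-! ## words -/

/-- alternating rows in both halves: the connections are those of the words -/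
theorem HS_Ls (hSF : KS.S_SFs) (hSI : KS.S_SIs) (hGL : KS.S_GLs) {n m M K L s t : ℕ}
    {ω : ℤ × ℤ → Bool} (hn : n + 1 = m + 2 * M) (hm : 1 ≤ m) (hM : 1 ≤ M) (hs : s < K)
    (hA : AltS m M ω (-(2 * s : ℤ) - 1)) (ht : t < L) (hAlt : HB.Alt (n + 1) (lowH ω) t)
    (σ : Wd (n + 1)) (a b : ℤ) : Relation.EqvGen (HS (n + 1) m ω) (a, 0) (b, 0) ↔
      Relation.EqvGen (Ls (n + 1) m (rows n (HB.crow (n + 1) L (lowH ω)) L σ).1
        (KC.XW (2 * M) (KS.cT m K ω) (KC.w0 M) K)) a b := by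
  have hw := (hSF m M K ω hM).1
  rw [Pool.Agent.H988R2.Perc.mem_LP] at hw
  obtain ⟨hwl, hwd⟩ := hw
  rw [hGL (n + 1) m M ω hn hm hM a b]
  apply KS.TY1.eqvGen_iff_of
  · intro a b hab
    rcases hab with hab | ⟨s', i, k, hi, hk, rfl, rfl, hik⟩
    · rw [HB.t_X3 HB.t_X1 n L (n + 1) t (by omega) ht (lowH ω) hAlt σ a b] at hab
      exact Relation.EqvGen.mono (fun x y h => Ls.rw x y (KS.TY1.Lw_full h)) _ _ hab
    · apply Relation.EqvGen.rel
      exact Ls.up s' i k (by omega) (by omega) ((hSI m M K s ω hM hs hA i k hi hk).2 hik)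
  · intro a b hab
    apply Relation.EqvGen.rel
    cases hab with
    | rw _ _ h =>
      left
      rw [HB.t_X3 HB.t_X1 n L (n + 1) t (by omega) ht (lowH ω) hAlt σ a b]
      exact Relation.EqvGen.rel _ _ (HB.Lw.rw _ _ h)
    | up s' i k hi hk h =>
      right
      exact ⟨s', i, k, by omega, by omega, rfl, rfl,
        (hSI m M K s ω hM hs hA i k (by omega) (by omega)).1 h⟩

/-- one class decides the words (both alternating rows) -/
theorem Secc_iff (hWC : S_WCs) (hSF : KS.S_SFs) (hSI : KS.S_SIs) (hGL : KS.S_GLs)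
    {n k K L s t : ℕ} (hk : 2 ≤ k) (hkn : k < n) {ω : ℤ × ℤ → Bool} (hs : s < K)
    (hA : AltS (2 * k) (n - k) ω (-(2 * s : ℤ) - 1)) (ht : t < L)
    (hAlt : HB.Alt (2 * n) (lowH ω) t) (n' : ℕ) (hn' : n' + 1 = 2 * n) (σ : Wd (n' + 1))
    (q : ℕ) (hq : q < 2) :
    Secc q (2 * k) (2 * n) (CS n k ω) ↔
      Gs 0 0 (2 * k) (KC.XW (2 * (n - k)) (KS.cT (2 * k) K ω) (KC.w0 (n - k)) K)
        (rows n' (HB.crow (n' + 1) L (lowH ω)) L σ).1 := by
  have hw := (hSF (2 * k) (n - k) K ω (by omega)).1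
  rw [Pool.Agent.H988R2.Perc.mem_LP] at hw
  obtain ⟨hwl, hwd⟩ := hw
  obtain ⟨u, hu⟩ : ∃ u : Word, u = (rows n' (HB.crow (n' + 1) L (lowH ω)) L σ).1 := ⟨_, rfl⟩
  have hl : u.length = n' + 1 := by
    rw [hu]
    exact (rows n' (HB.crow (n' + 1) L (lowH ω)) L σ).2.1
  have hok : Pool.Agent.H863R2.Cyl.Ok u := by
    rw [hu]
    exact (rows n' (HB.crow (n' + 1) L (lowH ω)) L σ).2.2
  obtain ⟨w, hww⟩ : ∃ w : Word, w = KC.XW (2 * (n - k)) (KS.cT (2 * k) K ω) (KC.w0 (n - k)) K :=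
    ⟨_, rfl⟩
  rw [← hww] at hwl hwd ⊢
  have e : CS n k ω = Relation.EqvGen (Ls (2 * n) (2 * k) u w) := by
    funext a b
    rw [← hn'] at hAlt
    have := HS_Ls hSF hSI hGL (m := 2 * k) (M := n - k) (by omega) (by omega) (by omega) hs hA ht
      hAlt σ a b
    rw [← hu, ← hww] at this
    unfold CS
    rw [← hn']
    exact propext this
  have h4 := hWC q (2 * k) (n - k) u w hq (by simp) (by omega) hok hwd (by omega) (by omega)
  rw [← hu, ← h4, hl, hn', e]

end TD0

end Pool.Agent.W808.KU
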