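import Pool.Agent.W808.KU.Stm
import Pool.Agent.H160R2.MU.T_LAND

/-! LAND in the slit plane: the clusters of the box of the slit plane land at separated cells
(port of `HU/T_LAND.lean` of helper803; helper991). -/

set_option autoImplicit false

namespace Pool.Agent.W808.KU
open H974 H906.Cyl
open H12S (Dir hbE segD rimE H4 Crs Nr sqE)
open Pool.Agent.H160R2.ML (nm)
open Pool.Agent.H160R2.MU (Cel csq cpos prd shf BxS Bxs EP inSq PC Bad Cc)
open Pool.Agent.W808.HU (sv du labT labC)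

namespace TLANDS
open Pool.Agent.H160R2.MU.TLAND

theorem dco_f (x y : ℤ) : dco (x, y, false) = x - y - 1 := rfl
theorem dco_t (x y : ℤ) : dco (x, y, true) = x - y := rfl

/-- exit of a region, slit box -/
theorem exit_h {k : ℕ} {R : ℤ} {G : Set Edg} {P : Vtx → Prop} {S : Set Edg}
    (hS : ∀ e ∈ G, e ∈ sbx k R → (P (src e) ∨ P (tgt e)) → e ∈ S)
    {u w : Vtx} (h : Reach (G ∩ sbx k R) u w) (hu : P u) (hw : ¬ P w) :
    ∃ z, ¬ P z ∧ Reach (G ∩ S) u z := by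
  by_contra hA
  have key : ∀ v, Reach (G ∩ sbx k R) u v → P v ∧ Reach (G ∩ S) u v := by
    intro v hv
    induction hv with
    | refl => exact ⟨hu, Reach.refl _ _⟩
    | tail _ hs ih =>
      rename_i x y _
      obtain ⟨e, ⟨heG, heS⟩, hxy⟩ := hs
      have heS' : e ∈ S := by
        refine hS e heG heS ?_
        rcases hxy with ⟨rfl, -⟩ | ⟨-, rfl⟩
        · exact Or.inl ih.1
        · exact Or.inr ih.1
      have hr : Reach (G ∩ S) u y := Relation.ReflTransGen.tail ih.2 ⟨e, ⟨heG, heS'⟩, hxy⟩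
      by_cases hy : P y
      · exact ⟨hy, hr⟩
      · exact absurd ⟨y, hy, hr⟩ hA
  exact hw (key w h).1

theorem hbE_hs {k : ℕ} (hk1 : 1 ≤ k) {d : Dir} {R x : ℤ} {b : ℕ} (hx : |x| + 2 * b + 2 * k ≤ R)
    (e : Edg) (he : e ∈ hbE d (ctr d R x).1 (ctr d R x).2 b) :
    0 ≤ dco e ∨ e.1 + e.2.1 + 1 < 0 ∨ (2 * k : ℤ) ≤ e.1 + e.2.1 + 1 := by
  have hx1 := le_abs_self x
  have hx2 := neg_abs_le x
  obtain ⟨p, q, _ | _⟩ := e
  · cases d <;> simp only [ctr, hbE, mem_RE_false] at he <;> rw [dco_f] <;> dsimp only <;> omega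
  · cases d <;> simp only [ctr, hbE, mem_RE_true] at he <;> rw [dco_t] <;> dsimp only <;> omega

theorem hbE_sbx {k : ℕ} (hk1 : 1 ≤ k) {d : Dir} {R x : ℤ} {b : ℕ} (hx : |x| + 2 * b + 2 * k ≤ R) :
    (↑(hbE d (ctr d R x).1 (ctr d R x).2 b) : Set Edg) ⊆ sbx k R := by
  intro e he
  have h1 := hbE_ends (b := b) (by omega) e (Finset.mem_coe.1 he)
  exact ⟨hbE_hs hk1 hx e (Finset.mem_coe.1 he), h1.1.2, h1.2.2⟩

/-- key lemma: two different clusters of the box of the slit plane near a boundary point -/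
theorem two_h {k : ℕ} (hk1 : 1 ≤ k) {R x : ℤ} {d : Dir} {a b : ℕ} {G : Set Edg} (hab : a < b)
    (hx : |x| + 2 * b + 2 * k ≤ R) {u u' w w' : Vtx}
    (hu : nm u = R) (hud : onS d R u) (hux : |tc d u - x| ≤ a)
    (hu' : nm u' = R) (hud' : onS d R u') (hux' : |tc d u' - x| ≤ a)
    (h : Reach (G ∩ sbx k R) u w) (hw : ¬ Pin d R x b w)
    (h' : Reach (G ∩ sbx k R) u' w') (hw' : ¬ Pin d R x b w')
    (hne : ¬ Reach (G ∩ sbx k R) u u') :
    H4 d (ctr d R x).1 (ctr d R x).2 a b G := by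
  have hx0 := abs_nonneg x
  have hex : ∀ (u w : Vtx), nm u = R → onS d R u → |tc d u - x| ≤ a →
      Reach (G ∩ sbx k R) u w → ¬ Pin d R x b w →
      ∃ z ∈ rimE d (ctr d R x).1 (ctr d R x).2 b,
        Reach (G ∩ ↑(hbE d (ctr d R x).1 (ctr d R x).2 b)) u z := by
    intro u w hu hud hux h hw
    have hPu := pin_of hab hu hud hux
    obtain ⟨z, hz, hr⟩ := exit_h (S := (↑(hbE d (ctr d R x).1 (ctr d R x).2 b) : Set Edg))
      (fun e _ h1 h3 => pin_edge (by omega) (by omega) e h1.2.1 h1.2.2 h3) h hPu hw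
    refine ⟨z, rim_of (by omega) hz ?_, hr⟩
    rcases Relation.ReflTransGen.cases_tail hr with rfl | ⟨y, -, e, ⟨-, he⟩, hyz⟩
    · exact absurd hPu hz
    · exact ⟨e, Finset.mem_coe.1 he, by tauto⟩
  refine ⟨u, seg_of hud hux, u', seg_of hud' hux', hex u w hu hud hux h hw,
    hex u' w' hu' hud' hux' h' hw', fun hr => hne ?_⟩
  exact hr.mono (Set.inter_subset_inter_right _ (hbE_sbx hk1 hx))

theorem corner_h {k R ρ : ℕ} {G : Set Edg} (hρ : 64 * ρ ≤ R) (hρ1 : 1 ≤ ρ) (hk : 64 * k ≤ R)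
    (hC : ¬ ∃ s1 s2 : Bool, Crs (sg s1 R) (sg s2 R) (4 * ρ) (R / 4) G) {d : Dir} {u w : Vtx}
    (hu : nm u = R) (hud : onS d R u) (h : Reach (G ∩ sbx k R) u w)
    (hw : nm w ≤ k) : |tc d u| + 4 * ρ < R := by
  by_contra hcon
  rw [not_lt] at hcon
  have hu' := (nm_eq hu).1
  obtain ⟨s1, s2, h1, h2⟩ : ∃ s1 s2 : Bool, |u.1 - sg s1 R| ≤ 4 * ρ ∧ |u.2 - sg s2 R| ≤ 4 * ρ := by
    rcases abs_cases (tc d u) with ⟨ha, -⟩ | ⟨ha, -⟩ <;> rw [ha] at hcon <;> cases d <;>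
      simp only [onS, tc] at hud hcon
    · exact ⟨true, false, by simp only [sg, if_true]; rw [abs_le]; omega,
        by simp only [sg, Bool.false_eq_true, if_false]; rw [abs_le]; omega⟩
    · exact ⟨true, true, by simp only [sg, if_true]; rw [abs_le]; omega,
        by simp only [sg, if_true]; rw [abs_le]; omega⟩
    · exact ⟨false, true, by simp only [sg, Bool.false_eq_true, if_false]; rw [abs_le]; omega,
        by simp only [sg, if_true]; rw [abs_le]; omega⟩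
    · exact ⟨true, true, by simp only [sg, if_true]; rw [abs_le]; omega,
        by simp only [sg, if_true]; rw [abs_le]; omega⟩
    · exact ⟨false, false, by simp only [sg, Bool.false_eq_true, if_false]; rw [abs_le]; omega,
        by simp only [sg, Bool.false_eq_true, if_false]; rw [abs_le]; omega⟩
    · exact ⟨false, true, by simp only [sg, Bool.false_eq_true, if_false]; rw [abs_le]; omega,
        by simp only [sg, if_true]; rw [abs_le]; omega⟩
    · exact ⟨false, false, by simp only [sg, Bool.false_eq_true, if_false]; rw [abs_le]; omega,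
        by simp only [sg, Bool.false_eq_true, if_false]; rw [abs_le]; omega⟩
    · exact ⟨true, false, by simp only [sg, if_true]; rw [abs_le]; omega,
        by simp only [sg, Bool.false_eq_true, if_false]; rw [abs_le]; omega⟩
  apply hC
  have hsg : ∀ s : Bool, sg s (R : ℤ) = R ∨ sg s (R : ℤ) = -R := by
    intro s
    cases s <;> simp [sg]
  have hR4 : (((R / 4 : ℕ) : ℤ)) * 4 ≤ R := by exact_mod_cast Nat.div_mul_le_self R 4
  have hR4' : (R : ℤ) < ((R / 4 : ℕ) : ℤ) * 4 + 4 := by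
    have : R < R / 4 * 4 + 4 := by omega
    exact_mod_cast this
  obtain ⟨z, hz, hr⟩ := exit_h (S := Set.univ)
    (P := fun v => |v.1 - sg s1 R| < (R / 4 : ℕ) ∧ |v.2 - sg s2 R| < (R / 4 : ℕ))
    (fun _ _ _ _ => trivial) h ⟨by omega, by omega⟩ (by
      rintro ⟨h3, -⟩
      rw [nm_le] at hw
      rw [abs_lt] at h3
      rcases hsg s1 with e | e <;> rw [e] at h3 <;> omega)
  refine ⟨s1, s2, u, z, ?_, ?_, hr.mono (Set.inter_subset_left)⟩
  · rw [abs_le] at h1 h2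
    unfold inR
    push_cast
    omega
  · rw [abs_lt, abs_lt] at hz
    omega

/-- different clusters land far from each other -/
theorem far_h {k R ρ l : ℕ} {G : Set Edg} (hk1 : 1 ≤ k) (hl : 1 ≤ l) (hlρ : 64 * l ≤ ρ)
    (hρ : 64 * ρ ≤ R) (hk : 64 * k ≤ R) (hkρ : k ≤ l) {d : Dir}
    (hB : ¬ ∃ (d : Dir) (i : ℤ), |(l : ℤ) * i| + ρ ≤ R ∧
      H4 d (ctr d R (l * i)).1 (ctr d R (l * i)).2 (8 * l) ρ G) {u v w w' : Vtx}
    (hu : nm u = R) (hud : onS d R u) (ht : |tc d u| + 4 * ρ < R) (hv : nm v = R)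
    (hw : nm w ≤ k) (hw' : nm w' ≤ k) (h : Reach (G ∩ sbx k R) u w)
    (h' : Reach (G ∩ sbx k R) v w') (hne : ¬ Reach (G ∩ sbx k R) u v) :
    ¬ (|u.1 - v.1| ≤ l ∧ |u.2 - v.2| ≤ l) := by
  rintro ⟨h1, h2⟩
  obtain ⟨hvd, hvt⟩ := same_side (l := l) (ρ := ρ) hu hud ht (by omega) (by omega) hv h1 h2
  obtain ⟨e1, e2⟩ := ediv_near (t := tc d u) hl
  rw [abs_le] at hvt
  have ht2 := abs_lt.1 (by omega : |tc d u| < R - 4 * ρ)
  have hx : |(l : ℤ) * (tc d u / l)| + 2 * ρ + 2 * k ≤ R := by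
    have : |(l : ℤ) * (tc d u / l)| ≤ R - 2 * ρ - 2 * k := by rw [abs_le]; omega
    omega
  refine hB ⟨d, tc d u / l, by omega, ?_⟩
  refine two_h hk1 (w := w) (w' := w') (by omega) hx hu hud ?_ hv hvd
    ?_ h (not_pin_of hw (by omega)) h' (not_pin_of hw' (by omega)) hne
  · rw [abs_le]; push_cast; omega
  · rw [abs_le]; push_cast; omega

/-- near a landing point every cluster reaching far is the landing cluster -/
theorem near_h {k R r l : ℕ} {G : Set Edg} (hk1 : 1 ≤ k) (hr : 1 ≤ r) (hrl : 64 * r ≤ l)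
    (hl : 64 * l ≤ R) (hk : 64 * k ≤ R) (hkr : k ≤ r) {d : Dir}
    (hB : ¬ ∃ (d : Dir) (i : ℤ), |(r : ℤ) * i| + (l / 4 : ℕ) ≤ R ∧
      H4 d (ctr d R (r * i)).1 (ctr d R (r * i)).2 (8 * r) (l / 4) G) {y u w w' : Vtx}
    (hy : nm y = R) (hyd : onS d R y) (ht : |tc d y| + l < R) (hu : nm u = R)
    (hud : onS d R u) (hut : |tc d u - tc d y| ≤ r) (hw' : nm w' ≤ k)
    (h : Reach (G ∩ sbx k R) y w') (hw : ¬ (|w.1 - y.1| ≤ (l / 2 : ℕ) ∧
      |w.2 - y.2| ≤ (l / 2 : ℕ))) (h' : Reach (G ∩ sbx k R) u w) :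
    Reach (G ∩ sbx k R) u y := by
  by_contra hne
  obtain ⟨e1, e2⟩ := ediv_near (t := tc d y) hr
  rw [abs_le] at hut
  have ht2 := abs_lt.1 (by omega : |tc d y| < R - l)
  have hl4 : ((l / 4 : ℕ) : ℤ) * 4 ≤ l ∧ (l : ℤ) < ((l / 4 : ℕ) : ℤ) * 4 + 4 := by omega
  have hl2 : ((l / 2 : ℕ) : ℤ) * 2 ≤ l ∧ (l : ℤ) < ((l / 2 : ℕ) : ℤ) * 2 + 2 := by omega
  have hx : |(r : ℤ) * (tc d y / r)| + 2 * (l / 4 : ℕ) + 2 * k ≤ R := by
    have : |(r : ℤ) * (tc d y / r)| ≤ R - 2 * (l / 4 : ℕ) - 2 * k := by rw [abs_le]; omega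
    omega
  refine hB ⟨d, tc d y / r, by omega, ?_⟩
  refine two_h hk1 (w := w) (w' := w') (by omega) hx hu hud ?_ hy hyd
    ?_ h' ?_ h (not_pin_of hw' (by omega)) hne
  · rw [abs_le]; push_cast; omega
  · rw [abs_le]; push_cast; omega
  · rintro ⟨-, h3, h4⟩
    apply hw
    rw [abs_lt] at h3 h4
    rw [abs_le, abs_le]
    cases d <;> simp only [ctr, onS, tc] at * <;> omega

theorem sv0 (i : ℕ) : sv 0 0 i = ((i : ℤ), (i : ℤ)) := by
  simp [sv]

theorem sv_le {k i : ℕ} (hi : i < k) : nm (sv 0 0 i) ≤ k := by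
  rw [sv0, nm_le]
  dsimp only
  omega

theorem det_h {N r l ρ k : ℕ} {G : Set Edg} (hk1 : 1 ≤ k) (hkr : k ≤ r) (hr : 1 ≤ r)
    (hrl : 64 * r ≤ l) (hlρ : 64 * l ≤ ρ) (hρ : 64 * ρ ≤ N * r) (hkR : 64 * k ≤ N * r)
    (hB : ¬ BadL r l ρ (N * r) G) (hS : SEs k (N * r : ℕ) G) :
    ∃ c : Fin k → Cel, AdmS N k c ∧ LandS N r k c G := by
  obtain ⟨hS1, hS2⟩ := hS
  have hB1 : ¬ ∃ s1 s2 : Bool, Crs (sg s1 (N * r : ℕ)) (sg s2 (N * r : ℕ)) (4 * ρ) (N * r / 4) G :=
    fun h => hB (Or.inl h)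
  have hB2 := fun h => hB (Or.inr (Or.inl h))
  have hB3 := fun h => hB (Or.inr (Or.inr h))
  have hy0 : ∀ a : Fin k, ∃ (y : Vtx) (d : Dir), nm y = ((N * r : ℕ) : ℤ) ∧
      onS d (N * r : ℕ) y ∧ |tc d y| + 4 * ρ < (N * r : ℕ) ∧
      Reach (G ∩ sbx k (N * r : ℕ)) (sv 0 0 a) y := by
    intro a
    obtain ⟨y, hy, hc⟩ := hS2 a a.2
    obtain ⟨d, hd⟩ := side_of hy
    exact ⟨y, d, hy, hd, corner_h (w := sv 0 0 a) hρ (by omega) hkR
      hB1 hy hd hc.symm (sv_le a.2), hc⟩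
  choose y d hy hd ht hc using hy0
  have hne : ∀ a b : Fin k, a ≠ b → ¬ Reach (G ∩ sbx k (N * r : ℕ)) (y a) (y b) := by
    intro a b hab h
    refine hS1 a b a.2 b.2 (fun e => hab (Fin.ext e)) ?_
    exact ((hc a).trans h).trans (hc b).symm
  have hsep : ∀ a b : Fin k, a ≠ b →
      ¬ (|(y a).1 - (y b).1| ≤ l ∧ |(y a).2 - (y b).2| ≤ l) := by
    intro a b hab
    exact far_h (w := sv 0 0 a) (w' := sv 0 0 b) hk1 (by omega) hlρ hρ hkR (by omega) hB2 (hy a)
      (hd a) (ht a) (hy b) (sv_le a.2) (sv_le b.2) (hc a).symm (hc b).symm (hne a b hab)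
  have hin : ∀ a : Fin k, inSq r (csq N (cl (d a) (tc (d a) (y a) / r))) (y a) := fun a =>
    inSq_cl hr (hd a)
  have hcoarse : ∀ a b : Fin k, a ≠ b →
      2 ≤ |(csq N (cl (d a) (tc (d a) (y a) / r))).1 - (csq N (cl (d b) (tc (d b) (y b) / r))).1| ∨
      2 ≤ |(csq N (cl (d a) (tc (d a) (y a) / r))).2 -
        (csq N (cl (d b) (tc (d b) (y b) / r))).2| := by
    intro a b hab
    by_contra hcon
    rw [not_or, not_le, not_le] at hcon
    have h1 := inSq_near (hin a) (hin b) (by omega) (by omega)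
    exact hsep a b hab ⟨by omega, by omega⟩
  have hr0 : (0 : ℤ) < r := by exact_mod_cast hr
  have hx : ∀ a : Fin k, -(N : ℤ) + 6 ≤ tc (d a) (y a) / r ∧ tc (d a) (y a) / r + 7 ≤ N := by
    intro a
    have h3 := abs_lt.1 (show |tc (d a) (y a)| < ((N * r : ℕ) : ℤ) - 4 * ρ by
      have := ht a
      omega)
    push_cast at h3
    have h4 : 64 * 64 * r ≤ ρ := by omega
    have h4' : (64 * 64 * r : ℤ) ≤ ρ := by exact_mod_cast h4
    refine ⟨?_, ?_⟩
    · rw [Int.le_ediv_iff_mul_le hr0]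
      linarith [h3.1]
    · have h5 : tc (d a) (y a) / r < N - 6 := by
        rw [Int.ediv_lt_iff_lt_mul hr0]
        linarith [h3.2]
      omega
  have hrange : ∀ a : Fin k, (cl (d a) (tc (d a) (y a) / r)).1 < 4 ∧
      -(N : ℤ) ≤ (cl (d a) (tc (d a) (y a) / r)).2 ∧
      (cl (d a) (tc (d a) (y a) / r)).2 < N := by
    intro a
    obtain ⟨h1, h2⟩ := cl_lt (d a) (tc (d a) (y a) / r)
    have h3 := hx a
    refine ⟨h1, ?_, ?_⟩
    · rw [h2]; omega
    · rw [h2]; omega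
  have hadm : ∀ a : Fin k, (cl (d a) (tc (d a) (y a) / r)).1 < 4 ∧
      -(N : ℤ) + 6 ≤ (cl (d a) (tc (d a) (y a) / r)).2 ∧
      (cl (d a) (tc (d a) (y a) / r)).2 + 7 ≤ N := by
    intro a
    obtain ⟨h1, h2⟩ := cl_lt (d a) (tc (d a) (y a) / r)
    have h3 := hx a
    refine ⟨h1, ?_, ?_⟩
    · rw [h2]; omega
    · rw [h2]; omega
  set C : Fin k → Cel := fun a => cl (d a) (tc (d a) (y a) / r) with hC
  set f : Fin k → ℤ := fun a => cpos N (C a) with hf
  have hinj : Function.Injective f := by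
    intro a b hab
    by_contra hne'
    have h1 : C a = C b := cpos_inj (hrange a) (hrange b) hab
    have h2 := hcoarse a b hne'
    have h3 : csq N (cl (d a) (tc (d a) (y a) / r)) = csq N (cl (d b) (tc (d b) (y b) / r)) :=
      congrArg (csq N) h1
    rw [h3, sub_self, sub_self] at h2
    simp at h2
  have hst : StrictMono (f ∘ Tuple.sort f) :=
    (Tuple.monotone_sort f).strictMono_of_injective (hinj.comp (Tuple.sort f).injective)
  have hσ : Function.Injective (Tuple.sort f) := (Tuple.sort f).injective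
  refine ⟨fun a => C (Tuple.sort f a), ⟨fun a => hadm _, fun a b hab => hst hab, fun a b hab =>
    hcoarse _ _ (fun e => hab (hσ e))⟩, ⟨fun a => (Tuple.sort f a : Fin k), ?_, ?_⟩, ?_⟩
  · intro a b hab
    exact hσ (Fin.ext hab)
  · intro a
    exact ⟨(Tuple.sort f a).2, y (Tuple.sort f a), hin _, hy _, hc _⟩
  · intro a b hab u v hu hnu hv hnv huv
    have hab' : Tuple.sort f a ≠ Tuple.sort f b := fun e => hab (hσ e)
    replace hu : inSq r (csq N (C (Tuple.sort f a))) u := hu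
    replace hv : inSq r (csq N (C (Tuple.sort f b))) v := hv
    generalize Tuple.sort f a = a' at *
    generalize Tuple.sort f b = b' at *
    obtain ⟨hu1, hu2⟩ := of_inSq hr hnu hu
    obtain ⟨hv1, hv2⟩ := of_inSq hr hnv hv
    have hl2 : ((l / 2 : ℕ) : ℤ) * 2 ≤ l ∧ (l : ℤ) < ((l / 2 : ℕ) : ℤ) * 2 + 2 := by omega
    have hsa := inSq_same hu (hin a')
    have hsb := inSq_same hv (hin b')
    have hs := hsep a' b' hab'
    have h1 : Reach (G ∩ sbx k (N * r : ℕ)) u (y a') := by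
      refine near_h (l := l) (w := v) (w' := sv 0 0 a') hk1 hr hrl
        (by omega) hkR hkr hB3 (hy a') (hd a') ?_ hnu hu1 hu2 (sv_le a'.2)
        (hc a').symm ?_ huv
      · have := ht a'
        omega
      · rintro ⟨h3, h4⟩
        apply hs
        rw [abs_le] at h3 h4 hsb ⊢
        rw [abs_le] at hsb ⊢
        omega
    have h2 : Reach (G ∩ sbx k (N * r : ℕ)) v (y b') := by
      refine near_h (l := l) (w := u) (w' := sv 0 0 b') hk1 hr hrl
        (by omega) hkR hkr hB3 (hy b') (hd b') ?_ hnv hv1 hv2 (sv_le b'.2)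
        (hc b').symm ?_ huv.symm
      · have := ht b'
        omega
      · rintro ⟨h3, h4⟩
        apply hs
        rw [abs_le] at h3 h4 hsa ⊢
        rw [abs_le] at hsa ⊢
        omega
    exact hne a' b' hab' ((h1.symm.trans huv).trans h2)

/-! ### monotonicity and locality -/

theorem sbx_mono {k : ℕ} {R R' : ℤ} (h : R ≤ R') : sbx k R ⊆ sbx k R' :=
  fun _ he => ⟨he.1, he.2.1.trans h, he.2.2.trans h⟩

theorem seh_mono {k R R' : ℕ} (hkR : k ≤ R) (hR : R ≤ R') {G : Set Edg}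
    (h : SEs k (R' : ℤ) G) : SEs k (R : ℤ) G := by
  have hR' : (R : ℤ) ≤ R' := by exact_mod_cast hR
  refine ⟨fun i j hi hj hij hc => h.1 i j hi hj hij
    (hc.mono (Set.inter_subset_inter_right _ (sbx_mono hR'))), fun i hi => ?_⟩
  obtain ⟨y, hy, hc⟩ := h.2 i hi
  obtain ⟨z, hz, hr⟩ := exit_h (S := sbx k (R : ℤ)) (P := fun v => nm v < R) (fun e _ he hP => by
      have h3 := Pool.Agent.H160R2.MU.TMON.nm_tgt_le e
      have h4 := Pool.Agent.H160R2.MU.TMON.nm_src_le e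
      refine ⟨he.1, ?_, ?_⟩
      · rcases hP with hP | hP <;> omega
      · rcases hP with hP | hP <;> omega) hc
    (by
      show nm (sv 0 0 i) < R
      have : nm (sv 0 0 i) ≤ (R : ℤ) - 1 := by
        rw [sv0, nm_le]
        dsimp only
        omega
      omega)
    (by
      show ¬ nm y < R
      omega)
  refine ⟨z, ?_, hr⟩
  have hz2 : nm z ≤ R := by
    rcases Relation.ReflTransGen.cases_tail hr with e | ⟨x, -, e, ⟨-, he⟩, hyz⟩
    · rw [e, sv0, nm_le]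
      dsimp only
      omega
    · rcases hyz with ⟨-, rfl⟩ | ⟨rfl, -⟩
      · exact he.2.2
      · exact he.2.1
  have hz' : ¬ nm z < R := hz
  omega

theorem seh_local {k R : ℕ} (F : Finset Edg) :
    SEs k (R : ℤ) (↑F : Set Edg) ↔ SEs k (R : ℤ) (↑(F ∩ boxE R) : Set Edg) := by
  have h1 : (↑F : Set Edg) ∩ sbx k (R : ℤ) = (↑(F ∩ boxE R) : Set Edg) ∩ sbx k (R : ℤ) := by
    ext e
    simp only [Set.mem_inter_iff, Finset.mem_coe, Finset.mem_inter]
    constructor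
    · rintro ⟨he, h⟩
      exact ⟨⟨he, Pool.Agent.H160R2.MU.TMON.mem_box h.2.1 h.2.2⟩, h⟩
    · rintro ⟨he, h⟩
      exact ⟨he.1, h⟩
  unfold SEs
  rw [h1]

end TLANDS

open TLANDS Pool.Agent.H160R2.MU.TLAND in
open Pool.Agent.H160R2.MU (TMON.box_mono) in
theorem t_LAND : S_LAND := by
  classical
  intro k hk δ hδ
  obtain ⟨N, A, B, hN, hA, hB, hN2, hN3, hP⟩ := prob k δ hδ
  refine ⟨N, hN, ((Fintype.piFinset (fun _ : Fin k =>
    Finset.range 4 ×ˢ Finset.Ico (-(N : ℤ)) N)).filter (AdmS N k)),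
    fun c hc => (Finset.mem_filter.1 hc).2, k, ?_⟩
  intro r hkr
  have hr : 1 ≤ r := by omega
  set Cs := ((Fintype.piFinset (fun _ : Fin k =>
    Finset.range 4 ×ˢ Finset.Ico (-(N : ℤ)) N)).filter (AdmS N k)) with hCs
  set l := A * r with hl
  set ρ := B * (A * r) with hρ
  have h1 : 64 * r ≤ l := Nat.mul_le_mul_right r hA
  have h2 : 64 * l ≤ ρ := Nat.mul_le_mul_right _ hB
  have h3 : 64 * ρ ≤ N * r := by
    calc 64 * ρ = 64 * (B * A) * r := by rw [hρ]; ring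
      _ ≤ N * r := Nat.mul_le_mul_right r hN2
  have h4 : 64 * k ≤ N * r := by
    calc 64 * k ≤ N := hN3
      _ = N * 1 := (mul_one N).symm
      _ ≤ N * r := Nat.mul_le_mul_left N hr
  have hcov : sPs k (N * r) ≤ Pr (fun _ => (1 / 2 : ℝ)) (boxE (N * r)) (fun F =>
      (SEs k (N * r / 2 : ℕ) (↑F : Set Edg) ∧ BadL r l ρ (N * r) (↑F : Set Edg)) ∨
      ∃ c ∈ Cs, LandS N r k c (↑F : Set Edg)) := by
    unfold sPs
    refine Pr_mono ok2 fun F _ hF => ?_
    by_cases hb : BadL r l ρ (N * r) (↑F : Set Edg)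
    · exact Or.inl ⟨seh_mono (by omega) (Nat.div_le_self _ _) hF, hb⟩
    · right
      obtain ⟨c, hc, hc'⟩ := det_h (by omega) hkr hr h1 h2 h3 h4 hb hF
      refine ⟨c, ?_, hc'⟩
      rw [hCs, Finset.mem_filter, Fintype.mem_piFinset]
      refine ⟨fun a => ?_, hc⟩
      have := hc.1 a
      rw [Finset.mem_product, Finset.mem_range, Finset.mem_Ico]
      omega
  have hind : Pr (fun _ => (1 / 2 : ℝ)) (boxE (N * r)) (fun F =>
      (SEs k (N * r / 2 : ℕ) (↑F : Set Edg) ∧ BadL r l ρ (N * r) (↑F : Set Edg))) =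
      Pr (fun _ => (1 / 2 : ℝ)) (boxE (N * r)) (fun F => SEs k (N * r / 2 : ℕ) (↑F : Set Edg)) *
      Pr (fun _ => (1 / 2 : ℝ)) (boxE (N * r)) (fun F => BadL r l ρ (N * r) (↑F : Set Edg)) := by
    refine Pr_indep (S := boxE (N * r / 2)) (T := boxE (N * r) \ boxE (N * r / 2))
      (TMON.box_mono (Nat.div_le_self _ _)) Finset.sdiff_subset Finset.disjoint_sdiff
      (fun F _ => seh_local F) (fun F hF => ?_)
    have key : ∀ e : Edg, e ∉ boxE (N * r / 2) →
        (e ∈ (↑F : Set Edg) ↔ e ∈ (↑(F ∩ (boxE (N * r) \ boxE (N * r / 2))) : Set Edg)) := by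
      intro e he
      rw [Finset.mem_coe, Finset.mem_coe, Finset.mem_inter, Finset.mem_sdiff]
      exact ⟨fun h => ⟨h, hF h, he⟩, fun h => h.1⟩
    exact ⟨bad_mono hr h1 h2 h3 key, bad_mono hr h1 h2 h3 fun e he => (key e he).symm⟩
  have hsp : Pr (fun _ => (1 / 2 : ℝ)) (boxE (N * r))
      (fun F => SEs k (N * r / 2 : ℕ) (↑F : Set Edg)) = sPs k (N * r / 2) :=
    Pr_local (TMON.box_mono (Nat.div_le_self _ _)) fun F _ => seh_local F
  have hsp0 : 0 ≤ sPs k (N * r / 2) := Pr_nonneg ok2 _ _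
  refine hcov.trans ((Pr_or_le ok2 _ _ _).trans (add_le_add ?_ (Pr_exists_le ok2 _ _ _)))
  rw [hind, hsp, mul_comm]
  exact mul_le_mul_of_nonneg_right (hP r hr) hsp0

end Pool.Agent.W808.KU
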